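import Mathlib

/-! A weak Bernstein inequality for polynomials on the unit circle. -/

open Set Topology Filter Metric

namespace Pool.Agent.H811R2.Quad

noncomputable section

/-- the polynomial `∑_{j ≤ n} c_j w^j` -/
def Pc (n : ℕ) (c : ℕ → ℂ) (w : ℂ) : ℂ := ∑ j ∈ Finset.range (n + 1), c j * w ^ j

lemma differentiable_Pc (n : ℕ) (c : ℕ → ℂ) : Differentiable ℂ (Pc n c) := by
  unfold Pc
  fun_prop

lemma Pc_reflect (n : ℕ) (c : ℕ → ℂ) {w : ℂ} (hw : w ≠ 0) :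
    Pc n c w = w ^ n * Pc n (fun j => c (n - j)) w⁻¹ := by
  unfold Pc
  rw [← Finset.sum_range_reflect, Finset.mul_sum]
  refine Finset.sum_congr rfl fun j hj => ?_
  have hj' : j ≤ n := Nat.lt_succ_iff.1 (Finset.mem_range.1 hj)
  simp only [Nat.add_sub_cancel]
  have : w ^ n = w ^ (n - j) * w ^ j := by rw [← pow_add, Nat.sub_add_cancel hj']
  rw [this, inv_pow]
  have h2 : w ^ j ≠ 0 := pow_ne_zero _ hw
  field_simp

lemma Pc_le_disc {n : ℕ} {c : ℕ → ℂ} {κ : ℝ} (h : ∀ w : ℂ, ‖w‖ = 1 → ‖Pc n c w‖ ≤ κ) {w : ℂ}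
    (hw : ‖w‖ ≤ 1) : ‖Pc n c w‖ ≤ κ := by
  refine Complex.norm_le_of_forall_mem_frontier_norm_le (U := ball (0:ℂ) 1) isBounded_ball
    (differentiable_Pc n c).diffContOnCl ?_ ?_
  · intro z hz
    rw [frontier_ball _ one_ne_zero] at hz
    exact h z (by simpa using hz)
  · rw [closure_ball _ one_ne_zero]
    simpa using hw

lemma Pc_le {n : ℕ} {c : ℕ → ℂ} {κ : ℝ} (h : ∀ w : ℂ, ‖w‖ = 1 → ‖Pc n c w‖ ≤ κ) {w : ℂ} {R : ℝ}
    (hR : 1 ≤ R) (hw : ‖w‖ ≤ R) : ‖Pc n c w‖ ≤ R ^ n * κ := by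
  have hκ : 0 ≤ κ := (norm_nonneg _).trans (h 1 (by simp))
  have hRn : 1 ≤ R ^ n := one_le_pow₀ hR
  rcases le_total ‖w‖ 1 with h1 | h1
  · refine (Pc_le_disc h h1).trans ?_
    nlinarith
  · have hw0 : w ≠ 0 := by
      rintro rfl
      simp at h1
      linarith
    have h2 : ∀ z : ℂ, ‖z‖ = 1 → ‖Pc n (fun j => c (n - j)) z‖ ≤ κ := by
      intro z hz
      have hz0 : z ≠ 0 := by
        rintro rfl
        simp at hz
      have h3 := Pc_reflect n c (inv_ne_zero hz0)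
      rw [inv_inv] at h3
      have h4 := h z⁻¹ (by rw [norm_inv, hz, inv_one])
      rw [h3, norm_mul, norm_pow, norm_inv, hz, inv_one, one_pow, one_mul] at h4
      exact h4
    rw [Pc_reflect n c hw0, norm_mul, norm_pow]
    have h5 : ‖Pc n (fun j => c (n - j)) w⁻¹‖ ≤ κ := by
      apply Pc_le_disc h2
      rw [norm_inv]
      exact inv_le_one_of_one_le₀ h1
    exact mul_le_mul (pow_le_pow_left₀ (norm_nonneg _) hw n) h5 (norm_nonneg _) (by positivity)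

lemma one_add_inv_pow_le (n : ℕ) (hn : 0 < n) : (1 + 1 / (n:ℝ)) ^ n ≤ 3 := by
  have h1 : 1 + 1 / (n:ℝ) ≤ Real.exp (1 / n) := by
    have := Real.add_one_le_exp (1 / (n:ℝ))
    linarith
  have hn' : (n:ℝ) ≠ 0 := by positivity
  calc (1 + 1 / (n:ℝ)) ^ n ≤ Real.exp (1 / n) ^ n := pow_le_pow_left₀ (by positivity) h1 n
    _ = Real.exp 1 := by
        rw [← Real.exp_nat_mul]
        congr 1
        field_simp
    _ ≤ 3 := by
        have := Real.exp_one_lt_d9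
        linarith

/-- weak Bernstein inequality -/
lemma deriv_Pc_le {n : ℕ} (hn : 0 < n) {c : ℕ → ℂ} {κ : ℝ}
    (h : ∀ w : ℂ, ‖w‖ = 1 → ‖Pc n c w‖ ≤ κ) {w : ℂ} (hw : ‖w‖ = 1) :
    ‖deriv (Pc n c) w‖ ≤ 3 * n * κ := by
  have hκ : 0 ≤ κ := (norm_nonneg _).trans (h 1 (by simp))
  have hn' : (0:ℝ) < n := by exact_mod_cast hn
  have h1 := Complex.norm_deriv_le_of_forall_mem_sphere_norm_le (f := Pc n c) (c := w)
    (R := 1 / n) (C := 3 * κ) (by positivity) (differentiable_Pc n c).diffContOnCl ?_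
  · refine h1.trans (le_of_eq ?_)
    field_simp
  · intro z hz
    have hz1 : ‖z‖ ≤ 1 + 1 / n := by
      rw [mem_sphere, dist_eq_norm] at hz
      calc ‖z‖ = ‖w + (z - w)‖ := by rw [add_sub_cancel]
        _ ≤ ‖w‖ + ‖z - w‖ := norm_add_le _ _
        _ = 1 + 1 / n := by rw [hz, hw]
    refine (Pc_le h (R := 1 + 1 / n) (by
      have : (0:ℝ) ≤ 1 / n := by positivity
      linarith) hz1).trans ?_
    exact mul_le_mul_of_nonneg_right (one_add_inv_pow_le n hn) hκ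

/-- the trigonometric polynomial of the homogeneous field -/
def Gn (n : ℕ) (c : ℕ → ℂ) (θ : ℝ) : ℂ :=
  Complex.exp (-((n + 1 : ℕ) * θ) * Complex.I) * Pc n c (Complex.exp (2 * θ * Complex.I))

/-- its derivative -/
def Gn' (n : ℕ) (c : ℕ → ℂ) (θ : ℝ) : ℂ :=
  Complex.exp (-((n + 1 : ℕ) * θ) * Complex.I) * (-((n + 1 : ℕ) : ℂ) * Complex.I) *
    Pc n c (Complex.exp (2 * θ * Complex.I)) +
  Complex.exp (-((n + 1 : ℕ) * θ) * Complex.I) *
    (deriv (Pc n c) (Complex.exp (2 * θ * Complex.I)) *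
      (Complex.exp (2 * θ * Complex.I) * (2 * Complex.I)))

lemma hasDerivAt_Gn (n : ℕ) (c : ℕ → ℂ) (θ : ℝ) : HasDerivAt (Gn n c) (Gn' n c θ) θ := by
  have h0 : HasDerivAt (fun θ : ℝ => (θ : ℂ)) 1 θ := Complex.ofRealCLM.hasDerivAt
  have h1 : HasDerivAt (fun θ : ℝ => Complex.exp (-((n + 1 : ℕ) * (θ:ℂ)) * Complex.I))
      (Complex.exp (-((n + 1 : ℕ) * (θ:ℂ)) * Complex.I) * (-((n + 1 : ℕ) : ℂ) * Complex.I)) θ := by
    have := ((h0.const_mul ((n + 1 : ℕ) : ℂ)).neg.mul_const Complex.I).cexp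
    simpa using this
  have h2 : HasDerivAt (fun θ : ℝ => Complex.exp (2 * (θ:ℂ) * Complex.I))
      (Complex.exp (2 * (θ:ℂ) * Complex.I) * (2 * Complex.I)) θ := by
    have := ((h0.const_mul (2:ℂ)).mul_const Complex.I).cexp
    simpa using this
  have h3 : HasDerivAt (fun θ : ℝ => Pc n c (Complex.exp (2 * (θ:ℂ) * Complex.I)))
      (deriv (Pc n c) (Complex.exp (2 * θ * Complex.I)) *
        (Complex.exp (2 * (θ:ℂ) * Complex.I) * (2 * Complex.I))) θ :=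
    HasDerivAt.comp (h₂ := Pc n c) (h := fun θ : ℝ => Complex.exp (2 * (θ:ℂ) * Complex.I)) θ
      ((differentiable_Pc n c (Complex.exp (2 * θ * Complex.I))).hasDerivAt) h2
  exact h1.mul h3

lemma norm_exp_real (x : ℝ) : ‖Complex.exp ((x:ℂ) * Complex.I)‖ = 1 :=
  Complex.norm_exp_ofReal_mul_I x

lemma norm_e1 (n : ℕ) (θ : ℝ) : ‖Complex.exp (-((n + 1 : ℕ) * (θ:ℂ)) * Complex.I)‖ = 1 := by
  have := norm_exp_real (-((n + 1 : ℕ) * θ))
  push_cast at this ⊢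
  exact this

lemma norm_e2 (θ : ℝ) : ‖Complex.exp (2 * (θ:ℂ) * Complex.I)‖ = 1 := by
  have := norm_exp_real (2 * θ)
  push_cast at this ⊢
  exact this

lemma norm_Gn (n : ℕ) (c : ℕ → ℂ) (θ : ℝ) :
    ‖Gn n c θ‖ = ‖Pc n c (Complex.exp (2 * θ * Complex.I))‖ := by
  unfold Gn
  rw [norm_mul, norm_e1, one_mul]

lemma Pc_le_of_Gn {n : ℕ} {c : ℕ → ℂ} {κ : ℝ} (h : ∀ θ, ‖Gn n c θ‖ ≤ κ) (w : ℂ)
    (hw : ‖w‖ = 1) : ‖Pc n c w‖ ≤ κ := by
  have h1 := h (Complex.arg w / 2)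
  rw [norm_Gn] at h1
  have h2 : Complex.exp (2 * ((Complex.arg w / 2 : ℝ) : ℂ) * Complex.I) = w := by
    have := Complex.norm_mul_exp_arg_mul_I w
    rw [hw, Complex.ofReal_one, one_mul] at this
    have e : (2 * ((Complex.arg w / 2 : ℝ) : ℂ) * Complex.I) = (Complex.arg w : ℂ) * Complex.I := by
      push_cast
      ring
    rw [e, this]
  rw [h2] at h1
  exact h1

lemma norm_Gn'_le {n : ℕ} (hn : 0 < n) {c : ℕ → ℂ} {κ : ℝ} (h : ∀ θ, ‖Gn n c θ‖ ≤ κ) (θ : ℝ) :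
    ‖Gn' n c θ‖ ≤ 7 * (n + 1) * κ := by
  have hP := Pc_le_of_Gn h
  have hκ : 0 ≤ κ := (norm_nonneg _).trans (h 0)
  have h1 := hP _ (norm_e2 θ)
  have h2 := deriv_Pc_le hn hP (norm_e2 θ)
  unfold Gn'
  refine (norm_add_le _ _).trans ?_
  have k1 : ‖Complex.exp (-((n + 1 : ℕ) * (θ:ℂ)) * Complex.I) *
      (-((n + 1 : ℕ) : ℂ) * Complex.I) * Pc n c (Complex.exp (2 * θ * Complex.I))‖ =
      ((n:ℝ) + 1) * ‖Pc n c (Complex.exp (2 * (θ:ℂ) * Complex.I))‖ := by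
    rw [norm_mul, norm_mul, norm_e1, norm_mul, norm_neg, Complex.norm_I, Complex.norm_natCast]
    push_cast
    ring
  have k2 : ‖Complex.exp (-((n + 1 : ℕ) * (θ:ℂ)) * Complex.I) *
      (deriv (Pc n c) (Complex.exp (2 * θ * Complex.I)) *
      (Complex.exp (2 * θ * Complex.I) * (2 * Complex.I)))‖ =
      2 * ‖deriv (Pc n c) (Complex.exp (2 * (θ:ℂ) * Complex.I))‖ := by
    rw [norm_mul, norm_e1, norm_mul, norm_mul (Complex.exp _), norm_e2, norm_mul, Complex.norm_I,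
      Complex.norm_ofNat]
    ring
  rw [k1, k2]
  have h3 : ((n:ℝ) + 1) * ‖Pc n c (Complex.exp (2 * (θ:ℂ) * Complex.I))‖ ≤ (n + 1) * κ :=
    mul_le_mul_of_nonneg_left h1 (by positivity)
  nlinarith

lemma contDiff_Gn (n : ℕ) (c : ℕ → ℂ) : ContDiff ℝ 1 (Gn n c) := by
  have h0 : ContDiff ℝ 1 (fun θ : ℝ => (θ : ℂ)) := Complex.ofRealCLM.contDiff
  have h1 : ContDiff ℝ 1 (fun θ : ℝ => Complex.exp (2 * (θ:ℂ) * Complex.I)) :=
    ((contDiff_const.mul h0).mul contDiff_const).cexp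
  have h2 : ContDiff ℝ 1 (fun θ : ℝ => Complex.exp (-((n + 1 : ℕ) * (θ:ℂ)) * Complex.I)) :=
    (((contDiff_const.mul h0).neg).mul contDiff_const).cexp
  unfold Gn Pc
  exact h2.mul (ContDiff.sum fun j _ => contDiff_const.mul (h1.pow j))

lemma continuous_Gn' (n : ℕ) (c : ℕ → ℂ) : Continuous (Gn' n c) := by
  have : Gn' n c = deriv (Gn n c) := by
    funext θ; exact (hasDerivAt_Gn n c θ).deriv.symm
  rw [this]
  exact (contDiff_Gn n c).continuous_deriv le_rfl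

lemma Gn_anti {n : ℕ} (hn : Even n) (c : ℕ → ℂ) (θ : ℝ) : Gn n c (θ + Real.pi) = -Gn n c θ := by
  unfold Gn
  have h2 : Complex.exp (2 * ((θ + Real.pi : ℝ) : ℂ) * Complex.I) =
      Complex.exp (2 * (θ:ℂ) * Complex.I) := by
    rw [show 2 * ((θ + Real.pi : ℝ) : ℂ) * Complex.I = 2 * (θ:ℂ) * Complex.I +
      2 * Real.pi * Complex.I by push_cast; ring, Complex.exp_periodic]
  have h1 : Complex.exp (-((n + 1 : ℕ) * ((θ + Real.pi : ℝ) : ℂ)) * Complex.I) =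
      -Complex.exp (-((n + 1 : ℕ) * (θ:ℂ)) * Complex.I) := by
    obtain ⟨k, hk⟩ := hn
    have e : -(((n + 1 : ℕ) : ℂ) * ((θ + Real.pi : ℝ) : ℂ)) * Complex.I =
        -(((n + 1 : ℕ) : ℂ) * (θ:ℂ)) * Complex.I - Real.pi * Complex.I -
          (k : ℕ) * (2 * Real.pi * Complex.I) := by
      rw [hk]; push_cast; ring
    rw [e, Complex.exp_periodic.sub_nat_mul_eq, Complex.exp_sub, Complex.exp_pi_mul_I]
    ring
  rw [h1, h2]
  ring

lemma Gn_lip {n : ℕ} (hn : 0 < n) {c : ℕ → ℂ} {κ : ℝ} (h : ∀ θ, ‖Gn n c θ‖ ≤ κ) (x y : ℝ) :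
    ‖Gn n c y - Gn n c x‖ ≤ 7 * (n + 1) * κ * |y - x| := by
  have := Convex.norm_image_sub_le_of_norm_hasDerivWithin_le (s := univ) (f := Gn n c)
    (f' := Gn' n c) (C := 7 * (n + 1) * κ) (x := x) (y := y)
    (fun θ _ => (hasDerivAt_Gn n c θ).hasDerivWithinAt) (fun θ _ => norm_Gn'_le hn h θ)
    convex_univ (mem_univ _) (mem_univ _)
  simpa using this

/-- a point where the modulus is maximal -/
lemma exists_max_Gn {n : ℕ} (hn : Even n) (c : ℕ → ℂ) : ∃ θm, ∀ θ, ‖Gn n c θ‖ ≤ ‖Gn n c θm‖ := by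
  have hc : Continuous fun θ => ‖Gn n c θ‖ := (contDiff_Gn n c).continuous.norm
  have hper : Function.Periodic (fun θ => ‖Gn n c θ‖) Real.pi := by
    intro θ
    simp only [Gn_anti hn, norm_neg]
  obtain ⟨y, -, hy⟩ := (isCompact_Icc (a := 0) (b := Real.pi)).exists_isMaxOn
    ⟨0, le_rfl, by positivity⟩ hc.continuousOn
  refine ⟨y, fun x => ?_⟩
  obtain ⟨z, hz, hze⟩ := hper.exists_mem_Ico₀ (by positivity) x
  rw [hze]
  exact hy ⟨hz.1, hz.2.le⟩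

/-- the planar field in polar coordinates -/
lemma Gn_polar {n : ℕ} (hn : 0 < n) (c : ℕ → ℂ) (r θ : ℝ) :
    ∑ j ∈ Finset.range (n + 1), c j * ((r * Complex.exp (θ * Complex.I)) ^ j *
      (starRingEnd ℂ) (r * Complex.exp (θ * Complex.I)) ^ (n - j)) =
    (r:ℂ) ^ (n - 1) * Gn n c θ * (r * Complex.exp (θ * Complex.I)) := by
  unfold Gn Pc
  rw [Finset.mul_sum, Finset.mul_sum, Finset.sum_mul]
  refine Finset.sum_congr rfl fun j hj => ?_
  have hj' : j ≤ n := Nat.lt_succ_iff.1 (Finset.mem_range.1 hj)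
  have e1 : (starRingEnd ℂ) (r * Complex.exp (θ * Complex.I)) =
      r * Complex.exp (-(θ * Complex.I)) := by
    rw [map_mul, Complex.conj_ofReal, ← Complex.exp_conj, map_mul, Complex.conj_ofReal,
      Complex.conj_I]
    congr 2
    ring
  rw [e1, mul_pow, mul_pow, ← Complex.exp_nat_mul, ← Complex.exp_nat_mul, ← Complex.exp_nat_mul]
  have e2 : (r:ℂ) ^ n = (r:ℂ) ^ (n - 1) * r := by
    rw [← pow_succ, Nat.sub_add_cancel hn]
  have e3 : (r:ℂ) ^ j * (r:ℂ) ^ (n - j) = (r:ℂ) ^ n := by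
    rw [← pow_add, Nat.add_sub_cancel' hj']
  have e4 : Complex.exp (j * (θ * Complex.I)) * Complex.exp ((n - j : ℕ) * -(θ * Complex.I)) =
      Complex.exp (-((n + 1 : ℕ) * θ) * Complex.I) * Complex.exp (j * (2 * θ * Complex.I)) *
        Complex.exp (θ * Complex.I) := by
    rw [← Complex.exp_add, ← Complex.exp_add, ← Complex.exp_add]
    congr 1
    rw [Nat.cast_sub hj']
    push_cast
    ring
  calc c j * ((r:ℂ) ^ j * Complex.exp (j * (θ * Complex.I)) *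
        ((r:ℂ) ^ (n - j) * Complex.exp ((n - j : ℕ) * -(θ * Complex.I))))
      = c j * ((r:ℂ) ^ j * (r:ℂ) ^ (n - j)) * (Complex.exp (j * (θ * Complex.I)) *
        Complex.exp ((n - j : ℕ) * -(θ * Complex.I))) := by ring
    _ = _ := by rw [e3, e4, e2]; ring

end

end Pool.Agent.H811R2.Quad
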