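import Pool.Agent.H811R2.QPlane

/-! The canonical family `z' = (μ + i) z + quadratic`. -/

open Set Topology Filter MeasureTheory
open scoped ENNReal NNReal

namespace Pool.Agent.H811R2.Quad

noncomputable section

lemma mu_neg (t : ℝ) : mu (-t) = -mu t := by
  unfold mu; rw [neg_sq, neg_div]

/-- reflection -/
lemma PSol.reflect {G1 G2 : ℝ → ℝ} {μ : ℝ} {v : ℝ → ℝ} (h : PSol G1 G2 μ v) :
    PSol (fun θ => -G1 (-θ)) (fun θ => G2 (-θ)) (-μ) (fun θ => v (-θ)) := by
  refine ⟨⟨fun θ => h.pos _, fun θ => h.pos' _, fun θ => ?_⟩, fun θ => ?_⟩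
  · have := (h.deriv (-θ)).comp θ (hasDerivAt_neg θ)
    refine this.congr_deriv ?_
    ring
  · have := h.per (-θ - 2 * Real.pi)
    rw [show -(θ + 2 * Real.pi) = -θ - 2 * Real.pi by ring, ← this]
    congr 1
    ring

lemma reflect_encard (G1 G2 : ℝ → ℝ) (μ : ℝ) :
    ({v | PSol G1 G2 μ v} : Set (ℝ → ℝ)).encard ≤
      ({v | PSol (fun θ => -G1 (-θ)) (fun θ => G2 (-θ)) (-μ) v} : Set (ℝ → ℝ)).encard := by
  have hinj : Function.Injective (fun (v : ℝ → ℝ) (θ : ℝ) => v (-θ)) := by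
    intro v w hvw
    funext θ
    have := congrFun hvw (-θ)
    simpa using this
  rw [← hinj.encard_image {v | PSol G1 G2 μ v}]
  apply encard_le_encard
  rintro _ ⟨v, hv, rfl⟩
  exact PSol.reflect hv

/-- gluing the two halves of the parameter interval -/
lemma glue {N : ℝ → ℝ≥0∞} {gp gm : ℝ → ℝ≥0∞} (hgp : Measurable gp) (hgm : Measurable gm)
    (h1 : ∀ t, 0 < t → t < 1 → N t ≤ gp t) (h2 : ∀ t, 0 < t → t < 1 → N (-t) ≤ gm t)
    {K : ℝ} (hp : ∫⁻ t, gp t ≤ ENNReal.ofReal K) (hm : ∫⁻ t, gm t ≤ ENNReal.ofReal K)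
    (hK : 0 ≤ K) :
    ∃ g : ℝ → ℝ≥0∞, Measurable g ∧ (∀ t ∈ Ioo (-1:ℝ) 1, N t ≤ g t) ∧
      ∫⁻ t in Ioo (-1:ℝ) 1, g t ≤ ENNReal.ofReal (2 * K) := by
  refine ⟨fun t => gp t + gm (-t) + ({0} : Set ℝ).indicator (fun _ => ⊤) t, ?_, ?_, ?_⟩
  · exact (hgp.add (hgm.comp measurable_neg)).add
      (measurable_const.indicator (measurableSet_singleton 0))
  · intro t ht
    rcases lt_trichotomy t 0 with h | h | h
    · have := h2 (-t) (by linarith) (by linarith [ht.1])
      rw [neg_neg] at this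
      calc N t ≤ gm (-t) := this
        _ ≤ gp t + gm (-t) := le_add_self
        _ ≤ _ := le_self_add
    · subst h
      simp
    · calc N t ≤ gp t := h1 t h ht.2
        _ ≤ gp t + gm (-t) := le_self_add
        _ ≤ _ := le_self_add
  · refine (setLIntegral_le_lintegral _ _).trans ?_
    rw [lintegral_add_right _ (measurable_const.indicator (measurableSet_singleton 0)),
      lintegral_add_left hgp]
    have e1 : ∫⁻ t, gm (-t) = ∫⁻ t, gm t := by
      have := (Measure.measurePreserving_neg (volume : Measure ℝ)).lintegral_comp hgm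
      exact this
    have e2 : ∫⁻ t, ({0} : Set ℝ).indicator (fun _ => (⊤:ℝ≥0∞)) t = 0 := by
      rw [lintegral_indicator (measurableSet_singleton 0)]
      simp
    rw [e1, e2, add_zero, two_mul, ENNReal.ofReal_add hK hK]
    exact add_le_add hp hm

/-- the canonical quadratic field -/
def VQ (u w : Fin 3 → ℝ) (μ : ℝ) (z : ℂ) : ℂ :=
  ((μ : ℂ) + Complex.I) * z +
    ((u 0 * z.re ^ 2 + u 1 * (z.re * z.im) + u 2 * z.im ^ 2 : ℝ) +
      (w 0 * z.re ^ 2 + w 1 * (z.re * z.im) + w 2 * z.im ^ 2 : ℝ) * Complex.I)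

lemma continuous_VQ (u w : Fin 3 → ℝ) (μ : ℝ) : Continuous (VQ u w μ) := by
  unfold VQ
  have h1 := Complex.continuous_re
  have h2 := Complex.continuous_im
  fun_prop

lemma contDiff_trig (p q r t : ℝ) : ContDiff ℝ 1 (trig p q r t) := by
  have h1 : ContDiff ℝ 1 Real.cos := Real.contDiff_cos
  have h2 : ContDiff ℝ 1 Real.sin := Real.contDiff_sin
  have h3 : ContDiff ℝ 1 (fun θ : ℝ => Real.cos (3 * θ)) := h1.comp (contDiff_const.mul contDiff_id)
  have h4 : ContDiff ℝ 1 (fun θ : ℝ => Real.sin (3 * θ)) := h2.comp (contDiff_const.mul contDiff_id)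
  unfold trig
  exact (((contDiff_const.mul h1).add (contDiff_const.mul h2)).add (contDiff_const.mul h3)).add
    (contDiff_const.mul h4)

lemma VQ_polar (u w : Fin 3 → ℝ) (μ r θ : ℝ) :
    VQ u w μ (r * Complex.exp (θ * Complex.I)) =
      ((μ + r ^ 1 * trig ((3 * u 0 + u 2 + w 1) / 4) ((w 0 + 3 * w 2 + u 1) / 4)
          ((u 0 - u 2 - w 1) / 4) ((w 0 - w 2 + u 1) / 4) θ : ℝ) +
        (1 + r ^ 1 * trig ((3 * w 0 + w 2 - u 1) / 4) ((-u 0 - 3 * u 2 + w 1) / 4)
          ((w 0 - w 2 + u 1) / 4) (-((u 0 - u 2 - w 1) / 4)) θ : ℝ) * Complex.I) *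
        (r * Complex.exp (θ * Complex.I)) := by
  have hre : ((r : ℂ) * Complex.exp (θ * Complex.I)).re = r * Real.cos θ := by
    rw [Complex.re_ofReal_mul, Complex.exp_ofReal_mul_I_re]
  have him : ((r : ℂ) * Complex.exp (θ * Complex.I)).im = r * Real.sin θ := by
    rw [Complex.im_ofReal_mul, Complex.exp_ofReal_mul_I_im]
  have h1 := Real.sin_sq_add_cos_sq θ
  unfold VQ trig
  apply Complex.ext
  · simp only [Complex.add_re, Complex.mul_re, Complex.mul_im, Complex.add_im, Complex.ofReal_re,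
      Complex.ofReal_im, Complex.I_re, Complex.I_im, mul_zero, mul_one, sub_zero,
      add_zero, zero_add, hre, him, Real.cos_three_mul, Real.sin_three_mul]
    set C := Real.cos θ
    set S := Real.sin θ
    linear_combination (-(r ^ 2 * ((u 0 * C ^ 2 + u 1 * (C * S) + u 2 * S ^ 2) -
      ((u 2 + w 1) * C + (w 0 + u 1) * S) * C + ((w 2 - u 1) * C + (w 1 - u 0) * S) * S))) * h1
  · simp only [Complex.add_re, Complex.mul_re, Complex.mul_im, Complex.add_im, Complex.ofReal_re,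
      Complex.ofReal_im, Complex.I_re, Complex.I_im, mul_zero, mul_one, sub_zero,
      add_zero, zero_add, hre, him, Real.cos_three_mul, Real.sin_three_mul]
    set C := Real.cos θ
    set S := Real.sin θ
    linear_combination (-(r ^ 2 * ((w 0 * C ^ 2 + w 1 * (C * S) + w 2 * S ^ 2) -
      ((u 2 + w 1) * C + (w 0 + u 1) * S) * S - ((w 2 - u 1) * C + (w 1 - u 0) * S) * C))) * h1

/-- Averaged count of the closed orbits around the origin for the canonical quadratic family. -/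
theorem canon (u w : Fin 3 → ℝ) :
    ∃ g : ℝ → ℝ≥0∞, Measurable g ∧
      (∀ t ∈ Ioo (-1:ℝ) 1, (((around (VQ u w (mu t))).encard : ℕ∞) : ℝ≥0∞) ≤ g t) ∧
      ∫⁻ t in Ioo (-1:ℝ) 1, g t ≤ ENNReal.ofReal 500 := by
  set p1 := (3 * u 0 + u 2 + w 1) / 4 with hp1
  set p2 := (w 0 + 3 * w 2 + u 1) / 4 with hp2
  set q1 := (3 * w 0 + w 2 - u 1) / 4 with hq1
  set q2 := (-u 0 - 3 * u 2 + w 1) / 4 with hq2
  set c1 := (u 0 - u 2 - w 1) / 4 with hc1
  set c2 := (w 0 - w 2 + u 1) / 4 with hc2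
  have hle : ∀ t, (around (VQ u w (mu t))).encard ≤
      ({v | PSol (trig p1 p2 c1 c2) (trig q1 q2 c2 (-c1)) (mu t) v} : Set (ℝ → ℝ)).encard := by
    intro t
    have := around_encard_le (continuous_VQ u w (mu t)) one_pos (contDiff_trig p1 p2 c1 c2)
      (contDiff_trig q1 q2 c2 (-c1)) (trig_anti _ _ _ _) (trig_anti _ _ _ _) (μ := mu t)
      (fun r θ _ => VQ_polar u w (mu t) r θ)
    simpa using this
  obtain ⟨gp, hgp1, hgp2, hgp3⟩ := quad_half p1 p2 q1 q2 c1 c2
  obtain ⟨gm, hgm1, hgm2, hgm3⟩ := quad_half (-p1) p2 q1 (-q2) (-c1) c2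
  have e1 : (fun θ => -trig p1 p2 c1 c2 (-θ)) = trig (-p1) p2 (-c1) c2 := by
    funext θ
    unfold trig
    rw [Real.cos_neg, Real.sin_neg, show 3 * -θ = -(3 * θ) by ring, Real.cos_neg, Real.sin_neg]
    ring
  have e2 : (fun θ => trig q1 q2 c2 (-c1) (-θ)) = trig q1 (-q2) c2 (- -c1) := by
    funext θ
    unfold trig
    rw [Real.cos_neg, Real.sin_neg, show 3 * -θ = -(3 * θ) by ring, Real.cos_neg, Real.sin_neg]
    ring
  have := glue (N := fun t => (((around (VQ u w (mu t))).encard : ℕ∞) : ℝ≥0∞)) hgp1 hgm1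
    (fun t ht ht1 => ?_) (fun t ht ht1 => ?_) hgp3 hgm3 (by norm_num)
  · norm_num at this ⊢
    exact this
  · exact le_trans (by exact_mod_cast hle t) (hgp2 t ht ht1)
  · refine le_trans ?_ (hgm2 t ht ht1)
    have h1 := (hle (-t)).trans (reflect_encard _ _ _)
    rw [e1, e2, show -mu (-t) = mu t by rw [mu_neg, neg_neg]] at h1
    exact_mod_cast h1

end

end Pool.Agent.H811R2.Quad
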