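import Pool.Agent.H811R2.QCanon

/-! The linear chart at a focus. -/

namespace Pool.Agent.H811R2.Quad

section Transfer

variable (A21 A11 α β : ℝ) (p : ℝ × ℝ)

/-- the linear chart at the focus -/
noncomputable def chart (hA : A21 ≠ 0) (hβ : β ≠ 0) : (ℝ × ℝ) ≃ₜ ℂ where
  toFun q := ((A21 * (q.1 - p.1) + (α - A11) * (q.2 - p.2) : ℝ) : ℂ) +
    ((β * (q.2 - p.2) : ℝ) : ℂ) * Complex.I
  invFun z := (p.1 + (z.re - (α - A11) * (z.im / β)) / A21, p.2 + z.im / β)
  left_inv q := by
    ext
    · simp only [Complex.add_re, Complex.mul_re, Complex.ofReal_re, Complex.ofReal_im,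
        Complex.I_re, Complex.I_im, mul_zero, mul_one, sub_self, add_zero, Complex.add_im,
        Complex.mul_im, zero_add]
      field_simp
      ring
    · simp only [Complex.ofReal_im, Complex.I_re, Complex.I_im, mul_zero, mul_one, Complex.add_im,
        Complex.mul_im, zero_add, Complex.ofReal_re, add_zero]
      field_simp
      ring
  right_inv z := by
    apply Complex.ext
    · simp only [Complex.add_re, Complex.mul_re, Complex.ofReal_re, Complex.ofReal_im,
        Complex.I_re, Complex.I_im, mul_zero, mul_one, sub_self, add_zero]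
      field_simp
      ring
    · simp only [Complex.ofReal_im, Complex.I_re, Complex.I_im, mul_zero, mul_one, Complex.add_im,
        Complex.mul_im, zero_add, Complex.ofReal_re, add_zero]
      field_simp
      ring
  continuous_toFun := by fun_prop
  continuous_invFun := by
    have h1 := Complex.continuous_re
    have h2 := Complex.continuous_im
    fun_prop

end Transfer

lemma VQ_cons (u0 u1 u2 w0 w1 w2 m : ℝ) (z : ℂ) :
    VQ ![u0, u1, u2] ![w0, w1, w2] m z = ((m : ℂ) + Complex.I) * z +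
    ((u0 * z.re ^ 2 + u1 * (z.re * z.im) + u2 * z.im ^ 2 : ℝ) +
      (w0 * z.re ^ 2 + w1 * (z.re * z.im) + w2 * z.im ^ 2 : ℝ) * Complex.I) := rfl

lemma algebra_id {A11 A12 A21 A22 α β m a3 a4 a5 b3 b4 b5 x y e f g : ℝ} (hA : A21 ≠ 0)
    (hβ : β ≠ 0) (htr : A11 + A22 = 2 * α) (hdet : A11 * A22 - A12 * A21 = α ^ 2 + β ^ 2)
    (he : e = 1 / A21) (hf : f = -(α - A11) / (β * A21)) (hg : g = 1 / β) {z : ℂ}
    (hre : z.re = A21 * x + (α - A11) * y) (him : z.im = β * y) :
    ((A21 * (1 / β * (A11 * x + A12 * y + (a3 * x ^ 2 + a4 * (x * y) + a5 * y ^ 2) +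
        (β * m - α) * x)) + (α - A11) * (1 / β * (A21 * x + A22 * y +
        (b3 * x ^ 2 + b4 * (x * y) + b5 * y ^ 2) + (β * m - α) * y)) : ℝ) : ℂ) +
      ((β * (1 / β * (A21 * x + A22 * y +
        (b3 * x ^ 2 + b4 * (x * y) + b5 * y ^ 2) + (β * m - α) * y)) : ℝ) : ℂ) * Complex.I =
    VQ ![(A21 * (a3 * e ^ 2) + (α - A11) * (b3 * e ^ 2)) / β,
      (A21 * (2 * a3 * e * f + a4 * e * g) + (α - A11) * (2 * b3 * e * f + b4 * e * g)) / β,
      (A21 * (a3 * f ^ 2 + a4 * f * g + a5 * g ^ 2) +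
        (α - A11) * (b3 * f ^ 2 + b4 * f * g + b5 * g ^ 2)) / β]
    ![b3 * e ^ 2, 2 * b3 * e * f + b4 * e * g, b3 * f ^ 2 + b4 * f * g + b5 * g ^ 2] m z := by
  have hA12 : A12 = (A11 * A22 - α ^ 2 - β ^ 2) / A21 := by
    rw [eq_div_iff hA]; linarith
  have hA22' : A22 = 2 * α - A11 := by linarith
  rw [VQ_cons]
  apply Complex.ext
  · simp only [Complex.add_re, Complex.mul_re, Complex.ofReal_re,
      Complex.ofReal_im, Complex.I_re, Complex.I_im, mul_zero, mul_one, sub_self, add_zero,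
      Complex.add_im, zero_add]
    rw [hre, him, hA12, hA22', hf, he, hg]
    field_simp
    ring
  · simp only [Complex.add_re, Complex.ofReal_re,
      Complex.ofReal_im, Complex.I_re, Complex.I_im, mul_zero, mul_one, add_zero,
      Complex.add_im, Complex.mul_im, zero_add]
    rw [hre, him, hA22', hf, he, hg]
    field_simp
    ring

end Pool.Agent.H811R2.Quad
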