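import Pool.Agent.H811R2.QScalar

/-! Averaged count of the periodic graphs. -/

open Set MeasureTheory Topology Filter
open scoped ENNReal

namespace Pool.Agent.H811R2.Quad

noncomputable section

/-- the trace parameter as a function of `t = μ/√(1+μ²)` -/
def mu (t : ℝ) : ℝ := t / Real.sqrt (1 - t ^ 2)

lemma pair_ineq {t1 t2 w1 w2 l1 l2 c : ℝ} (h1 : 0 ≤ t1) (h12 : t1 ≤ t2)
    (hw1 : 0 < w1) (hw2 : 0 < w2) (e1 : t1 ^ 2 + w1 ^ 2 = 1) (e2 : t2 ^ 2 + w2 ^ 2 = 1)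
    (hc : 0 < c) (hl1 : c * w1 ^ 2 ≤ l1) :
    c * (t2 - t1) ≤ |t1 / w1 * l1 - t2 / w2 * l2| + |l1 - l2| := by
  have hw21 : w2 ≤ w1 := by
    by_contra hcon
    push Not at hcon
    nlinarith
  have ht2 : t2 ≤ 1 := by nlinarith
  have hw2' : w2 ≤ 1 := by nlinarith
  set A := t2 - t1 * (w2 / w1) with hA
  have hq : w2 / w1 ≤ 1 := by rw [div_le_one hw1]; exact hw21
  have hq0 : 0 ≤ w2 / w1 := by positivity
  have hA0 : 0 ≤ A := by
    have : t1 * (w2 / w1) ≤ t1 * 1 := mul_le_mul_of_nonneg_left hq h1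
    linarith
  have k1 : l1 * A = -(w2 * (t1 / w1 * l1 - t2 / w2 * l2)) + t2 * (l1 - l2) := by
    rw [hA]; field_simp; ring
  have k2 : l1 * A ≤ |t1 / w1 * l1 - t2 / w2 * l2| + |l1 - l2| := by
    rw [k1]
    have a1 : -(w2 * (t1 / w1 * l1 - t2 / w2 * l2)) ≤ |t1 / w1 * l1 - t2 / w2 * l2| := by
      have := neg_abs_le (t1 / w1 * l1 - t2 / w2 * l2)
      nlinarith [abs_nonneg (t1 / w1 * l1 - t2 / w2 * l2)]
    have a2 : t2 * (l1 - l2) ≤ |l1 - l2| := by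
      have := le_abs_self (l1 - l2)
      nlinarith [abs_nonneg (l1 - l2)]
    linarith
  have k3 : c * (t2 - t1) ≤ c * w1 ^ 2 * A := by
    have : w1 ^ 2 * A = t2 - t1 * (t1 * t2 + w1 * w2) := by
      rw [hA]
      have : w1 ^ 2 * (t2 - t1 * (w2 / w1)) = w1 ^ 2 * t2 - t1 * w1 * w2 := by
        field_simp
      rw [this]
      have : w1 ^ 2 = 1 - t1 ^ 2 := by linarith
      rw [this]; ring
    rw [mul_assoc, this]
    apply mul_le_mul_of_nonneg_left _ hc.le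
    have : t1 * t2 + w1 * w2 ≤ 1 := by nlinarith [sq_nonneg (t1 - t2), sq_nonneg (w1 - w2)]
    nlinarith
  have k4 : c * w1 ^ 2 * A ≤ l1 * A := mul_le_mul_of_nonneg_right hl1 hA0
  linarith

lemma one_add_mu_sq {t : ℝ} (ht : t ^ 2 < 1) : 1 + mu t ^ 2 = 1 / (1 - t ^ 2) := by
  unfold mu
  rw [div_pow, Real.sq_sqrt (by linarith)]
  have : 1 - t ^ 2 ≠ 0 := by linarith
  field_simp
  ring

lemma mu_inj {t1 t2 : ℝ} (h1 : 0 < t1) (h1' : t1 < 1) (h2 : 0 < t2) (h2' : t2 < 1)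
    (h : mu t1 = mu t2) : t1 = t2 := by
  have e1 := one_add_mu_sq (t := t1) (by nlinarith)
  have e2 := one_add_mu_sq (t := t2) (by nlinarith)
  rw [h, e2] at e1
  have q1 : 0 < 1 - t1 ^ 2 := by nlinarith
  have q2 : 0 < 1 - t2 ^ 2 := by nlinarith
  rw [div_eq_div_iff q2.ne' q1.ne'] at e1
  have : t1 ^ 2 = t2 ^ 2 := by linarith
  exact (pow_left_inj₀ h1.le h2.le (by norm_num)).1 this

lemma GSol.mu_unique {G1 G2 : ℝ → ℝ} {μ1 μ2 : ℝ} {v : ℝ → ℝ} (h1 : GSol G1 G2 μ1 v)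
    (h2 : GSol G1 G2 μ2 v) : μ1 = μ2 := by
  have h := (h1.deriv 0).unique (h2.deriv 0)
  have p1 := h1.pos 0
  have p2 := h1.pos' 0
  rw [div_eq_div_iff p2.ne' p2.ne'] at h
  have h3 := mul_right_cancel₀ p2.ne' h
  have h4 : v 0 * (μ1 * v 0 + G1 0) = v 0 * (μ2 * v 0 + G1 0) := by linarith
  have h5 := mul_left_cancel₀ p1.ne' h4
  have h6 : μ1 * v 0 = μ2 * v 0 := by linarith
  exact mul_right_cancel₀ p1.ne' h6

/-- Averaged count of the periodic graphs for the family `(m G₁, G₂, m μ)`, `μ > 0`. -/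
theorem count_bound' {m : ℝ} (hm : 0 < m) {G1 G2 G2' : ℝ → ℝ} (hG1 : Continuous G1)
    (hG2 : ∀ θ, HasDerivAt G2 (G2' θ) θ) (hG2' : Continuous G2')
    (hper2 : ∀ θ, G2 (θ + 2 * Real.pi) = G2 θ) {s c : ℝ} (hs : 0 < s) (hc : 0 < c)
    (hlow : ∀ μ v, 0 < μ → PSol (fun θ => m * G1 θ) G2 (m * μ) v → c / (1 + μ ^ 2) ≤ ell s v) :
    ∃ g : ℝ → ℝ≥0∞, Measurable g ∧
      (∀ t : ℝ, 0 < t → t < 1 →
        ((({v : ℝ → ℝ | PSol (fun θ => m * G1 θ) G2 (m * mu t) v} :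
          Set (ℝ → ℝ)).encard : ℕ∞) : ℝ≥0∞) ≤ g t) ∧
      ∫⁻ t, g t ≤ ENNReal.ofReal
        (((∫ θ in (0:ℝ)..(2 * Real.pi), (|G2' θ / m| + |G1 θ|)) / s + 2 * Real.pi) / c) := by
  have hG2c : Continuous G2 := continuous_iff_continuousAt.2 fun θ => (hG2 θ).continuousAt
  have hG1m : Continuous fun θ => m * G1 θ := continuous_const.mul hG1
  have hH : Continuous fun θ => G2' θ / m := hG2'.div_const m
  set Tm := (∫ θ in (0:ℝ)..(2 * Real.pi), (|G2' θ / m| + |G1 θ|)) / s + 2 * Real.pi with hTm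
  have hTm0 : 0 ≤ Tm := by
    have : 0 ≤ ∫ θ in (0:ℝ)..(2 * Real.pi), (|G2' θ / m| + |G1 θ|) :=
      intervalIntegral.integral_nonneg (by positivity) fun θ _ => by positivity
    positivity
  have hident : ∀ μ v, PSol (fun θ => m * G1 θ) G2 (m * μ) v →
      μ * ell s v = ∫ θ in (0:ℝ)..(2 * Real.pi),
        ((G2' θ / m) * X s (v θ) - G1 θ * (X s (v θ) * (1 - X s (v θ)))) / s := by
    intro μ v h
    have h1 := h.identity hG1m hG2 hG2' hper2 hs
    have h2 : ∫ θ in (0:ℝ)..(2 * Real.pi),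
        (G2' θ * X s (v θ) - (m * G1 θ) * (X s (v θ) * (1 - X s (v θ)))) / s =
        m * ∫ θ in (0:ℝ)..(2 * Real.pi),
        ((G2' θ / m) * X s (v θ) - G1 θ * (X s (v θ) * (1 - X s (v θ)))) / s := by
      rw [← intervalIntegral.integral_const_mul]
      apply intervalIntegral.integral_congr
      intro θ _
      simp only
      field_simp
    rw [h2, mul_assoc] at h1
    exact mul_left_cancel₀ hm.ne' h1
  let ι := {p : ℝ × (ℝ → ℝ) // 0 < p.1 ∧ p.1 < 1 ∧ PSol (fun θ => m * G1 θ) G2 (m * mu p.1) p.2}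
  let τ : ι → ℝ := fun p => clock G1 (fun θ => G2' θ / m) s p.1.2
  let f : ι → ℝ := fun p => p.1.1
  -- the basic inequality for ordered pairs
  have hpair : ∀ i j : ι, (∀ θ, i.1.2 θ < j.1.2 θ) → c * |f i - f j| ≤ τ j - τ i := by
    rintro ⟨⟨t1, v1⟩, h1a, h1b, h1⟩ ⟨⟨t2, v2⟩, h2a, h2b, h2⟩ hlt
    simp only at h1a h1b h1 h2a h2b h2 hlt
    have hfl := flux_le_clock' hG1 hH hs h1.cont h2.cont h1.pos h2.pos (hident _ _ h1)
      (hident _ _ h2) hlt
    refine le_trans ?_ hfl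
    show c * |t1 - t2| ≤ _
    have q1 : t1 ^ 2 < 1 := by nlinarith
    have q2 : t2 ^ 2 < 1 := by nlinarith
    have r1 : 0 < Real.sqrt (1 - t1 ^ 2) := Real.sqrt_pos.2 (by linarith)
    have r2 : 0 < Real.sqrt (1 - t2 ^ 2) := Real.sqrt_pos.2 (by linarith)
    have s1 : Real.sqrt (1 - t1 ^ 2) ^ 2 = 1 - t1 ^ 2 := Real.sq_sqrt (by linarith)
    have s2 : Real.sqrt (1 - t2 ^ 2) ^ 2 = 1 - t2 ^ 2 := Real.sq_sqrt (by linarith)
    have m1 : 0 < mu t1 := div_pos h1a r1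
    have m2 : 0 < mu t2 := div_pos h2a r2
    have l1 := hlow _ _ m1 h1
    have l2 := hlow _ _ m2 h2
    rw [one_add_mu_sq q1, div_div_eq_mul_div, div_one, ← s1] at l1
    rw [one_add_mu_sq q2, div_div_eq_mul_div, div_one, ← s2] at l2
    rcases le_total t1 t2 with h12 | h12
    · rw [abs_sub_comm, abs_of_nonneg (by linarith)]
      exact pair_ineq (l2 := ell s v2) h1a.le h12 r1 r2 (by rw [s1]; ring) (by rw [s2]; ring) hc l1
    · rw [abs_of_nonneg (by linarith), abs_sub_comm (mu t1 * ell s v1),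
        abs_sub_comm (ell s v1)]
      exact pair_ineq (l2 := ell s v1) h2a.le h12 r2 r1 (by rw [s2]; ring) (by rw [s1]; ring) hc l2
  have hlt : ∀ i j : ι, (∀ θ, i.1.2 θ < j.1.2 θ) → τ i < τ j := by
    intro i j hij
    exact clock_lt hG1 hH hs i.2.2.2.cont j.2.2.2.cont i.2.2.2.pos hij
  have htri : ∀ i j : ι, i.1.2 = j.1.2 ∨ (∀ θ, i.1.2 θ < j.1.2 θ) ∨ (∀ θ, j.1.2 θ < i.1.2 θ) := by
    intro i j
    by_cases hij : i.1.2 = j.1.2
    · exact Or.inl hij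
    · exact Or.inr (PSol.order hG1m hG2c i.2.2.2 j.2.2.2 hij)
  have hfeq : ∀ i j : ι, i.1.2 = j.1.2 → i = j := by
    intro i j hij
    have h1 := i.2.2.2
    have h2 := j.2.2.2
    rw [← hij] at h2
    have h3 := mu_inj i.2.1 i.2.2.1 j.2.1 j.2.2.1
      (mul_left_cancel₀ hm.ne' (h1.toGSol.mu_unique h2.toGSol))
    exact Subtype.ext (Prod.ext h3 hij)
  have hinj : Function.Injective τ := by
    intro i j hij
    rcases htri i j with h | h | h
    · exact hfeq i j h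
    · exact absurd hij (hlt i j h).ne
    · exact absurd hij (hlt j i h).ne'
  have hLip : ∀ i j, |f i - f j| ≤ 1 / c * |τ i - τ j| := by
    intro i j
    rcases htri i j with h | h | h
    · rw [hfeq i j h]; simp
    · have h1 := hpair i j h
      have h2 := hlt i j h
      rw [abs_sub_comm (τ i), abs_of_pos (by linarith : 0 < τ j - τ i), div_mul_eq_mul_div,
        one_mul, le_div_iff₀ hc]
      linarith
    · have h1 := hpair j i h
      have h2 := hlt j i h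
      rw [abs_sub_comm] at h1
      rw [abs_of_pos (by linarith : 0 < τ i - τ j), div_mul_eq_mul_div,
        one_mul, le_div_iff₀ hc]
      linarith
  obtain ⟨g, hg1, hg2, hg3⟩ := indic_lip τ f hinj hTm0 (by positivity : (0:ℝ) ≤ 1 / c)
    (fun i => clock_nonneg hs i.2.2.2.pos)
    (fun i => clock_le hG1 hH hs i.2.2.2.cont i.2.2.2.pos) hLip
  refine ⟨g, hg1, fun t ht ht1 => ?_, ?_⟩
  · refine le_trans ?_ (hg2 t)
    have hinjOn : InjOn (fun i : ι => i.1.2) {i | f i = t} := by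
      intro i _ j _ hij
      exact hfeq i j hij
    have himg : ({v : ℝ → ℝ | PSol (fun θ => m * G1 θ) G2 (m * mu t) v} : Set (ℝ → ℝ)) ⊆
        (fun i : ι => i.1.2) '' {i | f i = t} := by
      intro v hv
      exact ⟨⟨(t, v), ht, ht1, hv⟩, rfl, rfl⟩
    have := (Set.encard_le_encard himg).trans_eq hinjOn.encard_image
    exact_mod_cast this
  · refine hg3.trans (le_of_eq ?_)
    congr 1
    ring

theorem count_bound {G1 G2 G2' : ℝ → ℝ} (hG1 : Continuous G1)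
    (hG2 : ∀ θ, HasDerivAt G2 (G2' θ) θ) (hG2' : Continuous G2')
    (hper2 : ∀ θ, G2 (θ + 2 * Real.pi) = G2 θ) {s c : ℝ} (hs : 0 < s) (hc : 0 < c)
    (hlow : ∀ μ v, 0 < μ → PSol G1 G2 μ v → c / (1 + μ ^ 2) ≤ ell s v) :
    ∃ g : ℝ → ℝ≥0∞, Measurable g ∧
      (∀ t : ℝ, 0 < t → t < 1 →
        ((({v : ℝ → ℝ | PSol G1 G2 (mu t) v} : Set (ℝ → ℝ)).encard : ℕ∞) : ℝ≥0∞) ≤ g t) ∧
      ∫⁻ t, g t ≤ ENNReal.ofReal
        (((∫ θ in (0:ℝ)..(2 * Real.pi), (|G2' θ| + |G1 θ|)) / s + 2 * Real.pi) / c) := by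
  have := count_bound' one_pos hG1 hG2 hG2' hper2 hs hc (by simpa using hlow)
  simpa using this

end

end Pool.Agent.H811R2.Quad
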