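import Pool.Agent.H811R2.QStar

/-! From closed orbits to periodic graphs. -/

open Set Topology Filter
open scoped ENNReal NNReal

namespace Pool.Agent.H811R2.Quad

noncomputable section

variable {G1 G2 : ℝ → ℝ} {μ : ℝ} {ϑ u : ℝ → ℝ}

/-- A global solution with a period `2πk` has period `2π`. -/
lemma GSol.per_of_per {G1 G2 : ℝ → ℝ} (hG1 : Continuous G1) (hG2 : Continuous G2)
    (hper1 : ∀ θ, G1 (θ + 2 * Real.pi) = G1 θ) (hper2 : ∀ θ, G2 (θ + 2 * Real.pi) = G2 θ)
    {μ : ℝ} {v : ℝ → ℝ} (h : GSol G1 G2 μ v) {k : ℕ} (hk : 0 < k)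
    (hv : ∀ θ, v (θ + k * (2 * Real.pi)) = v θ) : PSol G1 G2 μ v := by
  refine ⟨h, ?_⟩
  have h' : GSol G1 G2 μ (fun θ => v (θ + 2 * Real.pi)) := by
    refine ⟨fun θ => h.pos _, fun θ => ?_, fun θ => ?_⟩
    · have := h.pos' (θ + 2 * Real.pi)
      rwa [hper2] at this
    · have := (h.deriv (θ + 2 * Real.pi)).comp_add_const θ (2 * Real.pi)
      rw [hper1, hper2] at this
      exact this
  intro θ
  by_contra hne
  rcases lt_or_gt_of_ne hne with h1 | h1
  · have h2 : ∀ x, v (x + 2 * Real.pi) < v x := by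
      intro x
      obtain ⟨c, hc, hce⟩ := h.same hG1 hG2 h' θ x
      have := mul_neg_of_pos_of_neg hc (sub_neg.2 h1)
      linarith
    have h3 : ∀ n : ℕ, 0 < n → v (θ + n * (2 * Real.pi)) < v θ := by
      intro n hn
      induction n with
      | zero => omega
      | succ n ih =>
        have h4 := h2 (θ + n * (2 * Real.pi))
        rw [show θ + ((n + 1 : ℕ) : ℝ) * (2 * Real.pi) = θ + n * (2 * Real.pi) + 2 * Real.pi by
          push_cast; ring]
        rcases Nat.eq_zero_or_pos n with h5 | h5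
        · subst h5; simpa using h4
        · exact h4.trans (ih h5)
    have := h3 k hk
    rw [hv] at this
    exact lt_irrefl _ this
  · have h2 : ∀ x, v x < v (x + 2 * Real.pi) := by
      intro x
      obtain ⟨c, hc, hce⟩ := h.same hG1 hG2 h' θ x
      have := mul_pos hc (sub_pos.2 h1)
      linarith
    have h3 : ∀ n : ℕ, 0 < n → v θ < v (θ + n * (2 * Real.pi)) := by
      intro n hn
      induction n with
      | zero => omega
      | succ n ih =>
        have h4 := h2 (θ + n * (2 * Real.pi))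
        rw [show θ + ((n + 1 : ℕ) : ℝ) * (2 * Real.pi) = θ + n * (2 * Real.pi) + 2 * Real.pi by
          push_cast; ring]
        rcases Nat.eq_zero_or_pos n with h5 | h5
        · subst h5; simpa using h4
        · exact (ih h5).trans h4
    have := h3 k hk
    rw [hv] at this
    exact lt_irrefl _ this

/-- A lifted closed orbit with positive winding number is a periodic graph. -/
theorem Lft.exists_PSol (hG1 : ContDiff ℝ 1 G1) (hG2 : ContDiff ℝ 1 G2)
    (hper1 : ∀ θ, G1 (θ + 2 * Real.pi) = G1 θ) (hper2 : ∀ θ, G2 (θ + 2 * Real.pi) = G2 θ)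
    (h : Lft G1 G2 μ ϑ u) {T : ℝ} {k : ℕ} (hk : 0 < k) (hT0 : 0 < T)
    (hT : ∀ t, ϑ (t + T) = ϑ t + k * (2 * Real.pi)) (hTu : ∀ t, u (t + T) = u t) :
    ∃ v : ℝ → ℝ, PSol G1 G2 μ v ∧ (∀ t, v (ϑ t) = Real.exp (-u t)) ∧ Function.Surjective ϑ := by
  have hκ : 0 < (k:ℝ) * (2 * Real.pi) := by
    have : (0:ℝ) < k := by exact_mod_cast hk
    positivity
  have hav := h.av_pos hG1 hG2 hκ hT0 hT
  have hmono : StrictMono ϑ := by
    apply strictMono_of_deriv_pos
    intro x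
    rw [(h.dθ x).deriv]
    exact hav x
  have hsurj : Function.Surjective ϑ := by
    intro θ
    obtain ⟨n, hn⟩ := exists_nat_gt (|θ - ϑ 0| / (k * (2 * Real.pi)))
    rw [div_lt_iff₀ hκ] at hn
    have h1 := iter_shift hT n 0
    have h2 := iter_shift_neg hT n 0
    have h3 := abs_le.1 hn.le
    exact mem_range_of_exists_le_of_exists_ge h.cθ ⟨0 - n * T, by linarith [h3.1]⟩
      ⟨0 + n * T, by linarith [h3.2]⟩
  let e := hmono.orderIsoOfSurjective ϑ hsurj
  set σ : ℝ → ℝ := fun θ => e.symm θ with hσ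
  have hσϑ : ∀ t, σ (ϑ t) = t := fun t => e.symm_apply_apply t
  have hϑσ : ∀ θ, ϑ (σ θ) = θ := fun θ => e.apply_symm_apply θ
  have hσc : Continuous σ := e.symm.continuous
  have hσd : ∀ θ, HasDerivAt σ (av G2 ϑ u (σ θ))⁻¹ θ := by
    intro θ
    exact HasDerivAt.of_local_left_inverse hσc.continuousAt (h.dθ (σ θ)) (hav (σ θ)).ne'
      (Eventually.of_forall hϑσ)
  set v : ℝ → ℝ := fun θ => Real.exp (-u (σ θ)) with hv
  have hvpos : ∀ θ, 0 < v θ := fun θ => Real.exp_pos _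
  have hvu : ∀ θ, Real.exp (u (σ θ)) = (v θ)⁻¹ := by
    intro θ; simp only [hv, Real.exp_neg, inv_inv]
  have hav' : ∀ θ, av G2 ϑ u (σ θ) = (v θ + G2 θ) / v θ := by
    intro θ
    unfold av
    rw [hvu, hϑσ]
    have := (hvpos θ).ne'
    field_simp
  have hG : GSol G1 G2 μ v := by
    refine ⟨hvpos, fun θ => ?_, fun θ => ?_⟩
    · have h1 := hav (σ θ)
      rw [hav'] at h1
      exact (div_pos_iff_of_pos_right (hvpos θ)).1 h1
    · have h1 := hav (σ θ)
      rw [hav'] at h1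
      have h2 : 0 < v θ + G2 θ := (div_pos_iff_of_pos_right (hvpos θ)).1 h1
      have hd := ((h.du (σ θ)).comp θ (hσd θ)).neg.exp
      refine hd.congr_deriv ?_
      rw [hav', hϑσ, hvu]
      have e1 := (hvpos θ).ne'
      have e2 := h2.ne'
      have e3 : Real.exp ((-(u ∘ σ)) θ) = v θ := rfl
      rw [e3]
      field_simp
  refine ⟨v, hG.per_of_per hG1.continuous hG2.continuous hper1 hper2 hk ?_, ?_, hsurj⟩
  · intro θ
    have h1 : σ (θ + k * (2 * Real.pi)) = σ θ + T := by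
      rw [← hϑσ θ, ← hT, hσϑ, hσϑ]
    simp only [hv, h1, hTu]
  · intro t
    simp only [hv, hσϑ]

/-- the winding number is nonnegative, and if it vanishes some ray is free -/
lemma Lft.fence (h : Lft G1 G2 μ ϑ u) {w : ℝ} (hw : 0 ≤ G2 w) {t0 : ℝ} (h0 : w ≤ ϑ t0) :
    ∀ t, t0 ≤ t → w ≤ ϑ t := by
  intro t ht
  have := image_le_of_deriv_right_lt_deriv_boundary' (f := fun t => -ϑ t)
    (f' := fun t => -(1 + Real.exp (u t) * G2 (ϑ t))) (a := t0) (b := t)
    (B := fun _ => -w) (B' := fun _ => 0)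
    h.cθ.neg.continuousOn (fun y _ => (h.dθ y).neg.hasDerivWithinAt)
    (by simpa using h0) continuousOn_const
    (fun y _ => (hasDerivAt_const y (-w)).hasDerivWithinAt) ?_ ⟨ht, le_rfl⟩
  · simpa using this
  · intro y _ hy
    have hy1 : ϑ y = w := by simpa using hy
    rw [hy1]
    have := mul_nonneg (Real.exp_pos (u y)).le hw
    linarith

lemma Lft.wind_nonneg (h : Lft G1 G2 μ ϑ u) (hper2 : ∀ (n : ℕ) θ, G2 (θ - n * (2 * Real.pi)) = G2 θ)
    {w : ℝ} (hw : 0 ≤ G2 w) {κ T : ℝ} (hT0 : 0 < T) (hT : ∀ t, ϑ (t + T) = ϑ t + κ) : 0 ≤ κ := by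
  by_contra hκ
  push Not at hκ
  -- a level below `ϑ 0`
  obtain ⟨n, hn⟩ := exists_nat_gt ((w - ϑ 0) / (2 * Real.pi))
  rw [div_lt_iff₀ (by positivity)] at hn
  have h1 : 0 ≤ G2 (w - n * (2 * Real.pi)) := by rw [hper2]; exact hw
  have h2 := h.fence h1 (t0 := 0) (by linarith)
  obtain ⟨m, hm⟩ := exists_nat_gt ((ϑ 0 - (w - n * (2 * Real.pi))) / (-κ))
  rw [div_lt_iff₀ (by linarith)] at hm
  have h3 := h2 (0 + m * T) (by positivity)
  rw [iter_shift hT] at h3
  linarith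

lemma Lft.free_ray (h : Lft G1 G2 μ ϑ u) {w : ℝ} (hw : 0 ≤ G2 w) {T : ℝ} (hT0 : 0 < T)
    (hT : ∀ t, ϑ (t + T) = ϑ t) (t : ℝ) : ϑ t ≠ w := by
  intro h0
  have h1 := h.fence hw (t0 := t) h0.ge
  have h2 : ϑ (t + T) = w := by rw [hT, h0]
  have h3 : 0 < 1 + Real.exp (u (t + T)) * G2 (ϑ (t + T)) := by
    rw [h2]
    have := mul_nonneg (Real.exp_pos (u (t + T))).le hw
    linarith
  have h4 := (pos_right_of_deriv_pos (f := fun t => ϑ t - w) ((h.dθ (t + T)).sub_const w)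
    (by rw [h2, sub_self]) h3).2
  obtain ⟨s, hs1, hs2⟩ := (h4.and (Ioo_mem_nhdsLT (by linarith : t < t + T))).exists
  have := h1 s hs2.1.le
  linarith

end

end Pool.Agent.H811R2.Quad
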