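import Mathlib

/-! Multiplicity form of the one-dimensional area inequality for Lipschitz dependence on a
clock. -/

open Set MeasureTheory Topology Filter
open scoped ENNReal

namespace Pool.Agent.H811R2.Quad

noncomputable section

lemma encard_le_of_finset {α : Type*} {N : Set α} {c : ℝ≥0∞}
    (h : ∀ F : Finset α, (F : Set α) ⊆ N → (F.card : ℝ≥0∞) ≤ c) : (N.encard : ℝ≥0∞) ≤ c := by
  rcases N.finite_or_infinite with hN | hN
  · have h1 := h hN.toFinset (by simp)
    rw [hN.encard_eq_coe_toFinset_card]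
    simpa using h1
  · rw [hN.encard_eq]
    simp only [ENat.toENNReal_top, top_le_iff]
    by_contra hc
    obtain ⟨n, hn⟩ := ENNReal.exists_nat_gt hc
    obtain ⟨F, hF1, hF2⟩ := hN.exists_subset_card_eq n
    have := h F hF1
    rw [hF2] at this
    exact absurd (lt_of_lt_of_le hn this) (lt_irrefl _)

/-- A family `i ↦ (τ i, f i)` of points in `[0,T] × ℝ` with `τ` injective and `f` an
`L`-Lipschitz function of `τ`: the number of points with `f i = β` is at most `g β` with
`∫ g ≤ L T`. -/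
theorem indic_lip {ι : Type*} (τ f : ι → ℝ) (hτ : Function.Injective τ) {T L : ℝ} (hT : 0 ≤ T)
    (hL : 0 ≤ L) (hτ0 : ∀ i, 0 ≤ τ i) (hτT : ∀ i, τ i ≤ T)
    (hf : ∀ i j, |f i - f j| ≤ L * |τ i - τ j|) :
    ∃ g : ℝ → ℝ≥0∞, Measurable g ∧ (∀ β, ((({i | f i = β} : Set ι).encard : ℕ∞) : ℝ≥0∞) ≤ g β) ∧
      ∫⁻ β, g β ≤ ENNReal.ofReal (L * T) := by
  set A : ℕ → ℕ → Set ℝ := fun k j => f '' {i | ⌊τ i * 2 ^ k⌋₊ = j} with hA
  have hvol : ∀ k j, volume (A k j) ≤ ENNReal.ofReal (L / 2 ^ k) := by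
    intro k j
    refine (Real.volume_le_diam _).trans ?_
    refine Metric.ediam_le ?_
    rintro _ ⟨i, hi, rfl⟩ _ ⟨i', hi', rfl⟩
    rw [edist_dist, Real.dist_eq]
    apply ENNReal.ofReal_le_ofReal
    refine (hf i i').trans ?_
    have hi1 : ⌊τ i * 2 ^ k⌋₊ = ⌊τ i' * 2 ^ k⌋₊ := by
      simp only [mem_ofPred_eq] at hi hi'
      rw [hi, hi']
    have h1 : |τ i * 2 ^ k - τ i' * 2 ^ k| ≤ 1 := by
      have a1 := Nat.floor_le (a := τ i * 2 ^ k) (mul_nonneg (hτ0 i) (by positivity))
      have a2 := Nat.lt_floor_add_one (τ i * 2 ^ k)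
      have a3 := Nat.floor_le (a := τ i' * 2 ^ k) (mul_nonneg (hτ0 i') (by positivity))
      have a4 := Nat.lt_floor_add_one (τ i' * 2 ^ k)
      rw [hi1] at a1 a2
      rw [abs_le]
      constructor <;> linarith
    have h2 : (0:ℝ) < 2 ^ k := by positivity
    rw [← sub_mul, abs_mul, abs_of_pos h2] at h1
    have h3 : |τ i - τ i'| ≤ 1 / 2 ^ k := by
      rw [le_div_iff₀ h2]; exact h1
    calc L * |τ i - τ i'| ≤ L * (1 / 2 ^ k) := mul_le_mul_of_nonneg_left h3 hL
      _ = L / 2 ^ k := by ring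
  set m : ℕ → ℕ := fun k => ⌊T * 2 ^ k⌋₊ + 1 with hm
  set G : ℕ → ℝ → ℝ≥0∞ := fun k β =>
    ∑ j ∈ Finset.range (m k), (toMeasurable volume (A k j)).indicator (fun _ => (1:ℝ≥0∞)) β with hG
  have hGm : ∀ k, Measurable (G k) := by
    intro k
    refine Finset.measurable_fun_sum _ fun j _ => ?_
    exact measurable_const.indicator (measurableSet_toMeasurable _ _)
  have hGi : ∀ k, ∫⁻ β, G k β ≤ ENNReal.ofReal (L * T + L / 2 ^ k) := by
    intro k
    have e1 : ∫⁻ β, G k β = ∑ j ∈ Finset.range (m k), volume (A k j) := by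
      simp only [hG]
      rw [lintegral_finsetSum _ (fun j _ =>
        (measurable_const.indicator (measurableSet_toMeasurable _ _)))]
      refine Finset.sum_congr rfl fun j _ => ?_
      rw [lintegral_indicator (measurableSet_toMeasurable _ _)]
      simp
    rw [e1]
    refine (Finset.sum_le_sum fun j _ => hvol k j).trans ?_
    rw [Finset.sum_const, Finset.card_range, nsmul_eq_mul]
    have hmk : ((m k : ℕ) : ℝ≥0∞) = ENNReal.ofReal (m k) := by simp
    rw [hmk, ← ENNReal.ofReal_mul (by positivity)]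
    apply ENNReal.ofReal_le_ofReal
    have h2 : (0:ℝ) < 2 ^ k := by positivity
    have h3 : ((m k : ℕ) : ℝ) ≤ T * 2 ^ k + 1 := by
      simp only [hm]
      push_cast
      have := Nat.floor_le (a := T * 2 ^ k) (by positivity)
      linarith
    calc ((m k : ℕ) : ℝ) * (L / 2 ^ k) ≤ (T * 2 ^ k + 1) * (L / 2 ^ k) :=
          mul_le_mul_of_nonneg_right h3 (by positivity)
      _ = L * T + L / 2 ^ k := by field_simp
  refine ⟨fun β => liminf (fun k => G k β) atTop, Measurable.liminf hGm, ?_, ?_⟩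
  · intro β
    refine encard_le_of_finset fun F hF => ?_
    -- for large `k` the points of `F` lie in distinct dyadic intervals
    have hsep : ∃ k₀ : ℕ, ∀ k ≥ k₀, ∀ x ∈ F, ∀ y ∈ F,
        ⌊τ x * 2 ^ k⌋₊ = ⌊τ y * 2 ^ k⌋₊ → x = y := by
      have hfin : ∀ q ∈ F ×ˢ F, ∃ k₀ : ℕ, ∀ k ≥ k₀,
          ⌊τ q.1 * 2 ^ k⌋₊ = ⌊τ q.2 * 2 ^ k⌋₊ → q.1 = q.2 := by
        rintro ⟨x, y⟩ -
        by_cases hxy : x = y
        · exact ⟨0, fun k _ _ => hxy⟩
        · have hd : 0 < |τ x - τ y| := abs_pos.2 (sub_ne_zero.2 fun h => hxy (hτ h))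
          obtain ⟨k₀, hk₀⟩ := exists_nat_gt (1 / |τ x - τ y|)
          refine ⟨k₀, fun k hk hfl => ?_⟩
          exfalso
          have h1 : |τ x * 2 ^ k - τ y * 2 ^ k| ≤ 1 := by
            simp only at hfl
            have a1 := Nat.floor_le (a := τ x * 2 ^ k) (mul_nonneg (hτ0 x) (by positivity))
            have a2 := Nat.lt_floor_add_one (τ x * 2 ^ k)
            have a3 := Nat.floor_le (a := τ y * 2 ^ k) (mul_nonneg (hτ0 y) (by positivity))
            have a4 := Nat.lt_floor_add_one (τ y * 2 ^ k)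
            rw [hfl] at a1 a2
            rw [abs_le]
            constructor <;> linarith
          rw [← sub_mul, abs_mul, abs_of_pos (by positivity : (0:ℝ) < 2 ^ k)] at h1
          have h2 : (k₀ : ℝ) ≤ 2 ^ k := by
            have h3 : k < 2 ^ k := Nat.lt_two_pow_self
            have h4 : (k₀ : ℝ) ≤ k := by exact_mod_cast hk
            have h5 : (k : ℝ) ≤ 2 ^ k := by exact_mod_cast h3.le
            linarith
          have h6 : 1 < |τ x - τ y| * 2 ^ k := by
            rw [div_lt_iff₀ hd] at hk₀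
            nlinarith
          linarith
      choose! kk hkk using hfin
      refine ⟨(F ×ˢ F).sup kk, fun k hk x hx y hy h => ?_⟩
      have hm : (x, y) ∈ F ×ˢ F := Finset.mk_mem_product hx hy
      exact hkk (x, y) hm k ((Finset.le_sup hm).trans hk) h
    obtain ⟨k₀, hk₀⟩ := hsep
    refine le_liminf_of_le (by isBoundedDefault) ?_
    filter_upwards [eventually_ge_atTop k₀] with k hk
    classical
    have hcard : (F.image fun x : ι => ⌊τ x * 2 ^ k⌋₊).card = F.card :=
      Finset.card_image_of_injOn fun x hx y hy h => hk₀ k hk x hx y hy h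
    calc (F.card : ℝ≥0∞) = ∑ j ∈ F.image (fun x : ι => ⌊τ x * 2 ^ k⌋₊), (1:ℝ≥0∞) := by
          rw [Finset.sum_const, hcard]; simp
      _ ≤ ∑ j ∈ F.image (fun x : ι => ⌊τ x * 2 ^ k⌋₊),
          (toMeasurable volume (A k j)).indicator (fun _ => (1:ℝ≥0∞)) β := by
          refine Finset.sum_le_sum fun j hj => ?_
          obtain ⟨x, hx, rfl⟩ := Finset.mem_image.1 hj
          have h1 : f x = β := hF hx
          have h2 : β ∈ toMeasurable volume (A k ⌊τ x * 2 ^ k⌋₊) := by
            apply subset_toMeasurable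
            exact ⟨x, rfl, h1⟩
          rw [indicator_of_mem h2]
      _ ≤ G k β := by
          refine Finset.sum_le_sum_of_subset_of_nonneg ?_ fun _ _ _ => zero_le
          intro j hj
          obtain ⟨x, hx, rfl⟩ := Finset.mem_image.1 hj
          rw [Finset.mem_range]
          have : ⌊τ x * 2 ^ k⌋₊ ≤ ⌊T * 2 ^ k⌋₊ :=
            Nat.floor_le_floor (mul_le_mul_of_nonneg_right (hτT x) (by positivity))
          simp only [hm]
          omega
  · refine (lintegral_liminf_le hGm).trans ?_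
    have hlim : Tendsto (fun k : ℕ => ENNReal.ofReal (L * T + L / 2 ^ k)) atTop
        (𝓝 (ENNReal.ofReal (L * T + 0))) := by
      apply ENNReal.tendsto_ofReal
      apply Tendsto.const_add
      have : Tendsto (fun k : ℕ => L * (1 / 2 : ℝ) ^ k) atTop (𝓝 (L * 0)) :=
        (tendsto_pow_atTop_nhds_zero_of_lt_one (by norm_num) (by norm_num)).const_mul L
      simpa [div_eq_mul_inv] using this
    rw [add_zero] at hlim
    calc liminf (fun k => ∫⁻ β, G k β) atTop
        ≤ liminf (fun k : ℕ => ENNReal.ofReal (L * T + L / 2 ^ k)) atTop :=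
          liminf_le_liminf (Eventually.of_forall hGi)
      _ = ENNReal.ofReal (L * T) := hlim.liminf_eq

end

end Pool.Agent.H811R2.Quad
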