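import Pool.Agent.H811R2.QQuad

/-! Lifted orbits in logarithmic polar coordinates; closed orbits around the origin have
monotone polar angle. -/

open Set Topology Filter
open scoped ENNReal NNReal

namespace Pool.Agent.H811R2.Quad

noncomputable section

lemma ode_unique {E : Type*} [NormedAddCommGroup E] [NormedSpace ℝ E] [ProperSpace E]
    {F : E → E} (hF : ContDiff ℝ 1 F) {f g : ℝ → E} (hf : ∀ t, HasDerivAt f (F (f t)) t)
    (hg : ∀ t, HasDerivAt g (F (g t)) t) {t0 : ℝ} (h : f t0 = g t0) : f = g := by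
  funext t
  obtain ⟨A, B, Ht, Ht₀⟩ : ∃ A B, t ∈ Set.Ioo A B ∧ t0 ∈ Set.Ioo A B := by
    use (min (-|t|) (-|t0|) - 1), (max |t| |t0| + 1)
    grind
  have hfc : Continuous f := continuous_iff_continuousAt.2 fun t => (hf t).continuousAt
  have hgc : Continuous g := continuous_iff_continuousAt.2 fun t => (hg t).continuousAt
  obtain ⟨R1, hR1⟩ := (isCompact_Icc (a := A) (b := B)).exists_bound_of_continuousOn
    hfc.continuousOn
  obtain ⟨R2, hR2⟩ := (isCompact_Icc (a := A) (b := B)).exists_bound_of_continuousOn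
    hgc.continuousOn
  obtain ⟨K, hK⟩ := LocallyLipschitzOn.exists_lipschitzOnWith_of_compact
    (isCompact_closedBall (0 : E) (max R1 R2)) (hF.locallyLipschitz.locallyLipschitzOn)
  refine ODE_solution_unique_of_mem_Ioo (v := fun _ => F) (s := fun _ => Metric.closedBall 0 (max R1 R2))
    (fun _ _ => hK) Ht₀ (fun t ht => ⟨hf t, ?_⟩) (fun t ht => ⟨hg t, ?_⟩) h Ht
  · rw [mem_closedBall_zero_iff]
    exact (hR1 t ⟨ht.1.le, ht.2.le⟩).trans (le_max_left _ _)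
  · rw [mem_closedBall_zero_iff]
    exact (hR2 t ⟨ht.1.le, ht.2.le⟩).trans (le_max_right _ _)

/-- A lifted orbit: `ϑ' = 1 + e^u G₂(ϑ)`, `u' = μ + e^u G₁(ϑ)`. -/
structure Lft (G1 G2 : ℝ → ℝ) (μ : ℝ) (ϑ u : ℝ → ℝ) : Prop where
  dθ : ∀ t, HasDerivAt ϑ (1 + Real.exp (u t) * G2 (ϑ t)) t
  du : ∀ t, HasDerivAt u (μ + Real.exp (u t) * G1 (ϑ t)) t

variable {G1 G2 : ℝ → ℝ} {μ : ℝ} {ϑ u : ℝ → ℝ}

lemma Lft.cθ (h : Lft G1 G2 μ ϑ u) : Continuous ϑ :=
  continuous_iff_continuousAt.2 fun t => (h.dθ t).continuousAt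

lemma Lft.cu (h : Lft G1 G2 μ ϑ u) : Continuous u :=
  continuous_iff_continuousAt.2 fun t => (h.du t).continuousAt

lemma Lft.unique (hG1 : ContDiff ℝ 1 G1) (hG2 : ContDiff ℝ 1 G2) (h : Lft G1 G2 μ ϑ u)
    {ϑ' u' : ℝ → ℝ} (h' : Lft G1 G2 μ ϑ' u') {t0 : ℝ} (e1 : ϑ t0 = ϑ' t0) (e2 : u t0 = u' t0) :
    ϑ = ϑ' ∧ u = u' := by
  have hF : ContDiff ℝ 1 (fun p : ℝ × ℝ =>
      (1 + Real.exp p.2 * G2 p.1, μ + Real.exp p.2 * G1 p.1)) := by
    have a1 : ContDiff ℝ 1 (fun p : ℝ × ℝ => G2 p.1) := hG2.comp contDiff_fst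
    have a2 : ContDiff ℝ 1 (fun p : ℝ × ℝ => G1 p.1) := hG1.comp contDiff_fst
    fun_prop
  have := ode_unique hF (f := fun t => (ϑ t, u t)) (g := fun t => (ϑ' t, u' t))
    (fun t => (h.dθ t).prodMk (h.du t)) (fun t => (h'.dθ t).prodMk (h'.du t)) (t0 := t0)
    (by simp only [e1, e2])
  constructor
  · funext t; exact congrArg Prod.fst (congrFun this t)
  · funext t; exact congrArg Prod.snd (congrFun this t)

lemma Lft.shift (h : Lft G1 G2 μ ϑ u) (τ : ℝ) :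
    Lft G1 G2 μ (fun t => ϑ (t + τ)) (fun t => u (t + τ)) :=
  ⟨fun t => (h.dθ (t + τ)).comp_add_const t τ, fun t => (h.du (t + τ)).comp_add_const t τ⟩

lemma iter_shift {κ T : ℝ} (hT : ∀ t, ϑ (t + T) = ϑ t + κ) (n : ℕ) (t : ℝ) :
    ϑ (t + n * T) = ϑ t + n * κ := by
  induction n with
  | zero => simp
  | succ n ih =>
    rw [show t + ((n + 1 : ℕ) : ℝ) * T = (t + n * T) + T by push_cast; ring, hT, ih]
    push_cast; ring

lemma iter_shift_neg {κ T : ℝ} (hT : ∀ t, ϑ (t + T) = ϑ t + κ) (n : ℕ) (t : ℝ) :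
    ϑ (t - n * T) = ϑ t - n * κ := by
  have := iter_shift hT n (t - n * T)
  rw [sub_add_cancel] at this
  linarith

/-- no return in the lifted plane -/
lemma Lft.no_return (hG1 : ContDiff ℝ 1 G1) (hG2 : ContDiff ℝ 1 G2) (h : Lft G1 G2 μ ϑ u)
    {κ T : ℝ} (hκ : 0 < κ) (hT : ∀ t, ϑ (t + T) = ϑ t + κ) {t t' : ℝ} (htt : t < t')
    (e1 : ϑ t = ϑ t') (e2 : u t = u t') : False := by
  set τ := t' - t with hτ
  have hτ0 : 0 < τ := by linarith
  have := h.unique hG1 hG2 (h.shift τ) (t0 := t) (by simp only [hτ, add_sub_cancel]; exact e1)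
    (by simp only [hτ, add_sub_cancel]; exact e2)
  have hper : Function.Periodic ϑ τ := fun s => (congrFun this.1 s).symm
  obtain ⟨M, hM⟩ := (isCompact_Icc (a := 0) (b := τ)).exists_bound_of_continuousOn
    h.cθ.continuousOn
  have hb : ∀ s, ‖ϑ s‖ ≤ M := by
    intro s
    obtain ⟨y, hy, hye⟩ := hper.exists_mem_Ico₀ hτ0 s
    rw [hye]
    exact hM y ⟨hy.1, hy.2.le⟩
  obtain ⟨n, hn⟩ := exists_nat_gt ((2 * M) / κ)
  rw [div_lt_iff₀ hκ] at hn
  have h1 := iter_shift hT n 0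
  have h2 := hb (0 + n * T)
  have h3 := hb 0
  rw [h1] at h2
  rw [Real.norm_eq_abs, abs_le] at h2 h3
  linarith [h2.2, h3.1]

/-- the angular speed -/
def av (G2 ϑ u : ℝ → ℝ) (t : ℝ) : ℝ := 1 + Real.exp (u t) * G2 (ϑ t)

lemma Lft.cav (hG2 : Continuous G2) (h : Lft G1 G2 μ ϑ u) : Continuous (av G2 ϑ u) := by
  have := h.cθ
  have := h.cu
  unfold av
  fun_prop

/-- at a zero of the angular speed its derivative is minus the radial speed -/
lemma Lft.dav (hG2 : ContDiff ℝ 1 G2) (h : Lft G1 G2 μ ϑ u) {t : ℝ} (h0 : av G2 ϑ u t = 0) :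
    HasDerivAt (av G2 ϑ u) (-(μ + Real.exp (u t) * G1 (ϑ t))) t := by
  have hd : HasDerivAt G2 (deriv G2 (ϑ t)) (ϑ t) :=
    (hG2.differentiable (by norm_num) (ϑ t)).hasDerivAt
  have h1 := hd.comp t (h.dθ t)
  have h2 := ((h.du t).exp.mul h1).const_add 1
  have h3 : HasDerivAt (av G2 ϑ u) _ t := h2
  refine h3.congr_deriv ?_
  have h4 : 1 + Real.exp (u t) * G2 (ϑ t) = 0 := h0
  have h5 : Real.exp (u t) * G2 (ϑ t) = -1 := by linarith
  rw [h4, mul_zero, mul_zero, add_zero]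
  simp only [Function.comp_apply]
  calc Real.exp (u t) * (μ + Real.exp (u t) * G1 (ϑ t)) * G2 (ϑ t)
      = (Real.exp (u t) * G2 (ϑ t)) * (μ + Real.exp (u t) * G1 (ϑ t)) := by ring
    _ = _ := by rw [h5]; ring

/-- no equilibrium on the orbit -/
lemma Lft.no_eq (hG1 : ContDiff ℝ 1 G1) (hG2 : ContDiff ℝ 1 G2) (h : Lft G1 G2 μ ϑ u)
    {κ T : ℝ} (hκ : 0 < κ) (hT : ∀ t, ϑ (t + T) = ϑ t + κ) {t : ℝ}
    (h0 : av G2 ϑ u t = 0) : μ + Real.exp (u t) * G1 (ϑ t) ≠ 0 := by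
  intro h1
  have hc : Lft G1 G2 μ (fun _ => ϑ t) (fun _ => u t) := by
    refine ⟨fun s => ?_, fun s => ?_⟩
    · have : 1 + Real.exp (u t) * G2 (ϑ t) = 0 := h0
      rw [this]; exact hasDerivAt_const _ _
    · rw [h1]; exact hasDerivAt_const _ _
  have := h.unique hG1 hG2 hc (t0 := t) rfl rfl
  have h2 := congrFun this.1 (t + T)
  rw [hT] at h2
  linarith

lemma pos_right_of_deriv_pos {f : ℝ → ℝ} {f' t : ℝ} (hf : HasDerivAt f f' t) (h0 : f t = 0)
    (hpos : 0 < f') : (∀ᶠ s in 𝓝[>] t, 0 < f s) ∧ (∀ᶠ s in 𝓝[<] t, f s < 0) := by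
  constructor
  · have h1 := hf.hasDerivWithinAt (s := Ioi t)
    rw [hasDerivWithinAt_iff_tendsto_slope' (by simp)] at h1
    filter_upwards [h1.eventually (lt_mem_nhds hpos), self_mem_nhdsWithin] with s hs hs2
    rw [slope_def_field, h0, sub_zero] at hs
    exact (div_pos_iff_of_pos_right (sub_pos.2 hs2)).1 hs
  · have h1 := hf.hasDerivWithinAt (s := Iio t)
    rw [hasDerivWithinAt_iff_tendsto_slope' (by simp)] at h1
    filter_upwards [h1.eventually (lt_mem_nhds hpos), self_mem_nhdsWithin] with s hs hs2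
    rw [slope_def_field, h0, sub_zero] at hs
    have hs3 : s - t < 0 := sub_neg.2 hs2
    by_contra hcon
    push Not at hcon
    have := div_nonpos_of_nonneg_of_nonpos hcon hs3.le
    linarith

lemma neg_right_of_deriv_neg {f : ℝ → ℝ} {f' t : ℝ} (hf : HasDerivAt f f' t) (h0 : f t = 0)
    (hneg : f' < 0) : (∀ᶠ s in 𝓝[>] t, f s < 0) ∧ (∀ᶠ s in 𝓝[<] t, 0 < f s) := by
  have h1 := pos_right_of_deriv_pos (f := fun s => -f s) hf.neg (by simp [h0]) (by linarith)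
  constructor
  · filter_upwards [h1.1] with s hs; linarith
  · filter_upwards [h1.2] with s hs; linarith

end

end Pool.Agent.H811R2.Quad
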