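import Pool.Agent.H811R2.QCount

/-! Lower bounds for the weighted length of a periodic graph. -/

open Set Topology Filter intervalIntegral
open scoped ENNReal

namespace Pool.Agent.H811R2.Quad

noncomputable section

lemma X_nonneg {s v : ℝ} (hs : 0 < s) (hv : 0 ≤ v) : 0 ≤ X s v := by
  unfold X; positivity

lemma X_mono' {s v w : ℝ} (hs : 0 < s) (hv : 0 ≤ v) (hvw : v ≤ w) : X s v ≤ X s w := by
  unfold X
  rw [div_le_div_iff₀ (by linarith) (by linarith)]
  nlinarith

lemma ell_eq {G1 G2 : ℝ → ℝ} {μ : ℝ} {v : ℝ → ℝ} (h : PSol G1 G2 μ v) {s : ℝ} (hs : 0 < s)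
    (x0 : ℝ) : ell s v = ∫ θ in x0..(x0 + Real.pi),
      (X s (v θ) ^ 2 + X s (v (θ + Real.pi)) ^ 2) := by
  have hX := continuous_X hs h.cont h.pos
  have hper : Function.Periodic (fun θ => X s (v θ) ^ 2) (2 * Real.pi) := by
    intro θ; simp only [h.per θ]
  have e1 := hper.intervalIntegral_add_eq 0 x0
  rw [zero_add] at e1
  unfold ell
  rw [e1, integral_add (by apply Continuous.intervalIntegrable; fun_prop)
    (by apply Continuous.intervalIntegrable; exact (hX.comp (continuous_id.add continuous_const)).pow 2),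
    integral_comp_add_right (fun θ => X s (v θ) ^ 2) Real.pi,
    integral_add_adjacent_intervals (by apply Continuous.intervalIntegrable; fun_prop)
      (by apply Continuous.intervalIntegrable; fun_prop)]
  congr 1
  ring

/-- lower bound when `G₂` is large -/
lemma ell_ge_G2 {G1 G2 : ℝ → ℝ} (hG2 : Continuous G2) (hanti : ∀ θ, G2 (θ + Real.pi) = -G2 θ)
    {μ : ℝ} {v : ℝ → ℝ} (h : PSol G1 G2 μ v) {s : ℝ} (hs : 0 < s) :
    ∫ θ in (0:ℝ)..Real.pi, X s |G2 θ| ^ 2 ≤ ell s v := by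
  have hX := continuous_X hs h.cont h.pos
  rw [ell_eq h hs 0, zero_add]
  have hc : Continuous fun θ => X s |G2 θ| := by
    unfold X
    refine Continuous.div (by fun_prop) (by fun_prop) fun θ => ?_
    positivity
  apply integral_mono_on Real.pi_pos.le (by apply Continuous.intervalIntegrable; fun_prop)
    (by apply Continuous.intervalIntegrable
        exact (hX.pow 2).add ((hX.comp (continuous_id.add continuous_const)).pow 2))
  intro θ _
  have p1 := h.pos' θ
  have p2 := h.pos' (θ + Real.pi)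
  rw [hanti] at p2
  have q0 := X_nonneg hs (abs_nonneg (G2 θ))
  rcases le_total 0 (G2 θ) with hg | hg
  · have h1 : X s |G2 θ| ≤ X s (v (θ + Real.pi)) :=
      X_mono' hs (abs_nonneg _) (by rw [abs_of_nonneg hg]; linarith)
    have := pow_le_pow_left₀ q0 h1 2
    nlinarith [sq_nonneg (X s (v θ))]
  · have h1 : X s |G2 θ| ≤ X s (v θ) :=
      X_mono' hs (abs_nonneg _) (by rw [abs_of_nonpos hg]; linarith)
    have := pow_le_pow_left₀ q0 h1 2
    nlinarith [sq_nonneg (X s (v (θ + Real.pi)))]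

lemma D_deriv_ge {v1 v2 f g μ s : ℝ} (hv1 : 0 < v1) (hv2 : 0 < v2) (h1 : 0 < v1 + g)
    (h2 : 0 < v2 - g) (hμ : 0 ≤ μ) (hs : 0 < s) (hf : 2 * s ≤ f) (hv : μ * v2 ≤ s) :
    s ≤ v2 * (f - μ * v2) / (v2 - g) + v1 * (μ * v1 + f) / (v1 + g) := by
  have a1 : 0 < f - μ * v2 := by linarith
  have a2 : 0 < μ * v1 + f := by
    have : 0 ≤ μ * v1 := by positivity
    linarith
  rcases le_total 0 g with hg | hg
  · have h3 : s ≤ v2 * (f - μ * v2) / (v2 - g) := by
      rw [le_div_iff₀ h2]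
      nlinarith
    have h4 : 0 ≤ v1 * (μ * v1 + f) / (v1 + g) := by positivity
    linarith
  · have h3 : s ≤ v1 * (μ * v1 + f) / (v1 + g) := by
      rw [le_div_iff₀ h1]
      have : 0 ≤ μ * v1 := by positivity
      nlinarith
    have h4 : 0 ≤ v2 * (f - μ * v2) / (v2 - g) := by positivity
    linarith

/-- Either the graph or its opposite is far from `v = 0` on most of an interval on which `G₁`
is bounded below. -/
lemma exists_center {G1 G2 : ℝ → ℝ} (hanti1 : ∀ θ, G1 (θ + Real.pi) = -G1 θ)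
    (hanti2 : ∀ θ, G2 (θ + Real.pi) = -G2 θ) {μ : ℝ} (hμ : 0 ≤ μ) {v : ℝ → ℝ}
    (h : PSol G1 G2 μ v) {s : ℝ} (hs : 0 < s) {x0 L : ℝ} (hL : 0 < L)
    (hG1 : ∀ θ ∈ Icc x0 (x0 + L), 2 * s ≤ G1 θ) :
    ∃ y ∈ Icc x0 (x0 + L), ∀ θ ∈ Icc x0 (x0 + L),
      s * |θ - y| ≤ max (v θ) (v (θ + Real.pi)) ∨ s ≤ μ * max (v θ) (v (θ + Real.pi)) := by
  set v2 : ℝ → ℝ := fun θ => v (θ + Real.pi) with hv2
  have hv2d : ∀ θ, HasDerivAt v2 (v2 θ * (G1 θ - μ * v2 θ) / (v2 θ - G2 θ)) θ := by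
    intro θ
    have := (h.deriv (θ + Real.pi)).comp_add_const θ Real.pi
    refine this.congr_deriv ?_
    rw [hanti1, hanti2]
    simp only [hv2]
    congr 1
    ring
  have hv2pos : ∀ θ, 0 < v2 θ := fun θ => h.pos _
  have hv2pos' : ∀ θ, 0 < v2 θ - G2 θ := by
    intro θ
    have := h.pos' (θ + Real.pi)
    rw [hanti2] at this
    simp only [hv2]; linarith
  have hv2c : Continuous v2 := continuous_iff_continuousAt.2 fun θ => (hv2d θ).continuousAt
  -- the barrier
  have hbar : ∀ θ1 ∈ Icc x0 (x0 + L), s ≤ μ * v2 θ1 → ∀ θ ∈ Icc θ1 (x0 + L), s ≤ μ * v2 θ := by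
    intro θ1 hθ1 h1 θ hθ
    have := image_le_of_deriv_right_lt_deriv_boundary' (f := fun θ => -(μ * v2 θ))
      (f' := fun θ => -(μ * (v2 θ * (G1 θ - μ * v2 θ) / (v2 θ - G2 θ)))) (a := θ1) (b := x0 + L)
      (B := fun _ => -s) (B' := fun _ => 0)
      (by apply Continuous.continuousOn; fun_prop)
      (fun y _ => ((hv2d y).const_mul μ).neg.hasDerivWithinAt)
      (by simpa using h1) continuousOn_const
      (fun y _ => (hasDerivAt_const y (-s)).hasDerivWithinAt) ?_ hθ
    · simpa using this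
    · intro y hy hys
      have hy1 : μ * v2 y = s := by simpa using hys
      have hy2 := hG1 y ⟨hθ1.1.trans hy.1, hy.2.le⟩
      have : μ * (v2 y * (G1 y - μ * v2 y) / (v2 y - G2 y)) = s * (G1 y - s) / (v2 y - G2 y) := by
        rw [hy1, ← mul_div_assoc, ← mul_assoc, hy1]
      rw [this, neg_lt_zero]
      apply div_pos (mul_pos hs (by linarith)) (hv2pos' y)
  -- the time `x1`
  obtain ⟨x1, hx1, hx1a, hx1b⟩ : ∃ x1 ∈ Icc x0 (x0 + L), (∀ θ ∈ Ico x0 x1, μ * v2 θ ≤ s) ∧
      (∀ θ ∈ Icc x0 (x0 + L), x1 < θ → s ≤ μ * v2 θ) := by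
    by_cases hex : ∃ θ ∈ Icc x0 (x0 + L), s ≤ μ * v2 θ
    · have hcomp : IsCompact (Icc x0 (x0 + L) ∩ {θ | s ≤ μ * v2 θ}) :=
        isCompact_Icc.inter_right (isClosed_le continuous_const (by fun_prop))
      obtain ⟨x1, hx1, hmin⟩ := hcomp.exists_isLeast (by
        obtain ⟨θ, h1, h2⟩ := hex
        exact ⟨θ, h1, h2⟩)
      refine ⟨x1, hx1.1, ?_, ?_⟩
      · intro θ hθ
        by_contra hcon
        push Not at hcon
        have := hmin ⟨⟨hθ.1, hθ.2.le.trans hx1.1.2⟩, hcon.le⟩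
        linarith [hθ.2]
      · intro θ hθ hlt
        exact hbar x1 hx1.1 hx1.2 θ ⟨hlt.le, hθ.2⟩
    · push Not at hex
      refine ⟨x0 + L, ⟨by linarith, le_rfl⟩, ?_, ?_⟩
      · intro θ hθ
        exact (hex θ ⟨hθ.1, hθ.2.le⟩).le
      · intro θ hθ hlt
        linarith [hθ.2]
  -- the difference
  set D : ℝ → ℝ := fun θ => v2 θ - v θ with hD
  have hDc : Continuous D := hv2c.sub h.cont
  have hDm : MonotoneOn (fun θ => D θ - s * θ) (Icc x0 x1) := by
    apply monotoneOn_of_deriv_nonneg (convex_Icc _ _) (by apply Continuous.continuousOn; fun_prop)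
    · intro θ _
      exact (((hv2d θ).sub (h.deriv θ)).sub
        ((hasDerivAt_id θ).const_mul s)).differentiableAt.differentiableWithinAt
    · intro θ hθ
      rw [interior_Icc] at hθ
      have hd : HasDerivAt (fun θ => D θ - s * θ) _ θ := ((hv2d θ).sub (h.deriv θ)).sub
        ((hasDerivAt_id θ).const_mul s)
      rw [hd.deriv]
      have := D_deriv_ge (h.pos θ) (hv2pos θ) (h.pos' θ) (hv2pos' θ) hμ hs
        (hG1 θ ⟨hθ.1.le, hθ.2.le.trans hx1.2⟩) (hx1a θ ⟨hθ.1.le, hθ.2⟩)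
      have e : -(v θ * (μ * v θ + G1 θ)) / (v θ + G2 θ) =
        -(v θ * (μ * v θ + G1 θ) / (v θ + G2 θ)) := neg_div _ _
      rw [e]
      linarith
  have hmaxD : ∀ θ, |D θ| ≤ max (v θ) (v (θ + Real.pi)) := by
    intro θ
    rw [abs_le]
    have h1 := le_max_left (v θ) (v (θ + Real.pi))
    have h2 := le_max_right (v θ) (v (θ + Real.pi))
    have h3 := h.pos θ
    have h4 := h.pos (θ + Real.pi)
    simp only [hD, hv2]
    constructor <;> linarith
  obtain ⟨y, hy, hyD⟩ : ∃ y ∈ Icc x0 x1, ∀ θ ∈ Icc x0 x1, s * |θ - y| ≤ |D θ| := by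
    rcases le_total 0 (D x0) with h0 | h0
    · refine ⟨x0, ⟨le_rfl, hx1.1⟩, fun θ hθ => ?_⟩
      have := hDm ⟨le_rfl, hx1.1⟩ hθ hθ.1
      simp only at this
      rw [abs_of_nonneg (by linarith [hθ.1] : 0 ≤ θ - x0)]
      refine le_trans ?_ (le_abs_self _)
      linarith
    · rcases le_total (D x1) 0 with h1 | h1
      · refine ⟨x1, ⟨hx1.1, le_rfl⟩, fun θ hθ => ?_⟩
        have := hDm hθ ⟨hx1.1, le_rfl⟩ hθ.2
        simp only at this
        rw [abs_of_nonpos (by linarith [hθ.2] : θ - x1 ≤ 0)]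
        refine le_trans ?_ (neg_le_abs _)
        linarith
      · obtain ⟨y, hy, hy0⟩ := intermediate_value_Icc hx1.1 hDc.continuousOn ⟨h0, h1⟩
        refine ⟨y, hy, fun θ hθ => ?_⟩
        rcases le_total θ y with hθy | hθy
        · have := hDm hθ hy hθy
          simp only at this
          rw [abs_of_nonpos (by linarith : θ - y ≤ 0)]
          refine le_trans ?_ (neg_le_abs _)
          linarith
        · have := hDm hy hθ hθy
          simp only at this
          rw [abs_of_nonneg (by linarith : 0 ≤ θ - y)]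
          refine le_trans ?_ (le_abs_self _)
          linarith
  refine ⟨y, ⟨hy.1, hy.2.trans hx1.2⟩, fun θ hθ => ?_⟩
  rcases le_or_gt θ x1 with hθ1 | hθ1
  · left
    exact (hyD θ ⟨hθ.1, hθ1⟩).trans (hmaxD θ)
  · right
    refine (hx1b θ hθ hθ1).trans ?_
    exact mul_le_mul_of_nonneg_left (le_max_right _ _) hμ

lemma X_ge_of {s M τ μ : ℝ} (hs : 0 < s) (hM : 0 < M) (hτ : 0 ≤ τ) (hμ : 0 ≤ μ)
    (h : s * τ ≤ M ∨ s ≤ μ * M) : τ / (1 + (1 + μ) * τ) ≤ X s M := by
  unfold X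
  rw [div_le_div_iff₀ (by positivity) (by positivity)]
  rcases h with h | h
  · nlinarith [mul_nonneg hμ (mul_nonneg hτ hM.le)]
  · nlinarith [mul_nonneg hμ (mul_nonneg hτ hM.le)]

lemma frac_ge {k τ h : ℝ} (hk : 0 ≤ k) (hτ : 0 ≤ τ) (hh : 0 < h) :
    min τ h / (1 + k * h) ≤ τ / (1 + k * τ) := by
  rw [div_le_div_iff₀ (by positivity) (by positivity)]
  rcases le_total τ h with h1 | h1
  · rw [min_eq_left h1]
    have : k * τ ≤ k * h := mul_le_mul_of_nonneg_left h1 hk
    nlinarith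
  · rw [min_eq_right h1]
    nlinarith

lemma int_min_sq {x0 y h : ℝ} (hh : 0 < h) (hy : y ∈ Icc x0 (x0 + 2 * h)) :
    2 * h ^ 3 / 3 ≤ ∫ θ in x0..(x0 + 2 * h), (min |θ - y| h) ^ 2 := by
  have hc : Continuous fun θ => (min |θ - y| h) ^ 2 := by fun_prop
  rcases le_total (y - x0) h with hp | hp
  · -- split at `y + h`
    have e := integral_add_adjacent_intervals (a := x0) (b := y + h) (c := x0 + 2 * h)
      (f := fun θ => (min |θ - y| h) ^ 2) (μ := MeasureTheory.volume)
      (hc.intervalIntegrable _ _) (hc.intervalIntegrable _ _)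
    have e1 : ∫ θ in x0..(y + h), (θ - y) ^ 2 ≤ ∫ θ in x0..(y + h), (min |θ - y| h) ^ 2 := by
      apply integral_mono_on (by linarith [hy.1]) (by apply Continuous.intervalIntegrable; fun_prop)
        (hc.intervalIntegrable _ _)
      intro θ hθ
      have : |θ - y| ≤ h := by rw [abs_le]; constructor <;> linarith [hθ.1, hθ.2]
      rw [min_eq_left this, sq_abs]
    have e2 : ∫ θ in (y + h)..(x0 + 2 * h), h ^ 2 ≤
        ∫ θ in (y + h)..(x0 + 2 * h), (min |θ - y| h) ^ 2 := by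
      apply integral_mono_on (by linarith) (by apply Continuous.intervalIntegrable; fun_prop)
        (hc.intervalIntegrable _ _)
      intro θ hθ
      have : h ≤ |θ - y| := le_trans (by linarith [hθ.1]) (le_abs_self _)
      rw [min_eq_right this]
    have e3 : ∫ θ in x0..(y + h), (θ - y) ^ 2 = (h ^ 3 + (y - x0) ^ 3) / 3 := by
      rw [integral_comp_sub_right (fun θ => θ ^ 2) y, integral_pow]
      push_cast
      ring
    rw [intervalIntegral.integral_const, smul_eq_mul] at e2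
    rw [e3] at e1
    have hp0 : 0 ≤ y - x0 := by linarith [hy.1]
    set p := y - x0 with hpdef
    have : x0 + 2 * h - (y + h) = h - p := by rw [hpdef]; ring
    rw [this] at e2
    nlinarith [mul_nonneg hp0 (sq_nonneg (h - p)), mul_nonneg hh.le (sq_nonneg (h - p))]
  · -- split at `y - h`
    have e := integral_add_adjacent_intervals (a := x0) (b := y - h) (c := x0 + 2 * h)
      (f := fun θ => (min |θ - y| h) ^ 2) (μ := MeasureTheory.volume)
      (hc.intervalIntegrable _ _) (hc.intervalIntegrable _ _)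
    have e1 : ∫ θ in (y - h)..(x0 + 2 * h), (θ - y) ^ 2 ≤
        ∫ θ in (y - h)..(x0 + 2 * h), (min |θ - y| h) ^ 2 := by
      apply integral_mono_on (by linarith [hy.2]) (by apply Continuous.intervalIntegrable; fun_prop)
        (hc.intervalIntegrable _ _)
      intro θ hθ
      have : |θ - y| ≤ h := by rw [abs_le]; constructor <;> linarith [hθ.1, hθ.2]
      rw [min_eq_left this, sq_abs]
    have e2 : ∫ θ in x0..(y - h), h ^ 2 ≤
        ∫ θ in x0..(y - h), (min |θ - y| h) ^ 2 := by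
      apply integral_mono_on (by linarith) (by apply Continuous.intervalIntegrable; fun_prop)
        (hc.intervalIntegrable _ _)
      intro θ hθ
      have : h ≤ |θ - y| := le_trans (by linarith [hθ.2]) (neg_le_abs _)
      rw [min_eq_right this]
    have e3 : ∫ θ in (y - h)..(x0 + 2 * h), (θ - y) ^ 2 =
        ((x0 + 2 * h - y) ^ 3 + h ^ 3) / 3 := by
      rw [integral_comp_sub_right (fun θ => θ ^ 2) y, integral_pow]
      push_cast
      ring
    rw [intervalIntegral.integral_const, smul_eq_mul] at e2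
    rw [e3] at e1
    have hp0 : 0 ≤ x0 + 2 * h - y := by linarith [hy.2]
    set q := x0 + 2 * h - y with hpdef
    have hqh : q ≤ h := by rw [hpdef]; linarith
    have : y - h - x0 = h - q := by rw [hpdef]; ring
    rw [this] at e2
    nlinarith [mul_nonneg hp0 (sq_nonneg (h - q)), mul_nonneg hh.le (sq_nonneg (h - q))]

/-- Lower bound for the weighted length when `G₁` is bounded below on an interval. -/
theorem ell_ge_G1 {G1 G2 : ℝ → ℝ} (hanti1 : ∀ θ, G1 (θ + Real.pi) = -G1 θ)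
    (hanti2 : ∀ θ, G2 (θ + Real.pi) = -G2 θ) {μ : ℝ} (hμ : 0 ≤ μ) {v : ℝ → ℝ}
    (h : PSol G1 G2 μ v) {s : ℝ} (hs : 0 < s) {x0 l : ℝ} (hl : 0 < l) (hlπ : 2 * l ≤ Real.pi)
    (hG1 : ∀ θ ∈ Icc x0 (x0 + 2 * l), 2 * s ≤ G1 θ) :
    2 * l ^ 3 / 3 / (1 + (1 + μ) * l) ^ 2 ≤ ell s v := by
  have hX := continuous_X hs h.cont h.pos
  have hX2 : Continuous fun θ => X s (v (θ + Real.pi)) :=
    hX.comp (continuous_id.add continuous_const)
  have hFc : Continuous fun θ => X s (v θ) ^ 2 + X s (v (θ + Real.pi)) ^ 2 :=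
    (hX.pow 2).add (hX2.pow 2)
  obtain ⟨y, hy, hyM⟩ := exists_center hanti1 hanti2 hμ h hs (by linarith : 0 < 2 * l) hG1
  have hkey : ∀ θ ∈ Icc x0 (x0 + 2 * l), (min |θ - y| l) ^ 2 / (1 + (1 + μ) * l) ^ 2 ≤
      X s (v θ) ^ 2 + X s (v (θ + Real.pi)) ^ 2 := by
    intro θ hθ
    have hM : 0 < max (v θ) (v (θ + Real.pi)) := lt_max_of_lt_left (h.pos θ)
    have h1 := X_ge_of hs hM (abs_nonneg (θ - y)) hμ (hyM θ hθ)
    have h2 := frac_ge (k := 1 + μ) (by linarith) (abs_nonneg (θ - y)) hl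
    have h3 : 0 ≤ min |θ - y| l / (1 + (1 + μ) * l) := by positivity
    have h4 := pow_le_pow_left₀ h3 (h2.trans h1) 2
    rw [div_pow] at h4
    refine h4.trans ?_
    rcases max_choice (v θ) (v (θ + Real.pi)) with h5 | h5 <;> rw [h5]
    · nlinarith [sq_nonneg (X s (v (θ + Real.pi)))]
    · nlinarith [sq_nonneg (X s (v θ))]
  have i1 : ∫ θ in x0..(x0 + 2 * l), (min |θ - y| l) ^ 2 / (1 + (1 + μ) * l) ^ 2 ≤
      ∫ θ in x0..(x0 + 2 * l), (X s (v θ) ^ 2 + X s (v (θ + Real.pi)) ^ 2) := by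
    apply integral_mono_on (by linarith) (by apply Continuous.intervalIntegrable; fun_prop)
      (hFc.intervalIntegrable _ _) hkey
  have i2 : ∫ θ in x0..(x0 + 2 * l), (X s (v θ) ^ 2 + X s (v (θ + Real.pi)) ^ 2) ≤ ell s v := by
    rw [ell_eq h hs x0]
    have e := integral_add_adjacent_intervals (a := x0) (b := x0 + 2 * l) (c := x0 + Real.pi)
      (f := fun θ => X s (v θ) ^ 2 + X s (v (θ + Real.pi)) ^ 2) (μ := MeasureTheory.volume)
      (hFc.intervalIntegrable _ _) (hFc.intervalIntegrable _ _)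
    have : 0 ≤ ∫ θ in (x0 + 2 * l)..(x0 + Real.pi),
        (X s (v θ) ^ 2 + X s (v (θ + Real.pi)) ^ 2) := by
      apply integral_nonneg (by linarith)
      intro θ _
      positivity
    linarith
  have i3 := int_min_sq hl hy
  rw [integral_div] at i1
  refine le_trans ?_ (i1.trans i2)
  exact div_le_div_of_nonneg_right i3 (by positivity)

end

end Pool.Agent.H811R2.Quad
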