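import Pool.Agent.H811R2.QGraph

/-! Closed orbits in the plane surrounding the origin and periodic graphs. -/

open Set Topology Filter
open scoped ENNReal NNReal

namespace Pool.Agent.H811R2.Quad

noncomputable section

/-- Polar lift of a curve with `γ' = W γ`. -/
lemma exists_lift {γ W : ℝ → ℂ} (hW : Continuous W) (hγ0 : ∀ t, γ t ≠ 0)
    (hγ : ∀ t, HasDerivAt γ (W t * γ t) t) :
    ∃ ϑ ρ : ℝ → ℝ, (∀ t, HasDerivAt ϑ (W t).im t) ∧ (∀ t, HasDerivAt ρ (W t).re t) ∧
      ∀ t, γ t = Complex.exp (ρ t + ϑ t * Complex.I) := by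
  have hre : Continuous fun t => (W t).re := Complex.continuous_re.comp hW
  have him : Continuous fun t => (W t).im := Complex.continuous_im.comp hW
  set L := Complex.log (γ 0) with hL
  set ρ : ℝ → ℝ := fun t => L.re + ∫ s in (0:ℝ)..t, (W s).re with hρ
  set ϑ : ℝ → ℝ := fun t => L.im + ∫ s in (0:ℝ)..t, (W s).im with hϑ
  have dρ : ∀ t, HasDerivAt ρ (W t).re t := fun t =>
    (intervalIntegral.integral_hasDerivAt_right (hre.intervalIntegrable _ _)
      (hre.stronglyMeasurableAtFilter _ _) hre.continuousAt).const_add _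
  have dϑ : ∀ t, HasDerivAt ϑ (W t).im t := fun t =>
    (intervalIntegral.integral_hasDerivAt_right (him.intervalIntegrable _ _)
      (him.stronglyMeasurableAtFilter _ _) him.continuousAt).const_add _
  refine ⟨ϑ, ρ, dϑ, dρ, ?_⟩
  set E : ℝ → ℂ := fun t => (ρ t : ℂ) + ϑ t * Complex.I with hE
  have dE : ∀ t, HasDerivAt E (W t) t := by
    intro t
    refine ((dρ t).ofReal_comp.add ((dϑ t).ofReal_comp.mul_const Complex.I)).congr_deriv ?_
    exact Complex.re_add_im (W t)
  have dz : ∀ t, HasDerivAt (fun t => γ t * Complex.exp (-E t)) 0 t := by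
    intro t
    refine ((hγ t).mul (dE t).neg.cexp).congr_deriv ?_
    ring
  intro t
  have hc := is_const_of_deriv_eq_zero (f := fun t => γ t * Complex.exp (-E t))
    (fun t => (dz t).differentiableAt) (fun t => (dz t).deriv) t 0
  have h0 : γ 0 * Complex.exp (-E 0) = 1 := by
    have : E 0 = L := by
      simp only [hE, hρ, hϑ, intervalIntegral.integral_same, add_zero]
      exact Complex.re_add_im L
    rw [this, Complex.exp_neg, hL, Complex.exp_log (hγ0 0), mul_inv_cancel₀ (hγ0 0)]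
  simp only [h0] at hc
  rw [Complex.exp_neg] at hc
  exact (mul_inv_eq_one₀ (Complex.exp_ne_zero _)).1 hc

/-- the closed orbits of `z' = V z` which surround the origin -/
def around (V : ℂ → ℂ) : Set (Set ℂ) :=
  {C | (∃ γ : ℝ → ℂ, ∃ T : ℝ, 0 < T ∧ (∀ t, HasDerivAt γ (V (γ t)) t) ∧
      (∀ t, γ (t + T) = γ t) ∧ C = Set.range γ) ∧
    (0:ℂ) ∉ C ∧ Bornology.IsBounded (connectedComponentIn Cᶜ 0)}

/-- the curve of a graph -/
def curve (m : ℕ) (v : ℝ → ℝ) : Set ℂ :=
  Set.range fun θ : ℝ => Complex.exp (((-Real.log (v θ) / m : ℝ) : ℂ) + θ * Complex.I)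

theorem around_sub {V : ℂ → ℂ} (hVc : Continuous V) {m : ℕ} (hm : 0 < m) {G1 G2 : ℝ → ℝ}
    (hG1 : ContDiff ℝ 1 G1) (hG2 : ContDiff ℝ 1 G2)
    (hanti1 : ∀ θ, G1 (θ + Real.pi) = -G1 θ) (hanti2 : ∀ θ, G2 (θ + Real.pi) = -G2 θ) {μ : ℝ}
    (hV : ∀ r θ : ℝ, 0 < r → V (r * Complex.exp (θ * Complex.I)) =
      ((μ + r ^ m * G1 θ : ℝ) + (1 + r ^ m * G2 θ : ℝ) * Complex.I) *
        (r * Complex.exp (θ * Complex.I)))
    {C : Set ℂ} (hC : C ∈ around V) :
    ∃ v, PSol (fun θ => m * G1 θ) G2 (m * μ) v ∧ C = curve m v := by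
  obtain ⟨⟨γ, T, hT0, hγ, hγT, rfl⟩, h0C, hbd⟩ := hC
  have hγ0 : ∀ t, γ t ≠ 0 := fun t h => h0C ⟨t, h⟩
  have hγc : Continuous γ := continuous_iff_continuousAt.2 fun t => (hγ t).continuousAt
  have hmR : (0:ℝ) < m := by exact_mod_cast hm
  set W : ℝ → ℂ := fun t => V (γ t) / γ t with hW
  have hWc : Continuous W := (hVc.comp hγc).div hγc hγ0
  obtain ⟨ϑ, ρ, dϑ, dρ, hpol⟩ := exists_lift hWc hγ0 (fun t => by
    simp only [hW]; rw [div_mul_cancel₀ _ (hγ0 t)]; exact hγ t)
  have hpol' : ∀ t, γ t = (Real.exp (ρ t) : ℝ) * Complex.exp (ϑ t * Complex.I) := by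
    intro t
    rw [hpol t, Complex.exp_add, Complex.ofReal_exp]
  have hWt : ∀ t, W t = ((μ + Real.exp (ρ t) ^ m * G1 (ϑ t) : ℝ) : ℂ) +
      ((1 + Real.exp (ρ t) ^ m * G2 (ϑ t) : ℝ) : ℂ) * Complex.I := by
    intro t
    simp only [hW]
    rw [div_eq_iff (hγ0 t), hpol' t]
    exact hV _ _ (Real.exp_pos _)
  have hexpm : ∀ t, Real.exp (ρ t) ^ m = Real.exp (m * ρ t) := fun t => (Real.exp_nat_mul _ _).symm
  set u : ℝ → ℝ := fun t => m * ρ t with hu
  have hL : Lft (fun θ => m * G1 θ) G2 (m * μ) ϑ u := by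
    refine ⟨fun t => ?_, fun t => ?_⟩
    · refine (dϑ t).congr_deriv ?_
      rw [hWt, hexpm]
      simp only [Complex.add_im, Complex.mul_im, Complex.ofReal_re, Complex.I_re, mul_zero,
        Complex.ofReal_im, Complex.I_im, mul_one, zero_add, add_zero, hu]
    · refine ((dρ t).const_mul (m:ℝ)).congr_deriv ?_
      rw [hWt, hexpm]
      simp only [Complex.add_re, Complex.mul_re, Complex.ofReal_re, Complex.I_re, mul_zero,
        Complex.ofReal_im, Complex.I_im, mul_one, sub_self, add_zero]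
      ring
  have hG1m : ContDiff ℝ 1 (fun θ => (m:ℝ) * G1 θ) := contDiff_const.mul hG1
  have hper1 : ∀ θ, G1 (θ + 2 * Real.pi) = G1 θ := fun θ => by
    rw [show θ + 2 * Real.pi = (θ + Real.pi) + Real.pi by ring, hanti1, hanti1, neg_neg]
  have hper2 : ∀ θ, G2 (θ + 2 * Real.pi) = G2 θ := fun θ => by
    rw [show θ + 2 * Real.pi = (θ + Real.pi) + Real.pi by ring, hanti2, hanti2, neg_neg]
  have hpern : ∀ (n : ℕ) θ, G2 (θ - n * (2 * Real.pi)) = G2 θ := by
    intro n θ
    have hp : Function.Periodic G2 (2 * Real.pi) := hper2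
    exact hp.sub_nat_mul_eq n
  have hperz : ∀ (n : ℤ) θ, G2 (θ + n * (2 * Real.pi)) = G2 θ := by
    intro n θ
    have hp : Function.Periodic G2 (2 * Real.pi) := hper2
    exact (hp.int_mul n) θ
  -- periodicity of the lift
  have hnorm : ∀ t, ‖γ t‖ = Real.exp (ρ t) := by
    intro t
    rw [hpol' t, norm_mul, Complex.norm_real, Complex.norm_exp_ofReal_mul_I, mul_one,
      Real.norm_of_nonneg (Real.exp_pos _).le]
  have hρT : ∀ t, ρ (t + T) = ρ t := by
    intro t
    have h1 := hnorm (t + T)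
    rw [hγT, hnorm] at h1
    exact (Real.exp_injective h1).symm
  have huT : ∀ t, u (t + T) = u t := fun t => by simp only [hu, hρT]
  have hWT : ∀ t, W (t + T) = W t := fun t => by simp only [hW, hγT]
  obtain ⟨κ, hκ⟩ : ∃ κ : ℝ, ∀ t, ϑ (t + T) = ϑ t + κ := by
    have hd : ∀ t, HasDerivAt (fun t => ϑ (t + T) - ϑ t) 0 t := by
      intro t
      refine (((dϑ (t + T)).comp_add_const t T).sub (dϑ t)).congr_deriv ?_
      rw [hWT, sub_self]
    refine ⟨ϑ (0 + T) - ϑ 0, fun t => ?_⟩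
    have := is_const_of_deriv_eq_zero (f := fun t => ϑ (t + T) - ϑ t)
      (fun t => (hd t).differentiableAt) (fun t => (hd t).deriv) t 0
    linarith
  obtain ⟨k, hk⟩ : ∃ k : ℤ, κ = k * (2 * Real.pi) := by
    have h1 : Complex.exp (ϑ (0 + T) * Complex.I) = Complex.exp (ϑ 0 * Complex.I) := by
      have e1 := hpol' (0 + T)
      have e2 := hpol' 0
      rw [hγT, hρT, e2] at e1
      exact (mul_left_cancel₀ (by exact_mod_cast (Real.exp_pos (ρ 0)).ne') e1).symm
    rw [Complex.exp_eq_exp_iff_exists_int] at h1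
    obtain ⟨k, hk⟩ := h1
    refine ⟨k, ?_⟩
    have h2 := congrArg Complex.im hk
    simp at h2
    have h3 := hκ 0
    rw [zero_add] at h3
    linarith
  obtain ⟨w, hw⟩ : ∃ w, 0 ≤ G2 w := by
    rcases le_total 0 (G2 0) with h | h
    · exact ⟨0, h⟩
    · refine ⟨Real.pi, ?_⟩
      have := hanti2 0
      rw [zero_add] at this
      rw [this]; linarith
  have hκ0 : 0 ≤ κ := hL.wind_nonneg hpern hw hT0 hκ
  rcases eq_or_lt_of_le hκ0 with hκz | hκpos
  · -- the winding number vanishes: the ray of angle `w` is free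
    exfalso
    have hκ' : ∀ t, ϑ (t + T) = ϑ t := fun t => by rw [hκ, ← hκz, add_zero]
    set ray : Set ℂ := (fun r : ℝ => (r : ℂ) * Complex.exp (w * Complex.I)) '' Ici 0 with hray
    have hsub : ray ⊆ (Set.range γ)ᶜ := by
      rintro z ⟨r, hr, rfl⟩ ⟨t, ht⟩
      have hr0 : (0:ℝ) ≤ r := hr
      have hr1 : 0 < r := by
        rcases eq_or_lt_of_le hr0 with h | h
        · exfalso
          apply hγ0 t
          rw [ht, ← h]; simp
        · exact h
      have h1 := hnorm t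
      have h2 : ‖γ t‖ = r := by
        rw [ht]
        simp only
        rw [norm_mul, Complex.norm_real, Complex.norm_exp_ofReal_mul_I, mul_one,
          Real.norm_of_nonneg hr0]
      have h3 := hpol' t
      rw [ht, ← h1, h2] at h3
      simp only at h3
      have h4 := mul_left_cancel₀ (by exact_mod_cast hr1.ne') h3
      rw [Complex.exp_eq_exp_iff_exists_int] at h4
      obtain ⟨n, hn⟩ := h4
      have h5 := congrArg Complex.im hn
      simp at h5
      have h6 : 0 ≤ G2 (w + (-n : ℤ) * (2 * Real.pi)) := by rw [hperz]; exact hw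
      apply hL.free_ray h6 hT0 hκ' t
      push_cast
      linarith
    have hconn : IsPreconnected ray := by
      apply IsPreconnected.image (convex_Ici 0).isPreconnected
      exact (Complex.continuous_ofReal.mul continuous_const).continuousOn
    have h0ray : (0:ℂ) ∈ ray := ⟨0, self_mem_Ici, by simp⟩
    have hsub2 := hconn.subset_connectedComponentIn h0ray hsub
    have hbd2 := hbd.subset hsub2
    obtain ⟨R, hR⟩ := hbd2.exists_norm_le
    have h7 := hR ((|R| + 1 : ℝ) * Complex.exp (w * Complex.I))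
      ⟨|R| + 1, by simp only [mem_Ici]; positivity, rfl⟩
    rw [norm_mul, Complex.norm_real, Complex.norm_exp_ofReal_mul_I, mul_one,
      Real.norm_of_nonneg (by positivity)] at h7
    have := le_abs_self R
    linarith
  · -- positive winding number
    have hkpos : 0 < k := by
      rw [hk] at hκpos
      by_contra hc
      push Not at hc
      have : (k:ℝ) ≤ 0 := by exact_mod_cast hc
      have := mul_nonpos_of_nonpos_of_nonneg this (by positivity : (0:ℝ) ≤ 2 * Real.pi)
      linarith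
    obtain ⟨k', hk'⟩ := Int.eq_ofNat_of_zero_le hkpos.le
    have hk'0 : 0 < k' := by omega
    have hκ'' : ∀ t, ϑ (t + T) = ϑ t + (k' : ℝ) * (2 * Real.pi) := by
      intro t
      rw [hκ, hk, hk']
      push_cast
      ring
    obtain ⟨v, hv, hvu, hsurj⟩ := hL.exists_PSol hG1m hG2 (fun θ => by simp only [hper1]) hper2
      hk'0 hT0 hκ'' huT
    refine ⟨v, hv, ?_⟩
    have hlog : ∀ t, -Real.log (v (ϑ t)) / m = ρ t := by
      intro t
      rw [hvu, Real.log_exp, neg_neg]
      simp only [hu]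
      field_simp
    ext z
    constructor
    · rintro ⟨t, rfl⟩
      refine ⟨ϑ t, ?_⟩
      simp only
      rw [hlog, ← hpol t]
    · rintro ⟨θ, rfl⟩
      obtain ⟨t, rfl⟩ := hsurj θ
      refine ⟨t, ?_⟩
      simp only
      rw [hlog, ← hpol t]

theorem around_encard_le {V : ℂ → ℂ} (hVc : Continuous V) {m : ℕ} (hm : 0 < m) {G1 G2 : ℝ → ℝ}
    (hG1 : ContDiff ℝ 1 G1) (hG2 : ContDiff ℝ 1 G2)
    (hanti1 : ∀ θ, G1 (θ + Real.pi) = -G1 θ) (hanti2 : ∀ θ, G2 (θ + Real.pi) = -G2 θ) {μ : ℝ}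
    (hV : ∀ r θ : ℝ, 0 < r → V (r * Complex.exp (θ * Complex.I)) =
      ((μ + r ^ m * G1 θ : ℝ) + (1 + r ^ m * G2 θ : ℝ) * Complex.I) *
        (r * Complex.exp (θ * Complex.I))) :
    (around V).encard ≤ ({v | PSol (fun θ => m * G1 θ) G2 (m * μ) v} : Set (ℝ → ℝ)).encard := by
  have hsub : around V ⊆ (curve m) '' {v | PSol (fun θ => m * G1 θ) G2 (m * μ) v} := by
    intro C hC
    obtain ⟨v, hv, hCv⟩ := around_sub hVc hm hG1 hG2 hanti1 hanti2 hV hC
    exact ⟨v, hv, hCv.symm⟩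
  exact (encard_le_encard hsub).trans (encard_image_le _ _)

end

end Pool.Agent.H811R2.Quad
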