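import Pool.Agent.H811R2.QTrig

/-! The averaged count of periodic graphs for quadratic systems. -/

open Set Topology Filter intervalIntegral Real
open scoped ENNReal

namespace Pool.Agent.H811R2.Quad

noncomputable section

lemma ell_pos {G1 G2 : ℝ → ℝ} {μ : ℝ} {v : ℝ → ℝ} (h : PSol G1 G2 μ v) {s : ℝ} (hs : 0 < s) :
    0 < ell s v := by
  have hX := continuous_X hs h.cont h.pos
  unfold ell
  apply intervalIntegral_pos_of_pos
  · apply Continuous.intervalIntegrable; fun_prop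
  · intro θ
    have := X_pos hs (h.pos θ)
    positivity
  · positivity

lemma linear_combination_le (p q x : ℝ) : (p * cos x + q * sin x) ^ 2 ≤ p ^ 2 + q ^ 2 := by
  nlinarith [sq_nonneg (p * sin x - q * cos x), sin_sq_add_cos_sq x,
    mul_self_nonneg (p * sin x - q * cos x), sq_nonneg p, sq_nonneg q]

/-- case 1: the angular part is not small -/
lemma quad_case1 (p1 p2 q1 q2 c1 c2 : ℝ) {E : ℝ} (hE : 0 < E)
    (hE2 : E ^ 2 = q1 ^ 2 + q2 ^ 2 + c1 ^ 2 + c2 ^ 2) (hA : p1 ^ 2 + p2 ^ 2 ≤ 100 * E ^ 2) :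
    ∃ g : ℝ → ℝ≥0∞, Measurable g ∧
      (∀ t : ℝ, 0 < t → t < 1 →
        ((({v : ℝ → ℝ | PSol (trig p1 p2 c1 c2) (trig q1 q2 c2 (-c1)) (mu t) v} :
          Set (ℝ → ℝ)).encard : ℕ∞) : ℝ≥0∞) ≤ g t) ∧
      ∫⁻ t, g t ≤ ENNReal.ofReal 250 := by
  have hs : 0 < 1.2 * E := by positivity
  have hr2 : Real.sqrt 2 ≤ 1.41422 := by
    rw [Real.sqrt_le_left (by norm_num)]; norm_num
  have hr0 : 0 ≤ Real.sqrt 2 := Real.sqrt_nonneg 2
  have hr3 : Real.sqrt 2 ^ 2 = 2 := Real.sq_sqrt (by norm_num)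
  set c : ℝ := π / 2 / (Real.sqrt 2 + 1.2) ^ 2 with hc
  have hcpos : 0 < c := by positivity
  have hG2le : ∀ θ, |trig q1 q2 c2 (-c1) θ| ≤ Real.sqrt 2 * E := by
    intro θ
    rw [← Real.sqrt_sq hE.le, ← Real.sqrt_mul (by norm_num), ← Real.sqrt_sq_eq_abs]
    apply Real.sqrt_le_sqrt
    have h1 := linear_combination_le q1 q2 θ
    have h2 := linear_combination_le c2 (-c1) (3 * θ)
    unfold trig
    rw [hE2]
    nlinarith [sq_nonneg ((q1 * cos θ + q2 * sin θ) - (c2 * cos (3 * θ) + -c1 * sin (3 * θ)))]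
  have hlow : ∀ μ v, 0 < μ → PSol (trig p1 p2 c1 c2) (trig q1 q2 c2 (-c1)) μ v →
      c / (1 + μ ^ 2) ≤ ell (1.2 * E) v := by
    intro μ v _ h
    have h1 := ell_ge_G2 (continuous_trig _ _ _ _) (trig_anti _ _ _ _) h hs
    have h2 : c ≤ ∫ θ in (0:ℝ)..π, X (1.2 * E) |trig q1 q2 c2 (-c1) θ| ^ 2 := by
      have h3 : ∫ θ in (0:ℝ)..π, trig q1 q2 c2 (-c1) θ ^ 2 / ((Real.sqrt 2 + 1.2) * E) ^ 2 ≤
          ∫ θ in (0:ℝ)..π, X (1.2 * E) |trig q1 q2 c2 (-c1) θ| ^ 2 := by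
        have hcc := continuous_trig q1 q2 c2 (-c1)
        have hXc : Continuous fun θ => X (1.2 * E) |trig q1 q2 c2 (-c1) θ| := by
          unfold X
          refine Continuous.div (by fun_prop) (by fun_prop) fun θ => ?_
          positivity
        apply integral_mono_on pi_pos.le (by apply Continuous.intervalIntegrable; fun_prop)
          (by apply Continuous.intervalIntegrable; fun_prop)
        intro θ _
        unfold X
        rw [div_pow, sq_abs]
        apply div_le_div_of_nonneg_left (by positivity) (by positivity)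
        apply pow_le_pow_left₀ (by positivity)
        have := hG2le θ
        nlinarith
      refine le_trans (le_of_eq ?_) h3
      have h4 := integral_trig_sq q1 q2 c2 (-c1) 1
      rw [Nat.cast_one, one_mul] at h4
      rw [integral_div, h4, hc]
      have : q1 ^ 2 + q2 ^ 2 + c2 ^ 2 + (-c1) ^ 2 = E ^ 2 := by rw [hE2]; ring
      rw [this]
      field_simp
    have h3 : c / (1 + μ ^ 2) ≤ c := div_le_self hcpos.le (by nlinarith [sq_nonneg μ])
    linarith
  obtain ⟨g, hg1, hg2, hg3⟩ := count_bound (G1 := trig p1 p2 c1 c2)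
    (G2 := trig q1 q2 c2 (-c1)) (continuous_trig _ _ _ _)
    (fun θ => trig_deriv _ _ _ _ θ) (continuous_trig _ _ _ _) (trig_per _ _ _ _) hs hcpos hlow
  refine ⟨g, hg1, hg2, hg3.trans (ENNReal.ofReal_le_ofReal ?_)⟩
  have i1 := integral_abs_trig_le q2 (-q1) (3 * -c1) (-(3 * c2)) (lam := 2.12 * E)
    (Q := 9 * E ^ 2) (by positivity) (by rw [hE2]; nlinarith [sq_nonneg q1, sq_nonneg q2])
  have i2 := integral_abs_trig_le p1 p2 c1 c2 (lam := 7.1 * E)
    (Q := 101 * E ^ 2) (by positivity)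
    (by rw [hE2] at hA ⊢; nlinarith [sq_nonneg q1, sq_nonneg q2])
  have e1 : (9 * E ^ 2 / (2.12 * E) + 2 * (2.12 * E)) = (9 / 2.12 + 4.24) * E := by
    field_simp; ring
  have e2 : (101 * E ^ 2 / (7.1 * E) + 2 * (7.1 * E)) = (101 / 7.1 + 14.2) * E := by
    field_simp; ring
  rw [e1] at i1
  rw [e2] at i2
  rw [integral_add ((continuous_trig _ _ _ _).abs.intervalIntegrable _ _)
    ((continuous_trig _ _ _ _).abs.intervalIntegrable _ _)]
  rw [div_le_iff₀ hcpos]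
  have i3 : ((∫ θ in (0:ℝ)..(2 * π), |trig q2 (-q1) (3 * -c1) (-(3 * c2)) θ|) +
      ∫ θ in (0:ℝ)..(2 * π), |trig p1 p2 c1 c2 θ|) / (1.2 * E) + 2 * π ≤ 17.38 * π := by
    rw [← le_sub_iff_add_le, div_le_iff₀ hs]
    have hpE : 0 < π * E := by positivity
    have : π / 2 * ((9 / 2.12 + 4.24) * E) + π / 2 * ((101 / 7.1 + 14.2) * E) ≤
        (17.38 * π - 2 * π) * (1.2 * E) := by
      have : π / 2 * ((9 / 2.12 + 4.24) * E) + π / 2 * ((101 / 7.1 + 14.2) * E) =
        ((9 / 2.12 + 4.24) / 2 + (101 / 7.1 + 14.2) / 2) * (π * E) := by ring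
      rw [this]
      have : (17.38 * π - 2 * π) * (1.2 * E) = (15.38 * 1.2) * (π * E) := by ring
      rw [this]
      apply mul_le_mul_of_nonneg_right _ hpE.le
      norm_num
    linarith
  refine i3.trans ?_
  have i4 : π / 2 / 6.84 ≤ c := by
    rw [hc]
    apply div_le_div_of_nonneg_left (by positivity) (by positivity)
    nlinarith
  have := pi_pos
  calc 17.38 * π ≤ 250 * (π / 2 / 6.84) := by
        have : 250 * (π / 2 / 6.84) = (250 / 2 / 6.84) * π := by ring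
        rw [this]
        apply mul_le_mul_of_nonneg_right _ pi_pos.le
        norm_num
    _ ≤ 250 * c := by linarith

/-- case 2: the angular part is small -/
lemma quad_case2 (p1 p2 q1 q2 c1 c2 : ℝ)
    (hA : 100 * (q1 ^ 2 + q2 ^ 2 + c1 ^ 2 + c2 ^ 2) < p1 ^ 2 + p2 ^ 2) :
    ∃ g : ℝ → ℝ≥0∞, Measurable g ∧
      (∀ t : ℝ, 0 < t → t < 1 →
        ((({v : ℝ → ℝ | PSol (trig p1 p2 c1 c2) (trig q1 q2 c2 (-c1)) (mu t) v} :
          Set (ℝ → ℝ)).encard : ℕ∞) : ℝ≥0∞) ≤ g t) ∧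
      ∫⁻ t, g t ≤ ENNReal.ofReal 250 := by
  have hApos : 0 < p1 ^ 2 + p2 ^ 2 := lt_of_le_of_lt (by positivity) hA
  set A := Real.sqrt (p1 ^ 2 + p2 ^ 2) with hAdef
  have hA0 : 0 < A := Real.sqrt_pos.2 hApos
  have hA2 : A ^ 2 = p1 ^ 2 + p2 ^ 2 := Real.sq_sqrt hApos.le
  obtain ⟨xc, hx1, hx2⟩ : ∃ xc : ℝ, p1 = A * cos xc ∧ p2 = A * sin xc := by
    have hn : ‖(⟨p1, p2⟩ : ℂ)‖ = A := by
      rw [Complex.norm_def, Complex.normSq_mk, hAdef]
      congr 1; ring
    refine ⟨Complex.arg ⟨p1, p2⟩, ?_, ?_⟩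
    · have := Complex.norm_mul_cos_arg ⟨p1, p2⟩
      rw [hn] at this
      exact this.symm
    · have := Complex.norm_mul_sin_arg ⟨p1, p2⟩
      rw [hn] at this
      exact this.symm
  have hs : 0 < 0.2175 * A := by positivity
  have hG1 : ∀ θ ∈ Icc (xc - 1) (xc - 1 + 2 * 1), 2 * (0.2175 * A) ≤ trig p1 p2 c1 c2 θ := by
    intro θ hθ
    unfold trig
    have h1 : p1 * cos θ + p2 * sin θ = A * cos (θ - xc) := by
      rw [hx1, hx2, cos_sub]; ring
    have h2 : cos 1 ≤ cos (θ - xc) := by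
      rw [← cos_abs (θ - xc)]
      apply cos_le_cos_of_nonneg_of_le_pi (abs_nonneg _) (by linarith [pi_gt_three])
      rw [abs_le]; constructor <;> linarith [hθ.1, hθ.2]
    have h3 := cos_one_ge
    have h4 := linear_combination_le c1 c2 (3 * θ)
    have h5 : -(A / 10) ≤ c1 * cos (3 * θ) + c2 * sin (3 * θ) := by
      apply neg_le_of_abs_le
      apply abs_le_of_sq_le_sq _ (by positivity)
      rw [div_pow, hA2]
      nlinarith [sq_nonneg q1, sq_nonneg q2]
    nlinarith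
  have hlow : ∀ μ v, 0 < μ → PSol (trig p1 p2 c1 c2) (trig q1 q2 c2 (-c1)) μ v →
      (2 / 15) / (1 + μ ^ 2) ≤ ell (0.2175 * A) v := by
    intro μ v hμ h
    have h1 := ell_ge_G1 (trig_anti _ _ _ _) (trig_anti _ _ _ _) hμ.le h hs
      (by norm_num : (0:ℝ) < 1) (by linarith [pi_gt_three]) hG1
    refine le_trans ?_ h1
    rw [div_le_div_iff₀ (by positivity) (by positivity)]
    nlinarith [sq_nonneg (2 * μ - 1)]
  obtain ⟨g, hg1, hg2, hg3⟩ := count_bound (G1 := trig p1 p2 c1 c2)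
    (G2 := trig q1 q2 c2 (-c1)) (continuous_trig _ _ _ _)
    (fun θ => trig_deriv _ _ _ _ θ) (continuous_trig _ _ _ _) (trig_per _ _ _ _) hs
    (by norm_num : (0:ℝ) < 2 / 15) hlow
  refine ⟨g, hg1, hg2, hg3.trans (ENNReal.ofReal_le_ofReal ?_)⟩
  have i1 := integral_abs_trig_le q2 (-q1) (3 * -c1) (-(3 * c2)) (lam := 0.212 * A)
    (Q := 0.09 * A ^ 2) (by positivity) (by rw [hA2]; nlinarith [sq_nonneg q1, sq_nonneg q2])
  have i2 := integral_abs_trig_le p1 p2 c1 c2 (lam := 0.71 * A)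
    (Q := 1.01 * A ^ 2) (by positivity)
    (by rw [hA2]; nlinarith [sq_nonneg q1, sq_nonneg q2])
  have e1 : (0.09 * A ^ 2 / (0.212 * A) + 2 * (0.212 * A)) = (0.09 / 0.212 + 0.424) * A := by
    field_simp; ring
  have e2 : (1.01 * A ^ 2 / (0.71 * A) + 2 * (0.71 * A)) = (1.01 / 0.71 + 1.42) * A := by
    field_simp; ring
  rw [e1] at i1
  rw [e2] at i2
  rw [integral_add ((continuous_trig _ _ _ _).abs.intervalIntegrable _ _)
    ((continuous_trig _ _ _ _).abs.intervalIntegrable _ _)]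
  rw [div_le_iff₀ (by norm_num)]
  have i3 : ((∫ θ in (0:ℝ)..(2 * π), |trig q2 (-q1) (3 * -c1) (-(3 * c2)) θ|) +
      ∫ θ in (0:ℝ)..(2 * π), |trig p1 p2 c1 c2 θ|) / (0.2175 * A) + 2 * π ≤ 10.486 * π := by
    rw [← le_sub_iff_add_le, div_le_iff₀ hs]
    have hpE : 0 < π * A := by positivity
    have : π / 2 * ((0.09 / 0.212 + 0.424) * A) + π / 2 * ((1.01 / 0.71 + 1.42) * A) ≤
        (10.486 * π - 2 * π) * (0.2175 * A) := by
      have : π / 2 * ((0.09 / 0.212 + 0.424) * A) + π / 2 * ((1.01 / 0.71 + 1.42) * A) =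
        ((0.09 / 0.212 + 0.424) / 2 + (1.01 / 0.71 + 1.42) / 2) * (π * A) := by ring
      rw [this]
      have : (10.486 * π - 2 * π) * (0.2175 * A) = (8.486 * 0.2175) * (π * A) := by ring
      rw [this]
      apply mul_le_mul_of_nonneg_right _ hpE.le
      norm_num
    linarith
  refine i3.trans ?_
  have := pi_lt_d2
  linarith

/-- The averaged count of periodic graphs with positive trace parameter. -/
theorem quad_half (p1 p2 q1 q2 c1 c2 : ℝ) :
    ∃ g : ℝ → ℝ≥0∞, Measurable g ∧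
      (∀ t : ℝ, 0 < t → t < 1 →
        ((({v : ℝ → ℝ | PSol (trig p1 p2 c1 c2) (trig q1 q2 c2 (-c1)) (mu t) v} :
          Set (ℝ → ℝ)).encard : ℕ∞) : ℝ≥0∞) ≤ g t) ∧
      ∫⁻ t, g t ≤ ENNReal.ofReal 250 := by
  rcases lt_or_ge (100 * (q1 ^ 2 + q2 ^ 2 + c1 ^ 2 + c2 ^ 2)) (p1 ^ 2 + p2 ^ 2) with hA | hA
  · exact quad_case2 p1 p2 q1 q2 c1 c2 hA
  · rcases eq_or_lt_of_le (by positivity : 0 ≤ q1 ^ 2 + q2 ^ 2 + c1 ^ 2 + c2 ^ 2) with hE | hE
    · -- everything vanishes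
      have hp1 : p1 = 0 := by nlinarith [sq_nonneg p1, sq_nonneg p2]
      have hp2 : p2 = 0 := by nlinarith [sq_nonneg p1, sq_nonneg p2]
      have hq1 : q1 = 0 := by nlinarith [sq_nonneg q1, sq_nonneg q2, sq_nonneg c1, sq_nonneg c2]
      have hq2 : q2 = 0 := by nlinarith [sq_nonneg q1, sq_nonneg q2, sq_nonneg c1, sq_nonneg c2]
      have hc1 : c1 = 0 := by nlinarith [sq_nonneg q1, sq_nonneg q2, sq_nonneg c1, sq_nonneg c2]
      have hc2 : c2 = 0 := by nlinarith [sq_nonneg q1, sq_nonneg q2, sq_nonneg c1, sq_nonneg c2]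
      subst hp1 hp2 hq1 hq2 hc1 hc2
      refine ⟨fun _ => 0, measurable_const, ?_, by simp⟩
      intro t ht ht1
      have hempty : ({v : ℝ → ℝ | PSol (trig 0 0 0 0) (trig 0 0 0 (-0)) (mu t) v} :
          Set (ℝ → ℝ)) = ∅ := by
        rw [eq_empty_iff_forall_notMem]
        intro v hv
        have h : PSol (trig 0 0 0 0) (trig 0 0 0 (-0)) (mu t) v := hv
        have h1 := h.identity (continuous_trig _ _ _ _) (fun θ => trig_deriv _ _ _ _ θ)
          (continuous_trig _ _ _ _) (trig_per _ _ _ _) one_pos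
        have h2 : ∀ θ, trig 0 0 0 0 θ = 0 := by intro θ; simp [trig]
        simp only [neg_zero, mul_zero, h2, zero_mul, sub_self, zero_div,
          intervalIntegral.integral_zero] at h1
        have h3 := ell_pos h one_pos
        have h4 : 0 < mu t := div_pos ht (Real.sqrt_pos.2 (by nlinarith))
        have := mul_pos h4 h3
        linarith
      rw [hempty]
      simp
    · exact quad_case1 p1 p2 q1 q2 c1 c2 (Real.sqrt_pos.2 hE) (Real.sq_sqrt hE.le)
        (by rw [Real.sq_sqrt hE.le]; exact hA)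

end

end Pool.Agent.H811R2.Quad
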