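import Pool.Agent.H811R2.QIndic

/-! Periodic graphs `v(θ) = 1/r(θ)` of the systems `θ' = 1 + r G₂(θ)`, `r' = r (μ + r G₁(θ))`. -/

open Set Topology Filter intervalIntegral
open scoped ENNReal

namespace Pool.Agent.H811R2.Quad

noncomputable section

/-- `v` is a positive solution, on the whole line, of `(v+G₂) v' = -v (μ v + G₁)` with
`v + G₂ > 0`. -/
structure GSol (G1 G2 : ℝ → ℝ) (μ : ℝ) (v : ℝ → ℝ) : Prop where
  pos : ∀ θ, 0 < v θ
  pos' : ∀ θ, 0 < v θ + G2 θ
  deriv : ∀ θ, HasDerivAt v (-(v θ * (μ * v θ + G1 θ)) / (v θ + G2 θ)) θ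

/-- periodic solutions -/
structure PSol (G1 G2 : ℝ → ℝ) (μ : ℝ) (v : ℝ → ℝ) : Prop extends GSol G1 G2 μ v where
  per : ∀ θ, v (θ + 2 * Real.pi) = v θ

lemma GSol.cont {G1 G2 : ℝ → ℝ} {μ : ℝ} {v : ℝ → ℝ} (h : GSol G1 G2 μ v) : Continuous v :=
  continuous_iff_continuousAt.2 fun θ => (h.deriv θ).continuousAt

/-- A periodic function with negative derivative at each of its zeros has no zeros. -/
lemma no_zero_of_neg_deriv {δ : ℝ → ℝ} {δ' : ℝ → ℝ} (hδ : ∀ x, HasDerivAt δ (δ' x) x)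
    {p : ℝ} (hp : 0 < p) (hper : ∀ x, δ (x + p) = δ x)
    (hneg : ∀ x, δ x = 0 → δ' x < 0) (x : ℝ) : δ x ≠ 0 := by
  intro h0
  have h1 : ∀ y ∈ Icc x (x + p), δ y ≤ 0 := by
    intro y hy
    have := image_le_of_deriv_right_lt_deriv_boundary' (f := δ) (f' := δ') (a := x) (b := x + p)
      (B := fun _ => 0) (B' := fun _ => 0)
      (fun y _ => (hδ y).continuousAt.continuousWithinAt)
      (fun y _ => (hδ y).hasDerivWithinAt) h0.le continuousOn_const
      (fun y _ => (hasDerivAt_const y (0:ℝ)).hasDerivWithinAt)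
      (fun y _ hy => hneg y hy)
    exact this hy
  have h2 : δ (x + p) = 0 := by rw [hper, h0]
  have h3 := hneg _ h2
  have h4 : 0 ≤ δ' (x + p) := by
    have h5 := (hδ (x + p)).hasDerivWithinAt (s := Iio (x + p))
    rw [hasDerivWithinAt_iff_tendsto_slope' (by simp)] at h5
    refine ge_of_tendsto h5 ?_
    have h6 : ∀ᶠ y in 𝓝[<] (x + p), y ∈ Ioo x (x + p) :=
      Ioo_mem_nhdsLT (by linarith)
    filter_upwards [h6] with y hy
    rw [slope_def_field, h2]
    have h7 := h1 y ⟨hy.1.le, hy.2.le⟩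
    exact div_nonneg_of_nonpos (by linarith) (by linarith [hy.2])
  linarith

/-- Two solutions for the same parameter are ordered or equal. -/
lemma GSol.same {G1 G2 : ℝ → ℝ} (hG1 : Continuous G1) (hG2 : Continuous G2) {μ : ℝ}
    {v1 v2 : ℝ → ℝ} (h1 : GSol G1 G2 μ v1) (h2 : GSol G1 G2 μ v2) (a b : ℝ) :
    ∃ c : ℝ, 0 < c ∧ v2 b - v1 b = c * (v2 a - v1 a) := by
  set Φ : ℝ → ℝ := fun θ => -(μ * (v1 θ * v2 θ) + μ * G2 θ * (v1 θ + v2 θ) + G1 θ * G2 θ) /
    ((v1 θ + G2 θ) * (v2 θ + G2 θ)) with hΦ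
  have hΦc : Continuous Φ := by
    have := h1.cont
    have := h2.cont
    refine Continuous.div (by fun_prop) (by fun_prop) fun θ => ?_
    exact (mul_pos (h1.pos' θ) (h2.pos' θ)).ne'
  have hd : ∀ θ, HasDerivAt (fun θ => v2 θ - v1 θ) (Φ θ * (v2 θ - v1 θ)) θ := by
    intro θ
    refine ((h2.deriv θ).sub (h1.deriv θ)).congr_deriv ?_
    have e1 := (h1.pos' θ).ne'
    have e2 := (h2.pos' θ).ne'
    simp only [hΦ]
    field_simp
    ring
  set I : ℝ → ℝ := fun θ => ∫ t in a..θ, Φ t with hI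
  have hId : ∀ θ, HasDerivAt I (Φ θ) θ := fun θ =>
    intervalIntegral.integral_hasDerivAt_right (hΦc.intervalIntegrable _ _)
      (hΦc.stronglyMeasurableAtFilter _ _) hΦc.continuousAt
  have hz : ∀ θ, HasDerivAt (fun θ => (v2 θ - v1 θ) * Real.exp (-I θ)) 0 θ := by
    intro θ
    refine ((hd θ).mul (hId θ).neg.exp).congr_deriv ?_
    ring
  have hconst := is_const_of_deriv_eq_zero (f := fun θ => (v2 θ - v1 θ) * Real.exp (-I θ))
    (fun θ => (hz θ).differentiableAt) (fun θ => (hz θ).deriv) b a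
  refine ⟨Real.exp (I b), Real.exp_pos _, ?_⟩
  have hIa : I a = 0 := by simp [hI]
  simp only [hIa, neg_zero, Real.exp_zero, mul_one] at hconst
  rw [← hconst, mul_comm, mul_assoc, ← Real.exp_add]
  simp

lemma PSol.order {G1 G2 : ℝ → ℝ} (hG1 : Continuous G1) (hG2 : Continuous G2) {μ1 μ2 : ℝ}
    {v1 v2 : ℝ → ℝ} (h1 : PSol G1 G2 μ1 v1) (h2 : PSol G1 G2 μ2 v2) (hne : v1 ≠ v2) :
    (∀ θ, v1 θ < v2 θ) ∨ (∀ θ, v2 θ < v1 θ) := by
  have hnz : ∀ θ, v2 θ - v1 θ ≠ 0 := by
    rcases lt_trichotomy μ1 μ2 with hμ | hμ | hμ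
    · refine no_zero_of_neg_deriv (fun θ => (h2.deriv θ).sub (h1.deriv θ))
        (p := 2 * Real.pi) (by positivity) (fun θ => by rw [h1.per, h2.per]) ?_
      intro θ hθ
      have e : v2 θ = v1 θ := by linarith
      rw [e, ← sub_div]
      have := h1.pos θ
      have := h1.pos' θ
      apply div_neg_of_neg_of_pos _ (h1.pos' θ)
      have : 0 < (μ2 - μ1) * (v1 θ * v1 θ) := by
        have : 0 < μ2 - μ1 := by linarith
        positivity
      nlinarith
    · subst hμ
      intro θ h0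
      apply hne
      funext x
      obtain ⟨c, -, hc⟩ := h1.toGSol.same hG1 hG2 h2.toGSol θ x
      rw [h0, mul_zero] at hc
      linarith
    · have := no_zero_of_neg_deriv (δ := fun θ => v1 θ - v2 θ)
        (fun θ => (h1.deriv θ).sub (h2.deriv θ))
        (p := 2 * Real.pi) (by positivity) (fun θ => by rw [h1.per, h2.per]) ?_
      · intro θ hθ
        exact this θ (by linarith)
      intro θ hθ
      have e : v1 θ = v2 θ := by linarith
      rw [e, ← sub_div]
      have := h2.pos θ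
      have := h2.pos' θ
      apply div_neg_of_neg_of_pos _ (h2.pos' θ)
      have : 0 < (μ1 - μ2) * (v2 θ * v2 θ) := by
        have : 0 < μ1 - μ2 := by linarith
        positivity
      nlinarith
  have hc : Continuous fun θ => v2 θ - v1 θ := h2.cont.sub h1.cont
  rcases lt_or_gt_of_ne (hnz 0) with h0 | h0
  · right
    intro θ
    by_contra hcon
    have h3 : 0 ≤ v2 θ - v1 θ := by linarith
    obtain ⟨y, hy⟩ := mem_range_of_exists_le_of_exists_ge hc ⟨0, h0.le⟩ ⟨θ, h3⟩
    exact hnz y hy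
  · left
    intro θ
    by_contra hcon
    have h3 : v2 θ - v1 θ ≤ 0 := by linarith
    obtain ⟨y, hy⟩ := mem_range_of_exists_le_of_exists_ge hc ⟨θ, h3⟩ ⟨0, h0.le⟩
    exact hnz y hy

/-- the compactified variable `x = v/(v+s) = 1/(1+s r)` -/
def X (s v : ℝ) : ℝ := v / (v + s)

lemma X_pos {s v : ℝ} (hs : 0 < s) (hv : 0 < v) : 0 < X s v := by
  unfold X; positivity

lemma X_lt_one {s v : ℝ} (hs : 0 < s) (hv : 0 < v) : X s v < 1 := by
  unfold X; rw [div_lt_one (by positivity)]; linarith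

lemma X_mono {s v w : ℝ} (hs : 0 < s) (hv : 0 < v) (hvw : v ≤ w) : X s v ≤ X s w := by
  unfold X
  rw [div_le_div_iff₀ (by linarith) (by linarith)]
  nlinarith

lemma X_strictMono {s v w : ℝ} (hs : 0 < s) (hv : 0 < v) (hvw : v < w) : X s v < X s w := by
  unfold X
  rw [div_lt_div_iff₀ (by linarith) (by linarith)]
  nlinarith

/-- the weighted length -/
def ell (s : ℝ) (v : ℝ → ℝ) : ℝ := ∫ θ in (0:ℝ)..(2 * Real.pi), X s (v θ) ^ 2

/-- the clock -/
def clock (G1 G2' : ℝ → ℝ) (s : ℝ) (v : ℝ → ℝ) : ℝ :=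
  ∫ θ in (0:ℝ)..(2 * Real.pi), ((|G2' θ| + |G1 θ|) / s * X s (v θ) + X s (v θ) ^ 2)

lemma continuous_X {s : ℝ} (hs : 0 < s) {v : ℝ → ℝ} (hv : Continuous v) (hpos : ∀ θ, 0 < v θ) :
    Continuous fun θ => X s (v θ) := by
  unfold X
  refine Continuous.div (by fun_prop) (by fun_prop) fun θ => ?_
  have := hpos θ
  positivity

/-- The flux identity. -/
lemma PSol.identity {G1 G2 G2' : ℝ → ℝ} (hG1 : Continuous G1)
    (hG2 : ∀ θ, HasDerivAt G2 (G2' θ) θ) (hG2' : Continuous G2')
    (hper2 : ∀ θ, G2 (θ + 2 * Real.pi) = G2 θ) {μ : ℝ} {v : ℝ → ℝ} (h : PSol G1 G2 μ v)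
    {s : ℝ} (hs : 0 < s) :
    μ * ell s v = ∫ θ in (0:ℝ)..(2 * Real.pi),
      (G2' θ * X s (v θ) - G1 θ * (X s (v θ) * (1 - X s (v θ)))) / s := by
  have hX := continuous_X hs h.cont h.pos
  have hG2c : Continuous G2 := continuous_iff_continuousAt.2 fun θ => (hG2 θ).continuousAt
  set W : ℝ → ℝ := fun θ => Real.log (v θ + s) + s / (v θ + s) + G2 θ * (v θ / (v θ + s)) / s
    with hW
  have hWd : ∀ θ, HasDerivAt W
      ((G2' θ * X s (v θ) - G1 θ * (X s (v θ) * (1 - X s (v θ)))) / s - μ * X s (v θ) ^ 2) θ := by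
    intro θ
    have hv := h.deriv θ
    have p1 := h.pos θ
    have p2 := (h.pos' θ).ne'
    have p3 : v θ + s ≠ 0 := by positivity
    have d1 : HasDerivAt (fun θ => v θ + s)
        (-(v θ * (μ * v θ + G1 θ)) / (v θ + G2 θ)) θ := hv.add_const s
    have d2 := d1.log p3
    have d3 := (hasDerivAt_const θ s).div d1 p3
    have d4 := ((hG2 θ).mul (hv.div d1 p3)).div_const s
    refine ((d2.add d3).add d4).congr_deriv ?_
    unfold X
    simp only [Pi.div_apply]
    field_simp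
    ring
  have hint := integral_eq_sub_of_hasDerivAt (a := 0) (b := 2 * Real.pi)
    (fun θ _ => hWd θ) (by
      apply Continuous.intervalIntegrable
      fun_prop)
  have hW0 : W (2 * Real.pi) - W 0 = 0 := by
    have e1 := h.per 0
    have e2 := hper2 0
    rw [zero_add] at e1 e2
    simp only [hW, e1, e2, sub_self]
  rw [hW0, integral_sub (by apply Continuous.intervalIntegrable; fun_prop)
    (by apply Continuous.intervalIntegrable; fun_prop), integral_const_mul] at hint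
  unfold ell
  linarith

lemma clock_nonneg {G1 G2' : ℝ → ℝ} {s : ℝ} (hs : 0 < s) {v : ℝ → ℝ} (hpos : ∀ θ, 0 < v θ) :
    0 ≤ clock G1 G2' s v := by
  unfold clock
  apply integral_nonneg (by positivity)
  intro θ _
  have := X_pos hs (hpos θ)
  positivity

lemma clock_le {G1 G2' : ℝ → ℝ} (hG1 : Continuous G1) (hG2' : Continuous G2') {s : ℝ}
    (hs : 0 < s) {v : ℝ → ℝ} (hv : Continuous v) (hpos : ∀ θ, 0 < v θ) :
    clock G1 G2' s v ≤ (∫ θ in (0:ℝ)..(2 * Real.pi), (|G2' θ| + |G1 θ|)) / s +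
      2 * Real.pi := by
  have hX := continuous_X hs hv hpos
  unfold clock
  have : (∫ θ in (0:ℝ)..(2 * Real.pi), (|G2' θ| + |G1 θ|)) / s + 2 * Real.pi =
      ∫ θ in (0:ℝ)..(2 * Real.pi), ((|G2' θ| + |G1 θ|) / s + 1) := by
    rw [integral_add (f := fun θ => (|G2' θ| + |G1 θ|) / s) (g := fun _ => (1:ℝ))
      (by apply Continuous.intervalIntegrable; fun_prop)
      (by apply Continuous.intervalIntegrable; fun_prop), integral_div]
    simp
  rw [this]
  apply integral_mono_on (by positivity) (by apply Continuous.intervalIntegrable; fun_prop)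
    (by apply Continuous.intervalIntegrable; fun_prop)
  intro θ _
  have h1 := X_pos hs (hpos θ)
  have h2 := X_lt_one hs (hpos θ)
  have h3 : 0 ≤ (|G2' θ| + |G1 θ|) / s := by positivity
  nlinarith

/-- The variation of the flux between two nested graphs is bounded by the increase of the
clock. -/
lemma flux_le_clock' {G1 H : ℝ → ℝ} (hG1 : Continuous G1) (hH : Continuous H)
    {μ1 μ2 : ℝ} {v1 v2 : ℝ → ℝ} {s : ℝ} (hs : 0 < s)
    (c1 : Continuous v1) (c2 : Continuous v2) (p1 : ∀ θ, 0 < v1 θ) (p2 : ∀ θ, 0 < v2 θ)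
    (i1 : μ1 * ell s v1 = ∫ θ in (0:ℝ)..(2 * Real.pi),
      (H θ * X s (v1 θ) - G1 θ * (X s (v1 θ) * (1 - X s (v1 θ)))) / s)
    (i2 : μ2 * ell s v2 = ∫ θ in (0:ℝ)..(2 * Real.pi),
      (H θ * X s (v2 θ) - G1 θ * (X s (v2 θ) * (1 - X s (v2 θ)))) / s)
    (hle : ∀ θ, v1 θ < v2 θ) :
    |μ1 * ell s v1 - μ2 * ell s v2| + |ell s v1 - ell s v2| ≤
      clock G1 H s v2 - clock G1 H s v1 := by
  have hX1 := continuous_X hs c1 p1
  have hX2 := continuous_X hs c2 p2
  have hXle : ∀ θ, X s (v1 θ) ≤ X s (v2 θ) := fun θ => X_mono hs (p1 θ) (hle θ).le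
  have e1 : |μ1 * ell s v1 - μ2 * ell s v2| ≤
      ∫ θ in (0:ℝ)..(2 * Real.pi), (|H θ| + |G1 θ|) / s * (X s (v2 θ) - X s (v1 θ)) := by
    rw [i1, i2,
      ← integral_sub (by apply Continuous.intervalIntegrable; fun_prop)
        (by apply Continuous.intervalIntegrable; fun_prop)]
    refine (abs_integral_le_integral_abs (by positivity)).trans ?_
    apply integral_mono_on (by positivity) (by apply Continuous.intervalIntegrable; fun_prop)
      (by apply Continuous.intervalIntegrable; fun_prop)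
    intro θ _
    have a1 := X_pos hs (p1 θ)
    have a2 := X_lt_one hs (p1 θ)
    have a3 := X_pos hs (p2 θ)
    have a4 := X_lt_one hs (p2 θ)
    have a5 := hXle θ
    set x1 := X s (v1 θ)
    set x2 := X s (v2 θ)
    have : (H θ * x1 - G1 θ * (x1 * (1 - x1))) / s - (H θ * x2 - G1 θ * (x2 * (1 - x2))) / s =
        (-H θ + G1 θ * (1 - x1 - x2)) / s * (x2 - x1) := by ring
    rw [this, abs_mul, abs_div, abs_of_pos hs, abs_of_nonneg (by linarith : 0 ≤ x2 - x1)]
    apply mul_le_mul_of_nonneg_right _ (by linarith)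
    apply div_le_div_of_nonneg_right _ hs.le
    refine (abs_add_le _ _).trans ?_
    rw [abs_neg, abs_mul]
    have : |1 - x1 - x2| ≤ 1 := by rw [abs_le]; constructor <;> linarith
    nlinarith [abs_nonneg (G1 θ)]
  have e2 : |ell s v1 - ell s v2| ≤
      ∫ θ in (0:ℝ)..(2 * Real.pi), (X s (v2 θ) ^ 2 - X s (v1 θ) ^ 2) := by
    unfold ell
    rw [← integral_sub (by apply Continuous.intervalIntegrable; fun_prop)
        (by apply Continuous.intervalIntegrable; fun_prop)]
    refine (abs_integral_le_integral_abs (by positivity)).trans (le_of_eq ?_)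
    apply integral_congr
    intro θ _
    have a1 := X_pos hs (p1 θ)
    have a5 := hXle θ
    simp only
    rw [abs_of_nonpos (by nlinarith)]
    ring
  refine (add_le_add e1 e2).trans (le_of_eq ?_)
  unfold clock
  rw [← integral_sub (by apply Continuous.intervalIntegrable; fun_prop)
        (by apply Continuous.intervalIntegrable; fun_prop),
    ← integral_add (by apply Continuous.intervalIntegrable; fun_prop)
        (by apply Continuous.intervalIntegrable; fun_prop)]
  apply integral_congr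
  intro θ _
  simp only
  ring

lemma clock_lt {G1 G2' : ℝ → ℝ} (hG1 : Continuous G1) (hG2' : Continuous G2') {s : ℝ}
    (hs : 0 < s) {v1 v2 : ℝ → ℝ} (hv1 : Continuous v1) (hv2 : Continuous v2)
    (hpos : ∀ θ, 0 < v1 θ) (hle : ∀ θ, v1 θ < v2 θ) :
    clock G1 G2' s v1 < clock G1 G2' s v2 := by
  have hpos2 : ∀ θ, 0 < v2 θ := fun θ => (hpos θ).trans (hle θ)
  have hX1 := continuous_X hs hv1 hpos
  have hX2 := continuous_X hs hv2 hpos2
  unfold clock
  apply integral_lt_integral_of_continuousOn_of_le_of_exists_lt (by positivity)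
    (by apply Continuous.continuousOn; fun_prop) (by apply Continuous.continuousOn; fun_prop)
  · intro θ _
    have a1 := X_mono hs (hpos θ) (hle θ).le
    have a2 := X_pos hs (hpos θ)
    have a3 : 0 ≤ (|G2' θ| + |G1 θ|) / s := by positivity
    have a4 := mul_le_mul_of_nonneg_left a1 a3
    nlinarith
  · refine ⟨0, ⟨le_rfl, by positivity⟩, ?_⟩
    have a1 := X_strictMono hs (hpos 0) (hle 0)
    have a2 := X_pos hs (hpos 0)
    have a3 : 0 ≤ (|G2' 0| + |G1 0|) / s := by positivity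
    have a4 := mul_le_mul_of_nonneg_left a1.le a3
    nlinarith

end

end Pool.Agent.H811R2.Quad
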