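import Pool.Agent.H811R2.QLift

/-! Closed orbits around the origin have monotone polar angle: the trapping argument. -/

open Set Topology Filter
open scoped ENNReal NNReal

namespace Pool.Agent.H811R2.Quad

noncomputable section

variable {G1 G2 : ℝ → ℝ} {μ : ℝ} {ϑ u : ℝ → ℝ}

lemma le_zero_of_Ioo {A : ℝ → ℝ} (hA : Continuous A) {a b : ℝ} (hab : a < b)
    (h : ∀ t ∈ Ioo a b, A t ≤ 0) : ∀ t ∈ Icc a b, A t ≤ 0 := by
  intro t ht
  rw [← closure_Ioo hab.ne] at ht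
  exact (isClosed_le hA continuous_const).closure_subset_iff.2 (fun x hx => h x hx) ht

lemma ge_zero_of_Ioo {A : ℝ → ℝ} (hA : Continuous A) {a b : ℝ} (hab : a < b)
    (h : ∀ t ∈ Ioo a b, 0 ≤ A t) : ∀ t ∈ Icc a b, 0 ≤ A t := by
  intro t ht
  have := le_zero_of_Ioo (A := fun t => -A t) hA.neg hab (fun t ht => by
    have := h t ht; linarith) t ht
  linarith

lemma Lft.strictAnti (h : Lft G1 G2 μ ϑ u) {a b : ℝ} (hneg : ∀ t ∈ Ioo a b, av G2 ϑ u t < 0) :
    StrictAntiOn ϑ (Icc a b) := by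
  apply strictAntiOn_of_deriv_neg (convex_Icc a b) h.cθ.continuousOn
  intro x hx
  rw [interior_Icc] at hx
  rw [(h.dθ x).deriv]
  exact hneg x hx

lemma Lft.strictMono (h : Lft G1 G2 μ ϑ u) {a b : ℝ} (hpos : ∀ t ∈ Ioo a b, 0 < av G2 ϑ u t) :
    StrictMonoOn ϑ (Icc a b) := by
  apply strictMonoOn_of_deriv_pos (convex_Icc a b) h.cθ.continuousOn
  intro x hx
  rw [interior_Icc] at hx
  rw [(h.dθ x).deriv]
  exact hpos x hx

/-- if the angular speed is somewhere negative, there is a simple zigzag -/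
lemma Lft.exists_V (hG1 : ContDiff ℝ 1 G1) (hG2 : ContDiff ℝ 1 G2) (h : Lft G1 G2 μ ϑ u)
    {κ T : ℝ} (hκ : 0 < κ) (hT0 : 0 < T) (hT : ∀ t, ϑ (t + T) = ϑ t + κ) {ts : ℝ}
    (hts : av G2 ϑ u ts < 0) :
    ∃ s1 s2 s3, s1 < s2 ∧ s2 < s3 ∧ av G2 ϑ u s1 = 0 ∧ (∀ t ∈ Ioo s1 s2, av G2 ϑ u t < 0) ∧
      (∀ t ∈ Ioo s2 s3, 0 < av G2 ϑ u t) ∧ ϑ s3 = ϑ s1 := by
  set A := av G2 ϑ u with hA
  have hAc : Continuous A := h.cav hG2.continuous
  have hD : ∀ t, A t = 0 → ∃ D : ℝ, D ≠ 0 ∧ HasDerivAt A D t := by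
    intro t ht
    exact ⟨_, neg_ne_zero.2 (h.no_eq hG1 hG2 hκ hT ht), h.dav hG2 ht⟩
  -- step 1
  obtain ⟨a0, ha0a, ha0b, ha0c, ha0d⟩ : ∃ a0, ts - T ≤ a0 ∧ a0 < ts ∧ A a0 = 0 ∧
      ∀ t ∈ Ioc a0 ts, A t < 0 := by
    have hex : ∃ t ∈ Icc (ts - T) ts, 0 ≤ A t := by
      by_contra hcon
      push Not at hcon
      have h1 := h.strictAnti (a := ts - T) (b := ts) (fun t ht => hcon t ⟨ht.1.le, ht.2.le⟩)
      have h2 := h1 ⟨le_rfl, by linarith⟩ ⟨by linarith, le_rfl⟩ (by linarith : ts - T < ts)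
      have h3 := hT (ts - T)
      rw [sub_add_cancel] at h3
      linarith
    have hcomp : IsCompact (Icc (ts - T) ts ∩ {t | 0 ≤ A t}) :=
      isCompact_Icc.inter_right (isClosed_le continuous_const hAc)
    obtain ⟨a0, ha0, hmax⟩ := hcomp.exists_isGreatest hex
    have hlt : a0 < ts := by
      rcases eq_or_lt_of_le ha0.1.2 with h1 | h1
      · have := ha0.2
        simp only [mem_ofPred_eq] at this
        rw [h1] at this
        linarith
      · exact h1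
    have hneg : ∀ t ∈ Ioc a0 ts, A t < 0 := by
      intro t ht
      by_contra hcon
      push Not at hcon
      have := hmax ⟨⟨ha0.1.1.trans ht.1.le, ht.2⟩, hcon⟩
      linarith [ht.1]
    refine ⟨a0, ha0.1.1, hlt, ?_, hneg⟩
    refine le_antisymm ?_ ha0.2
    exact le_zero_of_Ioo hAc hlt (fun t ht => (hneg t ⟨ht.1, ht.2.le⟩).le) a0 ⟨le_rfl, hlt.le⟩
  have hanti0 := h.strictAnti (a := a0) (b := ts) (fun t ht => ha0d t ⟨ht.1, ht.2.le⟩)
  have hlt0 : ϑ ts < ϑ a0 := hanti0 ⟨le_rfl, ha0b.le⟩ ⟨ha0b.le, le_rfl⟩ ha0b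
  -- step 2
  obtain ⟨b0, hb0a, hb0c, hb0d⟩ : ∃ b0, ts < b0 ∧ ϑ b0 = ϑ a0 ∧
      ∀ t ∈ Ioo a0 b0, ϑ t < ϑ a0 := by
    have hcomp : IsCompact (Icc ts (a0 + T) ∩ {t | ϑ a0 ≤ ϑ t}) :=
      isCompact_Icc.inter_right (isClosed_le continuous_const h.cθ)
    obtain ⟨b0, hb0, hmin⟩ := hcomp.exists_isLeast ⟨a0 + T, ⟨by linarith, le_rfl⟩, by
      simp only [mem_ofPred_eq]
      rw [hT]; linarith⟩
    have hb02 : ϑ a0 ≤ ϑ b0 := hb0.2
    have hlt : ts < b0 := by
      rcases eq_or_lt_of_le hb0.1.1 with h1 | h1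
      · rw [← h1] at hb02; linarith
      · exact h1
    have hlt2 : ∀ t ∈ Ico ts b0, ϑ t < ϑ a0 := by
      intro t ht
      by_contra hcon
      push Not at hcon
      have := hmin ⟨⟨ht.1, ht.2.le.trans hb0.1.2⟩, hcon⟩
      linarith [ht.2]
    refine ⟨b0, hlt, ?_, ?_⟩
    · refine le_antisymm ?_ hb02
      have := le_zero_of_Ioo (A := fun t => ϑ t - ϑ a0) (h.cθ.sub continuous_const) hlt
        (fun t ht => by have := hlt2 t ⟨ht.1.le, ht.2⟩; linarith) b0 ⟨hlt.le, le_rfl⟩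
      linarith
    · intro t ht
      rcases lt_or_ge t ts with h1 | h1
      · exact hanti0 ⟨le_rfl, ha0b.le⟩ ⟨ht.1.le, h1.le⟩ ht.1
      · exact hlt2 t ⟨h1, ht.2⟩
  -- step 3
  obtain ⟨b1, hb1a, hb1b, hb1c⟩ : ∃ b1, ts < b1 ∧ b1 < b0 ∧ ∀ t ∈ Ico b1 b0, 0 < A t := by
    have hev : ∀ᶠ t in 𝓝[<] b0, 0 < A t := by
      have hAb : 0 ≤ A b0 := by
        have h5 := (h.dθ b0).hasDerivWithinAt (s := Iio b0)
        rw [hasDerivWithinAt_iff_tendsto_slope' (by simp)] at h5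
        refine ge_of_tendsto h5 ?_
        filter_upwards [Ioo_mem_nhdsLT hb0a] with y hy
        rw [slope_def_field, hb0c]
        have h7 := hb0d y ⟨ha0b.trans hy.1, hy.2⟩
        exact div_nonneg_of_nonpos (by linarith) (by linarith [hy.2])
      rcases eq_or_lt_of_le hAb with h1 | h1
      · obtain ⟨D, hD0, hDd⟩ := hD b0 h1.symm
        rcases lt_or_gt_of_ne hD0 with h2 | h2
        · exact (neg_right_of_deriv_neg hDd h1.symm h2).2
        · exfalso
          have h3 := (pos_right_of_deriv_pos hDd h1.symm h2).2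
          obtain ⟨l, hl, hl2⟩ := (mem_nhdsLT_iff_exists_Ioo_subset).1 h3
          have hl' : max l ts < b0 := max_lt hl hb0a
          have h4 := h.strictAnti (a := max l ts) (b := b0) (fun t ht =>
            hl2 ⟨lt_of_le_of_lt (le_max_left _ _) ht.1, ht.2⟩)
          have h5 := h4 ⟨le_rfl, hl'.le⟩ ⟨hl'.le, le_rfl⟩ hl'
          rw [hb0c] at h5
          have h6 := hb0d (max l ts) ⟨lt_of_lt_of_le ha0b (le_max_right _ _), hl'⟩
          linarith
      · exact (hAc.continuousAt.eventually (lt_mem_nhds h1)).filter_mono nhdsWithin_le_nhds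
    obtain ⟨l, hl, hl2⟩ := (mem_nhdsLT_iff_exists_Ioo_subset).1 hev
    have hl' : max l ts < b0 := max_lt hl hb0a
    refine ⟨(max l ts + b0) / 2, ?_, ?_, ?_⟩
    · have := le_max_right l ts; linarith
    · linarith
    · intro t ht
      refine hl2 ⟨?_, ht.2⟩
      have := le_max_left l ts
      linarith [ht.1]
  obtain ⟨M, hMa, hMb, hMc, hMd⟩ : ∃ M, ts < M ∧ M < b0 ∧ A M = 0 ∧ ∀ t ∈ Ioo M b0, 0 < A t := by
    have hcomp : IsCompact (Icc ts b1 ∩ {t | A t ≤ 0}) :=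
      isCompact_Icc.inter_right (isClosed_le hAc continuous_const)
    obtain ⟨M, hM, hmax⟩ := hcomp.exists_isGreatest ⟨ts, ⟨le_rfl, hb1a.le⟩, hts.le⟩
    have hM2 : A M ≤ 0 := hM.2
    have hlt : M < b1 := by
      rcases eq_or_lt_of_le hM.1.2 with h1 | h1
      · have := hb1c b1 ⟨le_rfl, hb1b⟩
        rw [h1] at hM2
        linarith
      · exact h1
    have hpos : ∀ t ∈ Ioo M b0, 0 < A t := by
      intro t ht
      rcases lt_or_ge t b1 with h1 | h1
      · by_contra hcon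
        push Not at hcon
        have := hmax ⟨⟨hM.1.1.trans ht.1.le, h1.le⟩, hcon⟩
        linarith [ht.1]
      · exact hb1c t ⟨h1, ht.2⟩
    have hM0 : A M = 0 := le_antisymm hM2
      (ge_zero_of_Ioo hAc (hlt.trans hb1b) (fun t ht => (hpos t ht).le) M
        ⟨le_rfl, (hlt.trans hb1b).le⟩)
    refine ⟨M, ?_, hlt.trans hb1b, hM0, hpos⟩
    rcases eq_or_lt_of_le hM.1.1 with h1 | h1
    · rw [← h1] at hM0; linarith
    · exact h1
  -- step 4
  obtain ⟨m1, hm1a, hm1b, hm1c⟩ : ∃ m1, ts < m1 ∧ m1 < M ∧ ∀ t ∈ Ico m1 M, A t < 0 := by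
    obtain ⟨D, hD0, hDd⟩ := hD M hMc
    have hDpos : 0 < D := by
      rcases lt_or_gt_of_ne hD0 with h2 | h2
      · exfalso
        have h3 := (neg_right_of_deriv_neg hDd hMc h2).1
        have h4 : ∀ᶠ t in 𝓝[>] M, 0 < A t := by
          filter_upwards [Ioo_mem_nhdsGT hMb] with t ht using hMd t ht
        obtain ⟨t, ht1, ht2⟩ := (h3.and h4).exists
        linarith
      · exact h2
    have h3 := (pos_right_of_deriv_pos hDd hMc hDpos).2
    obtain ⟨l, hl, hl2⟩ := (mem_nhdsLT_iff_exists_Ioo_subset).1 h3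
    have hl' : max l ts < M := max_lt hl hMa
    refine ⟨(max l ts + M) / 2, ?_, ?_, ?_⟩
    · have := le_max_right l ts; linarith
    · linarith
    · intro t ht
      refine hl2 ⟨?_, ht.2⟩
      have := le_max_left l ts
      linarith [ht.1]
  obtain ⟨s1, hs1a, hs1b, hs1c, hs1d⟩ : ∃ s1, a0 ≤ s1 ∧ s1 < M ∧ A s1 = 0 ∧
      ∀ t ∈ Ioo s1 M, A t < 0 := by
    have hcomp : IsCompact (Icc a0 m1 ∩ {t | 0 ≤ A t}) :=
      isCompact_Icc.inter_right (isClosed_le continuous_const hAc)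
    obtain ⟨s1, hs1, hmax⟩ := hcomp.exists_isGreatest
      ⟨a0, ⟨le_rfl, by linarith⟩, by simp only [mem_ofPred_eq]; rw [ha0c]⟩
    have hs12 : 0 ≤ A s1 := hs1.2
    have hlt : s1 < m1 := by
      rcases eq_or_lt_of_le hs1.1.2 with h1 | h1
      · have := hm1c m1 ⟨le_rfl, hm1b⟩
        rw [h1] at hs12
        linarith
      · exact h1
    have hneg : ∀ t ∈ Ioo s1 M, A t < 0 := by
      intro t ht
      rcases lt_or_ge t m1 with h1 | h1
      · by_contra hcon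
        push Not at hcon
        have := hmax ⟨⟨hs1.1.1.trans ht.1.le, h1.le⟩, hcon⟩
        linarith [ht.1]
      · exact hm1c t ⟨h1, ht.2⟩
    refine ⟨s1, hs1.1.1, hlt.trans hm1b, le_antisymm ?_ hs12, hneg⟩
    exact le_zero_of_Ioo hAc (hlt.trans hm1b) (fun t ht => (hneg t ht).le) s1
      ⟨le_rfl, (hlt.trans hm1b).le⟩
  -- step 5
  have hanti1 := h.strictAnti (a := s1) (b := M) hs1d
  have hlt1 : ϑ M < ϑ s1 := hanti1 ⟨le_rfl, hs1b.le⟩ ⟨hs1b.le, le_rfl⟩ hs1b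
  have hle1 : ϑ s1 ≤ ϑ b0 := by
    rw [hb0c]
    rcases eq_or_lt_of_le hs1a with h1 | h1
    · rw [h1]
    · exact (hb0d s1 ⟨h1, hs1b.trans hMb⟩).le
  obtain ⟨s3, hs3, hs3e⟩ := intermediate_value_Icc hMb.le h.cθ.continuousOn ⟨hlt1.le, hle1⟩
  have hs3M : M < s3 := by
    rcases eq_or_lt_of_le hs3.1 with h1 | h1
    · rw [← h1] at hs3e; linarith
    · exact h1
  exact ⟨s1, M, s3, hs1b, hs3M, hs1c, hs1d,
    fun t ht => hMd t ⟨ht.1, lt_of_lt_of_le ht.2 hs3.2⟩, hs3e⟩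

/-- a function on a strictly monotone stretch factors through the angle -/
lemma exists_graph {ϑ u : ℝ → ℝ} (hϑ : Continuous ϑ) (hu : Continuous u) {a b : ℝ}
    (hinj : InjOn ϑ (Icc a b)) : ∃ f : ℝ → ℝ, Continuous f ∧ ∀ t ∈ Icc a b, f (ϑ t) = u t := by
  have he : IsClosedEmbedding (fun t : Icc a b => ϑ t) := by
    apply Continuous.isClosedEmbedding (hϑ.comp continuous_subtype_val)
    intro x y hxy
    exact Subtype.ext (hinj x.2 y.2 hxy)
  obtain ⟨g, hg⟩ := ContinuousMap.exists_extension he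
    (⟨fun t : Icc a b => u t, hu.comp continuous_subtype_val⟩ : C(Icc a b, ℝ))
  refine ⟨g, g.continuous, fun t ht => ?_⟩
  have := congrArg (fun φ : C(Icc a b, ℝ) => φ ⟨t, ht⟩) hg
  simpa using this

/-- The trapping argument: the polar angle is strictly increasing along a closed orbit that
winds around the origin in the positive direction. -/
theorem Lft.av_pos (hG1 : ContDiff ℝ 1 G1) (hG2 : ContDiff ℝ 1 G2) (h : Lft G1 G2 μ ϑ u)
    {κ T : ℝ} (hκ : 0 < κ) (hT0 : 0 < T) (hT : ∀ t, ϑ (t + T) = ϑ t + κ) (t : ℝ) :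
    0 < av G2 ϑ u t := by
  by_contra hcon
  push Not at hcon
  have hAc : Continuous (av G2 ϑ u) := h.cav hG2.continuous
  -- a point of negative angular speed
  obtain ⟨ts, hts⟩ : ∃ ts, av G2 ϑ u ts < 0 := by
    rcases eq_or_lt_of_le hcon with h0 | h0
    · have hd := h.dav hG2 h0
      rcases lt_or_gt_of_ne (neg_ne_zero.2 (h.no_eq hG1 hG2 hκ hT h0)) with h1 | h1
      · exact (neg_right_of_deriv_neg hd h0 h1).1.exists
      · exact (pos_right_of_deriv_pos hd h0 h1).2.exists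
    · exact ⟨t, h0⟩
  obtain ⟨s1, s2, s3, h12, h23, hs1, hneg, hpos, h31⟩ := h.exists_V hG1 hG2 hκ hT0 hT hts
  have hanti := h.strictAnti hneg
  have hmono := h.strictMono hpos
  obtain ⟨g, hgc, hg⟩ := exists_graph h.cθ h.cu hanti.injOn
  obtain ⟨f, hfc, hf⟩ := exists_graph h.cθ h.cu hmono.injOn
  have hlt : ϑ s2 < ϑ s1 := hanti ⟨le_rfl, h12.le⟩ ⟨h12.le, le_rfl⟩ h12
  -- points of the two branches
  have hgex : ∀ θ ∈ Icc (ϑ s2) (ϑ s1), ∃ s ∈ Icc s1 s2, ϑ s = θ ∧ g θ = u s := by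
    intro θ hθ
    obtain ⟨s, hs, hse⟩ := intermediate_value_Icc' h12.le h.cθ.continuousOn hθ
    exact ⟨s, hs, hse, by rw [← hse]; exact hg s hs⟩
  have hfex : ∀ θ ∈ Icc (ϑ s2) (ϑ s1), ∃ s ∈ Icc s2 s3, ϑ s = θ ∧ f θ = u s := by
    intro θ hθ
    rw [← h31] at hθ
    obtain ⟨s, hs, hse⟩ := intermediate_value_Icc h23.le h.cθ.continuousOn hθ
    exact ⟨s, hs, hse, by rw [← hse]; exact hf s hs⟩
  have hgneg : ∀ θ ∈ Ioo (ϑ s2) (ϑ s1), 1 + Real.exp (g θ) * G2 θ < 0 := by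
    intro θ hθ
    obtain ⟨s, hs, hse, hsg⟩ := hgex θ ⟨hθ.1.le, hθ.2.le⟩
    have h1 : s ≠ s1 := by rintro rfl; linarith [hθ.2]
    have h2 : s ≠ s2 := by rintro rfl; linarith [hθ.1]
    have := hneg s ⟨lt_of_le_of_ne hs.1 (Ne.symm h1), lt_of_le_of_ne hs.2 h2⟩
    unfold av at this
    rw [hse, ← hsg] at this
    exact this
  have hg1 : g (ϑ s1) = u s1 := hg s1 ⟨le_rfl, h12.le⟩
  have hgs1 : 1 + Real.exp (g (ϑ s1)) * G2 (ϑ s1) = 0 := by
    rw [hg1]; exact hs1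
  have hf3 : f (ϑ s1) = u s3 := by
    rw [← h31]; exact hf s3 ⟨h23.le, le_rfl⟩
  have hfs3 : 0 ≤ 1 + Real.exp (f (ϑ s1)) * G2 (ϑ s1) := by
    have := ge_zero_of_Ioo hAc h23 (fun t ht => (hpos t ht).le) s3 ⟨h23.le, le_rfl⟩
    unfold av at this
    rw [h31, ← hf3] at this
    exact this
  have hG2neg : G2 (ϑ s1) < 0 := by
    by_contra hc
    push Not at hc
    have := mul_nonneg (Real.exp_pos (g (ϑ s1))).le hc
    linarith
  have hfg1 : f (ϑ s1) < g (ϑ s1) := by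
    have hle : f (ϑ s1) ≤ g (ϑ s1) := by
      rw [← Real.exp_le_exp]
      by_contra hc
      push Not at hc
      have := mul_lt_mul_of_neg_right hc hG2neg
      linarith
    refine lt_of_le_of_ne hle fun heq => ?_
    exact h.no_return hG1 hG2 hκ hT (h12.trans h23) h31.symm (by rw [← hg1, ← heq, hf3])
  -- the trap
  set R : Set ℝ := {t | ϑ s2 < ϑ t ∧ ϑ t < ϑ s1 ∧ f (ϑ t) < u t ∧ u t < g (ϑ t)} with hR
  have hRo : IsOpen R := by
    have c1 := h.cθ
    have c2 := h.cu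
    have : R = {t | ϑ s2 < ϑ t} ∩ ({t | ϑ t < ϑ s1} ∩ ({t | f (ϑ t) < u t} ∩
        {t | u t < g (ϑ t)})) := by
      ext t; simp [hR]
    rw [this]
    exact (isOpen_lt continuous_const c1).inter ((isOpen_lt c1 continuous_const).inter
      ((isOpen_lt (hfc.comp c1) c2).inter (isOpen_lt c2 (hgc.comp c1))))
  have hnear : ∀ᶠ t in 𝓝[<] s1, t ∈ R := by
    have hd := h.dav hG2 hs1
    have hD : -(μ + Real.exp (u s1) * G1 (ϑ s1)) < 0 := by
      rcases lt_or_gt_of_ne (neg_ne_zero.2 (h.no_eq hG1 hG2 hκ hT hs1)) with h1 | h1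
      · exact h1
      · exfalso
        have h3 := (pos_right_of_deriv_pos hd hs1 h1).1
        have h4 : ∀ᶠ t in 𝓝[>] s1, av G2 ϑ u t < 0 := by
          filter_upwards [Ioo_mem_nhdsGT h12] with t ht using hneg t ht
        obtain ⟨t, ht1, ht2⟩ := (h3.and h4).exists
        linarith
    have h3 := (neg_right_of_deriv_neg hd hs1 hD).2
    obtain ⟨l, hl, hl2⟩ := (mem_nhdsLT_iff_exists_Ioo_subset).1 h3
    have e1 : ∀ᶠ t in 𝓝[<] s1, ϑ s2 < ϑ t :=
      (h.cθ.continuousAt.eventually (lt_mem_nhds hlt)).filter_mono nhdsWithin_le_nhds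
    have e2 : ∀ᶠ t in 𝓝[<] s1, 0 < u t - f (ϑ t) := by
      have hc : Continuous fun t => u t - f (ϑ t) := h.cu.sub (hfc.comp h.cθ)
      have : 0 < u s1 - f (ϑ s1) := by rw [← hg1]; linarith
      exact (hc.continuousAt.eventually (lt_mem_nhds this)).filter_mono nhdsWithin_le_nhds
    filter_upwards [e1, e2, h3, Ioo_mem_nhdsLT hl] with t t1 t2 t3 t4
    have t5 : ϑ t < ϑ s1 :=
      h.strictMono (a := l) (b := s1) (fun x hx => hl2 hx) ⟨t4.1.le, t4.2.le⟩
        ⟨(t4.1.trans t4.2).le, le_rfl⟩ t4.2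
    refine ⟨t1, t5, by linarith, ?_⟩
    have t6 := hgneg (ϑ t) ⟨t1, t5⟩
    have hG2n : G2 (ϑ t) < 0 := by
      by_contra hc
      push Not at hc
      have := mul_nonneg (Real.exp_pos (g (ϑ t))).le hc
      linarith
    unfold av at t3
    rw [← Real.exp_lt_exp]
    by_contra hc
    push Not at hc
    have := mul_le_mul_of_nonpos_right hc hG2n.le
    linarith
  have htrap : ∀ t < s1, t ∈ R := by
    by_contra hcon
    push Not at hcon
    obtain ⟨tb, htb, htbR⟩ := hcon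
    obtain ⟨l, hl, hl2⟩ := (mem_nhdsLT_iff_exists_Ioo_subset).1 hnear
    have hl' : max l tb < s1 := max_lt hl htb
    set m := (max l tb + s1) / 2 with hm
    have hm1 : m < s1 := by rw [hm]; linarith
    have hml : l < m := by have := le_max_left l tb; rw [hm]; linarith
    have hmtb : tb < m := by have := le_max_right l tb; rw [hm]; linarith
    have hcomp : IsCompact (Icc tb m ∩ Rᶜ) :=
      isCompact_Icc.inter_right hRo.isClosed_compl
    obtain ⟨tt, htt, hmax⟩ := hcomp.exists_isGreatest ⟨tb, ⟨le_rfl, hmtb.le⟩, htbR⟩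
    have httm : tt < m := by
      rcases eq_or_lt_of_le htt.1.2 with h1 | h1
      · exact absurd (hl2 ⟨hml, hm1⟩) (by rw [← h1]; exact htt.2)
      · exact h1
    have httR : ∀ t ∈ Ioo tt s1, t ∈ R := by
      intro t ht
      rcases lt_or_ge t m with h1 | h1
      · by_contra hc
        have := hmax ⟨⟨htt.1.1.trans ht.1.le, h1.le⟩, hc⟩
        linarith [ht.1]
      · exact hl2 ⟨lt_of_lt_of_le hml h1, ht.2⟩
    have htts : tt < s1 := httm.trans hm1
    have k1 : ϑ s2 ≤ ϑ tt := by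
      have := ge_zero_of_Ioo (A := fun t => ϑ t - ϑ s2) (h.cθ.sub continuous_const) htts
        (fun t ht => by have := (httR t ht).1; linarith) tt ⟨le_rfl, htts.le⟩
      linarith
    have k2 : ϑ tt ≤ ϑ s1 := by
      have := ge_zero_of_Ioo (A := fun t => ϑ s1 - ϑ t) (continuous_const.sub h.cθ) htts
        (fun t ht => by have := (httR t ht).2.1; linarith) tt ⟨le_rfl, htts.le⟩
      linarith
    have k3 : f (ϑ tt) ≤ u tt := by
      have := ge_zero_of_Ioo (A := fun t => u t - f (ϑ t)) (h.cu.sub (hfc.comp h.cθ)) htts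
        (fun t ht => by have := (httR t ht).2.2.1; linarith) tt ⟨le_rfl, htts.le⟩
      linarith
    have k4 : u tt ≤ g (ϑ tt) := by
      have := ge_zero_of_Ioo (A := fun t => g (ϑ t) - u t) ((hgc.comp h.cθ).sub h.cu) htts
        (fun t ht => by have := (httR t ht).2.2.2; linarith) tt ⟨le_rfl, htts.le⟩
      linarith
    -- the boundary cases
    have hnf : f (ϑ tt) ≠ u tt := by
      intro heq
      obtain ⟨s, hs, hse, hsf⟩ := hfex (ϑ tt) ⟨k1, k2⟩
      exact h.no_return hG1 hG2 hκ hT (t := tt) (t' := s)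
        (by linarith [hs.1]) hse.symm (by rw [← heq, hsf])
    have hng : u tt ≠ g (ϑ tt) := by
      intro heq
      obtain ⟨s, hs, hse, hsg⟩ := hgex (ϑ tt) ⟨k1, k2⟩
      exact h.no_return hG1 hG2 hκ hT (t := tt) (t' := s)
        (by linarith [hs.1]) hse.symm (by rw [heq, hsg])
    have k3' : f (ϑ tt) < u tt := lt_of_le_of_ne k3 hnf
    have k4' : u tt < g (ϑ tt) := lt_of_le_of_ne k4 hng
    have k1' : ϑ s2 < ϑ tt := by
      refine lt_of_le_of_ne k1 fun heq => ?_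
      have e1 := hg s2 ⟨h12.le, le_rfl⟩
      have e2 := hf s2 ⟨le_rfl, h23.le⟩
      rw [heq] at e1 e2
      linarith
    have k2' : ϑ tt < ϑ s1 := by
      refine lt_of_le_of_ne k2 fun heq => ?_
      rw [heq] at k4'
      have e1 : 0 < 1 + Real.exp (u tt) * G2 (ϑ tt) := by
        rw [heq]
        have := mul_lt_mul_of_neg_right (Real.exp_lt_exp.2 k4') hG2neg
        linarith
      have hgt : ∀ᶠ t in 𝓝[>] tt, 0 < ϑ t - ϑ tt :=
        (pos_right_of_deriv_pos (f := fun t => ϑ t - ϑ tt) ((h.dθ tt).sub_const _)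
          (by simp) e1).1
      obtain ⟨t, ht1, ht2⟩ := (hgt.and (Ioo_mem_nhdsGT htts)).exists
      have := (httR t ht2).2.1
      rw [← heq] at this
      linarith
    exact htt.2 ⟨k1', k2', k3', k4'⟩
  -- contradiction
  obtain ⟨n, hn⟩ := exists_nat_gt ((ϑ s1 - ϑ s2) / κ)
  rw [div_lt_iff₀ hκ] at hn
  have hn0 : (0:ℝ) < n := by
    by_contra hc
    push Not at hc
    have : (n:ℝ) * κ ≤ 0 := mul_nonpos_of_nonpos_of_nonneg hc hκ.le
    linarith
  have h1 := iter_shift_neg hT n s1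
  have h2 := (htrap (s1 - n * T) (by nlinarith)).1
  linarith

end

end Pool.Agent.H811R2.Quad
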