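import Pool.Agent.H811R2.QLower

/-! The trigonometric polynomials of a quadratic system. -/

open Set Topology Filter intervalIntegral Real
open scoped ENNReal

namespace Pool.Agent.H811R2.Quad

noncomputable section

/-- `p cos θ + q sin θ + r cos 3θ + t sin 3θ` -/
def trig (p q r t θ : ℝ) : ℝ := p * cos θ + q * sin θ + r * cos (3 * θ) + t * sin (3 * θ)

lemma continuous_trig (p q r t : ℝ) : Continuous (trig p q r t) := by
  unfold trig; fun_prop

lemma cos_three_add_pi (θ : ℝ) : cos (3 * (θ + π)) = -cos (3 * θ) := by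
  rw [show 3 * (θ + π) = (3 * θ + π) + 2 * π by ring, cos_add_two_pi, cos_add_pi]

lemma sin_three_add_pi (θ : ℝ) : sin (3 * (θ + π)) = -sin (3 * θ) := by
  rw [show 3 * (θ + π) = (3 * θ + π) + 2 * π by ring, sin_add_two_pi, sin_add_pi]

lemma trig_anti (p q r t θ : ℝ) : trig p q r t (θ + π) = -trig p q r t θ := by
  unfold trig
  rw [cos_three_add_pi, sin_three_add_pi, cos_add_pi, sin_add_pi]
  ring

lemma trig_per (p q r t θ : ℝ) : trig p q r t (θ + 2 * π) = trig p q r t θ := by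
  rw [show θ + 2 * π = (θ + π) + π by ring, trig_anti, trig_anti, neg_neg]

lemma trig_deriv (p q r t θ : ℝ) :
    HasDerivAt (trig p q r t) (trig q (-p) (3 * t) (-(3 * r)) θ) θ := by
  unfold trig
  have h3 : HasDerivAt (fun θ : ℝ => 3 * θ) 3 θ := by
    simpa using (hasDerivAt_id θ).const_mul 3
  have := ((((hasDerivAt_cos θ).const_mul p).add ((hasDerivAt_sin θ).const_mul q)).add
    ((h3.cos).const_mul r)).add ((h3.sin).const_mul t)
  refine this.congr_deriv ?_
  ring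

lemma integral_trig_sq (p q r t : ℝ) (n : ℕ) :
    ∫ θ in (0:ℝ)..(n * π), trig p q r t θ ^ 2 = n * π / 2 * (p ^ 2 + q ^ 2 + r ^ 2 + t ^ 2) := by
  set F : ℝ → ℝ := fun θ => (p ^ 2 + q ^ 2 + r ^ 2 + t ^ 2) / 2 * θ +
    ((p ^ 2 - q ^ 2) / 4 * sin (2 * θ) - p * q / 2 * cos (2 * θ)) +
    ((r ^ 2 - t ^ 2) / 12 * sin (6 * θ) - r * t / 6 * cos (6 * θ)) +
    ((p * r - q * t) / 4 * sin (4 * θ) - (p * t + q * r) / 4 * cos (4 * θ)) +
    ((p * r + q * t) / 2 * sin (2 * θ) - (p * t - q * r) / 2 * cos (2 * θ)) with hF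
  have hd : ∀ θ, HasDerivAt F (trig p q r t θ ^ 2) θ := by
    intro θ
    have hk : ∀ k : ℝ, HasDerivAt (fun θ : ℝ => k * θ) k θ := fun k => by
      simpa using (hasDerivAt_id θ).const_mul k
    have := (((((hasDerivAt_id θ).const_mul ((p ^ 2 + q ^ 2 + r ^ 2 + t ^ 2) / 2)).add
      (((hk 2).sin.const_mul ((p ^ 2 - q ^ 2) / 4)).sub ((hk 2).cos.const_mul (p * q / 2)))).add
      (((hk 6).sin.const_mul ((r ^ 2 - t ^ 2) / 12)).sub ((hk 6).cos.const_mul (r * t / 6)))).add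
      (((hk 4).sin.const_mul ((p * r - q * t) / 4)).sub
        ((hk 4).cos.const_mul ((p * t + q * r) / 4)))).add
      (((hk 2).sin.const_mul ((p * r + q * t) / 2)).sub
        ((hk 2).cos.const_mul ((p * t - q * r) / 2)))
    refine this.congr_deriv ?_
    unfold trig
    have c6 : cos (6 * θ) = cos (3 * θ) ^ 2 - sin (3 * θ) ^ 2 := by
      rw [show 6 * θ = 3 * θ + 3 * θ by ring, cos_add]; ring
    have s6 : sin (6 * θ) = 2 * sin (3 * θ) * cos (3 * θ) := by
      rw [show 6 * θ = 3 * θ + 3 * θ by ring, sin_add]; ring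
    have c4 : cos (4 * θ) = cos (3 * θ) * cos θ - sin (3 * θ) * sin θ := by
      rw [show 4 * θ = 3 * θ + θ by ring, cos_add]
    have s4 : sin (4 * θ) = sin (3 * θ) * cos θ + cos (3 * θ) * sin θ := by
      rw [show 4 * θ = 3 * θ + θ by ring, sin_add]
    have c2 : cos (2 * θ) = cos (3 * θ) * cos θ + sin (3 * θ) * sin θ := by
      rw [show 2 * θ = 3 * θ - θ by ring, cos_sub]
    have s2 : sin (2 * θ) = sin (3 * θ) * cos θ - cos (3 * θ) * sin θ := by
      rw [show 2 * θ = 3 * θ - θ by ring, sin_sub]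
    have c2' : cos (2 * θ) = cos θ ^ 2 - sin θ ^ 2 := by
      rw [two_mul, cos_add]; ring
    have s2' : sin (2 * θ) = 2 * sin θ * cos θ := by
      rw [two_mul, sin_add]; ring
    have h1 := sin_sq_add_cos_sq θ
    have h2 := sin_sq_add_cos_sq (3 * θ)
    rw [c6, s6, c4, s4]
    linear_combination (p ^ 2 - q ^ 2) / 2 * c2' + p * q * s2' + (p * r + q * t) * c2 +
      (p * t - q * r) * s2 - (p ^ 2 + q ^ 2) / 2 * h1 - (r ^ 2 + t ^ 2) / 2 * h2
  rw [integral_eq_sub_of_hasDerivAt (fun θ _ => hd θ)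
    (((continuous_trig p q r t).pow 2).intervalIntegrable _ _)]
  have s2 : sin (2 * (n * π)) = 0 := by
    rw [show 2 * ((n:ℝ) * π) = ((2 * n : ℕ) : ℝ) * π by push_cast; ring, sin_nat_mul_pi]
  have s4 : sin (4 * (n * π)) = 0 := by
    rw [show 4 * ((n:ℝ) * π) = ((4 * n : ℕ) : ℝ) * π by push_cast; ring, sin_nat_mul_pi]
  have s6 : sin (6 * (n * π)) = 0 := by
    rw [show 6 * ((n:ℝ) * π) = ((6 * n : ℕ) : ℝ) * π by push_cast; ring, sin_nat_mul_pi]
  have c2 : cos (2 * (n * π)) = 1 := by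
    rw [show 2 * ((n:ℝ) * π) = (n : ℝ) * (2 * π) by ring, cos_nat_mul_two_pi]
  have c4 : cos (4 * (n * π)) = 1 := by
    rw [show 4 * ((n:ℝ) * π) = ((2 * n : ℕ) : ℝ) * (2 * π) by push_cast; ring, cos_nat_mul_two_pi]
  have c6 : cos (6 * (n * π)) = 1 := by
    rw [show 6 * ((n:ℝ) * π) = ((3 * n : ℕ) : ℝ) * (2 * π) by push_cast; ring, cos_nat_mul_two_pi]
  simp only [hF, s2, s4, s6, c2, c4, c6, mul_zero, sin_zero, cos_zero]
  ring

lemma integral_abs_trig_le (p q r t : ℝ) {lam Q : ℝ} (hl : 0 < lam)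
    (hQ : p ^ 2 + q ^ 2 + r ^ 2 + t ^ 2 ≤ Q) :
    ∫ θ in (0:ℝ)..(2 * π), |trig p q r t θ| ≤ π / 2 * (Q / lam + 2 * lam) := by
  have h1 : ∫ θ in (0:ℝ)..(2 * π), |trig p q r t θ| ≤
      ∫ θ in (0:ℝ)..(2 * π), (trig p q r t θ ^ 2 / lam + lam) / 2 := by
    have := continuous_trig p q r t
    apply integral_mono_on (by positivity) (by apply Continuous.intervalIntegrable; fun_prop)
      (by apply Continuous.intervalIntegrable; fun_prop)
    intro θ _
    rw [← sq_abs (trig p q r t θ), le_div_iff₀ (by norm_num), ← sub_nonneg]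
    have : |trig p q r t θ| ^ 2 / lam + lam - |trig p q r t θ| * 2 =
      (|trig p q r t θ| - lam) ^ 2 / lam := by field_simp; ring
    rw [this]; positivity
  refine h1.trans ?_
  have h2 := integral_trig_sq p q r t 2
  push_cast at h2
  have hc := continuous_trig p q r t
  rw [integral_div, integral_add (by apply Continuous.intervalIntegrable; fun_prop)
    (by apply Continuous.intervalIntegrable; fun_prop), integral_div, h2,
    intervalIntegral.integral_const, smul_eq_mul]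
  have h3 : 2 * π / 2 * (p ^ 2 + q ^ 2 + r ^ 2 + t ^ 2) / lam ≤ π * Q / lam := by
    apply div_le_div_of_nonneg_right _ hl.le
    have := mul_le_mul_of_nonneg_left hQ pi_pos.le
    linarith
  have : π / 2 * (Q / lam + 2 * lam) = (π * Q / lam + (2 * π - 0) * lam) / 2 := by ring
  rw [this]
  linarith

lemma cos_one_ge : (0.535 : ℝ) ≤ cos 1 := by
  have h1 := cos_bound (x := 1 / 4) (by rw [abs_of_pos (by norm_num)]; norm_num)
  rw [abs_of_pos (by norm_num : (0:ℝ) < 1 / 4), abs_le] at h1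
  have h2 : (0.9685:ℝ) ≤ cos (1 / 4) := by
    have := h1.1
    norm_num at this ⊢
    linarith
  have h3 : cos (1 / 2) = 2 * cos (1 / 4) ^ 2 - 1 := by
    rw [← cos_two_mul]; norm_num
  have h4 : cos 1 = 2 * cos (1 / 2) ^ 2 - 1 := by
    rw [← cos_two_mul]; norm_num
  have h5 : (0.87598:ℝ) ≤ cos (1 / 2) := by
    rw [h3]; nlinarith
  rw [h4]; nlinarith

end

end Pool.Agent.H811R2.Quad
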