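import Pool.Agent.H811R2.QCanon

/-! Averaged counts over windows `[-M, M]` of the trace parameter. -/

open Set MeasureTheory Topology Filter
open scoped ENNReal

namespace Pool.Agent.H811R2.Quad

noncomputable section

/-- the clock with a weight on the length part -/
def clockb (G1 H : ℝ → ℝ) (b s : ℝ) (v : ℝ → ℝ) : ℝ :=
  ∫ θ in (0:ℝ)..(2 * Real.pi), ((|H θ| + |G1 θ|) / s * X s (v θ) + b * X s (v θ) ^ 2)

lemma flux_le_clockb {G1 H : ℝ → ℝ} (hG1 : Continuous G1) (hH : Continuous H)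
    {μ1 μ2 : ℝ} {v1 v2 : ℝ → ℝ} {s b : ℝ} (hs : 0 < s) (hb : 0 < b)
    (c1 : Continuous v1) (c2 : Continuous v2) (p1 : ∀ θ, 0 < v1 θ) (p2 : ∀ θ, 0 < v2 θ)
    (i1 : μ1 * ell s v1 = ∫ θ in (0:ℝ)..(2 * Real.pi),
      (H θ * X s (v1 θ) - G1 θ * (X s (v1 θ) * (1 - X s (v1 θ)))) / s)
    (i2 : μ2 * ell s v2 = ∫ θ in (0:ℝ)..(2 * Real.pi),
      (H θ * X s (v2 θ) - G1 θ * (X s (v2 θ) * (1 - X s (v2 θ)))) / s)
    (hle : ∀ θ, v1 θ < v2 θ) :
    |μ1 * ell s v1 - μ2 * ell s v2| + b * |ell s v1 - ell s v2| ≤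
      clockb G1 H b s v2 - clockb G1 H b s v1 := by
  have h1 := flux_le_clock' (G1 := fun θ => G1 θ) (H := fun θ => H θ) hG1 hH hs c1 c2 p1 p2 i1 i2
    hle
  have hX1 := continuous_X hs c1 p1
  have hX2 := continuous_X hs c2 p2
  have hXle : ∀ θ, X s (v1 θ) ≤ X s (v2 θ) := fun θ => X_mono hs (p1 θ) (hle θ).le
  have e1 : |μ1 * ell s v1 - μ2 * ell s v2| ≤
      ∫ θ in (0:ℝ)..(2 * Real.pi), (|H θ| + |G1 θ|) / s * (X s (v2 θ) - X s (v1 θ)) := by
    rw [i1, i2,
      ← intervalIntegral.integral_sub (by apply Continuous.intervalIntegrable; fun_prop)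
        (by apply Continuous.intervalIntegrable; fun_prop)]
    refine (intervalIntegral.abs_integral_le_integral_abs (by positivity)).trans ?_
    apply intervalIntegral.integral_mono_on (by positivity)
      (by apply Continuous.intervalIntegrable; fun_prop)
      (by apply Continuous.intervalIntegrable; fun_prop)
    intro θ _
    have a1 := X_pos hs (p1 θ)
    have a2 := X_lt_one hs (p1 θ)
    have a3 := X_pos hs (p2 θ)
    have a4 := X_lt_one hs (p2 θ)
    have a5 := hXle θ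
    set x1 := X s (v1 θ)
    set x2 := X s (v2 θ)
    have : (H θ * x1 - G1 θ * (x1 * (1 - x1))) / s - (H θ * x2 - G1 θ * (x2 * (1 - x2))) / s =
        (-H θ + G1 θ * (1 - x1 - x2)) / s * (x2 - x1) := by ring
    rw [this, abs_mul, abs_div, abs_of_pos hs, abs_of_nonneg (by linarith : 0 ≤ x2 - x1)]
    apply mul_le_mul_of_nonneg_right _ (by linarith)
    apply div_le_div_of_nonneg_right _ hs.le
    refine (abs_add_le _ _).trans ?_
    rw [abs_neg, abs_mul]
    have : |1 - x1 - x2| ≤ 1 := by rw [abs_le]; constructor <;> linarith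
    nlinarith [abs_nonneg (G1 θ)]
  have e2 : |ell s v1 - ell s v2| ≤
      ∫ θ in (0:ℝ)..(2 * Real.pi), (X s (v2 θ) ^ 2 - X s (v1 θ) ^ 2) := by
    unfold ell
    rw [← intervalIntegral.integral_sub (by apply Continuous.intervalIntegrable; fun_prop)
        (by apply Continuous.intervalIntegrable; fun_prop)]
    refine (intervalIntegral.abs_integral_le_integral_abs (by positivity)).trans (le_of_eq ?_)
    apply intervalIntegral.integral_congr
    intro θ _
    have a1 := X_pos hs (p1 θ)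
    have a5 := hXle θ
    simp only
    rw [abs_of_nonpos (by nlinarith)]
    ring
  refine (add_le_add e1 (mul_le_mul_of_nonneg_left e2 hb.le)).trans (le_of_eq ?_)
  unfold clockb
  rw [← intervalIntegral.integral_const_mul,
    ← intervalIntegral.integral_sub (by apply Continuous.intervalIntegrable; fun_prop)
        (by apply Continuous.intervalIntegrable; fun_prop),
    ← intervalIntegral.integral_add (by apply Continuous.intervalIntegrable; fun_prop)
        (by apply Continuous.intervalIntegrable; fun_prop)]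
  apply intervalIntegral.integral_congr
  intro θ _
  simp only
  ring

lemma clockb_nonneg {G1 H : ℝ → ℝ} {b s : ℝ} (hs : 0 < s) (hb : 0 < b) {v : ℝ → ℝ}
    (hpos : ∀ θ, 0 < v θ) : 0 ≤ clockb G1 H b s v := by
  unfold clockb
  apply intervalIntegral.integral_nonneg (by positivity)
  intro θ _
  have := X_pos hs (hpos θ)
  positivity

lemma clockb_le {G1 H : ℝ → ℝ} (hG1 : Continuous G1) (hH : Continuous H) {b s xm : ℝ}
    (hs : 0 < s) (hb : 0 < b) {v : ℝ → ℝ} (hv : Continuous v) (hpos : ∀ θ, 0 < v θ)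
    (hx : ∀ θ, X s (v θ) ≤ xm) :
    clockb G1 H b s v ≤ (∫ θ in (0:ℝ)..(2 * Real.pi), (|H θ| + |G1 θ|)) / s * xm +
      2 * Real.pi * b * xm ^ 2 := by
  have hX := continuous_X hs hv hpos
  unfold clockb
  have : (∫ θ in (0:ℝ)..(2 * Real.pi), (|H θ| + |G1 θ|)) / s * xm + 2 * Real.pi * b * xm ^ 2 =
      ∫ θ in (0:ℝ)..(2 * Real.pi), ((|H θ| + |G1 θ|) / s * xm + b * xm ^ 2) := by
    rw [intervalIntegral.integral_add (f := fun θ => (|H θ| + |G1 θ|) / s * xm)
      (g := fun _ => b * xm ^ 2)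
      (by apply Continuous.intervalIntegrable; fun_prop)
      (by apply Continuous.intervalIntegrable; fun_prop),
      intervalIntegral.integral_mul_const, intervalIntegral.integral_div]
    simp only [intervalIntegral.integral_const, smul_eq_mul]
    ring
  rw [this]
  apply intervalIntegral.integral_mono_on (by positivity)
    (by apply Continuous.intervalIntegrable; fun_prop)
    (by apply Continuous.intervalIntegrable; fun_prop)
  intro θ _
  have h1 := X_pos hs (hpos θ)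
  have h2 := hx θ
  have h3 : 0 ≤ (|H θ| + |G1 θ|) / s := by positivity
  have h4 := mul_le_mul_of_nonneg_left h2 h3
  have h5 := mul_le_mul_of_nonneg_left (pow_le_pow_left₀ h1.le h2 2) hb.le
  linarith

lemma clockb_lt {G1 H : ℝ → ℝ} (hG1 : Continuous G1) (hH : Continuous H) {b s : ℝ}
    (hs : 0 < s) (hb : 0 < b) {v1 v2 : ℝ → ℝ} (hv1 : Continuous v1) (hv2 : Continuous v2)
    (hpos : ∀ θ, 0 < v1 θ) (hle : ∀ θ, v1 θ < v2 θ) :
    clockb G1 H b s v1 < clockb G1 H b s v2 := by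
  have hpos2 : ∀ θ, 0 < v2 θ := fun θ => (hpos θ).trans (hle θ)
  have hX1 := continuous_X hs hv1 hpos
  have hX2 := continuous_X hs hv2 hpos2
  unfold clockb
  apply intervalIntegral.integral_lt_integral_of_continuousOn_of_le_of_exists_lt (by positivity)
    (by apply Continuous.continuousOn; fun_prop) (by apply Continuous.continuousOn; fun_prop)
  · intro θ _
    have a1 := X_mono hs (hpos θ) (hle θ).le
    have a2 := X_pos hs (hpos θ)
    have a3 : 0 ≤ (|H θ| + |G1 θ|) / s := by positivity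
    have a4 := mul_le_mul_of_nonneg_left a1 a3
    have a5 := mul_le_mul_of_nonneg_left (pow_le_pow_left₀ a2.le a1 2) hb.le
    linarith
  · refine ⟨0, ⟨le_rfl, by positivity⟩, ?_⟩
    have a1 := X_strictMono hs (hpos 0) (hle 0)
    have a2 := X_pos hs (hpos 0)
    have a3 : 0 ≤ (|H 0| + |G1 0|) / s := by positivity
    have a4 := mul_le_mul_of_nonneg_left a1.le a3
    have a5 := mul_lt_mul_of_pos_left (pow_lt_pow_left₀ a1 a2.le (by norm_num : 2 ≠ 0)) hb
    linarith

/-- count over a window of the trace parameter -/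
theorem count_window {m : ℝ} (hm : 0 < m) {G1 G2 G2' : ℝ → ℝ} (hG1 : Continuous G1)
    (hG2 : ∀ θ, HasDerivAt G2 (G2' θ) θ) (hG2' : Continuous G2')
    (hper2 : ∀ θ, G2 (θ + 2 * Real.pi) = G2 θ) {s a b xm l0 : ℝ} (hs : 0 < s)
    (ha : 0 ≤ a) (hab : a < b) (hxm : 0 ≤ xm) (hl0 : 0 < l0)
    (hx : ∀ μ v, a < μ → μ ≤ b → PSol (fun θ => m * G1 θ) G2 (m * μ) v → ∀ θ, X s (v θ) ≤ xm)
    (hlow : ∀ μ v, a < μ → μ ≤ b → PSol (fun θ => m * G1 θ) G2 (m * μ) v → l0 ≤ ell s v) :
    ∃ g : ℝ → ℝ≥0∞, Measurable g ∧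
      (∀ μ : ℝ, a < μ → μ ≤ b →
        ((({v : ℝ → ℝ | PSol (fun θ => m * G1 θ) G2 (m * μ) v} :
          Set (ℝ → ℝ)).encard : ℕ∞) : ℝ≥0∞) ≤ g μ) ∧
      ∫⁻ t, g t ≤ ENNReal.ofReal
        (((∫ θ in (0:ℝ)..(2 * Real.pi), (|G2' θ / m| + |G1 θ|)) / s * xm +
          2 * Real.pi * b * xm ^ 2) / l0) := by
  have hb : 0 < b := lt_of_le_of_lt ha hab
  have hG2c : Continuous G2 := continuous_iff_continuousAt.2 fun θ => (hG2 θ).continuousAt
  have hG1m : Continuous fun θ => m * G1 θ := continuous_const.mul hG1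
  have hH : Continuous fun θ => G2' θ / m := hG2'.div_const m
  set Tm := (∫ θ in (0:ℝ)..(2 * Real.pi), (|G2' θ / m| + |G1 θ|)) / s * xm +
          2 * Real.pi * b * xm ^ 2 with hTm
  have hTm0 : 0 ≤ Tm := by
    have : 0 ≤ ∫ θ in (0:ℝ)..(2 * Real.pi), (|G2' θ / m| + |G1 θ|) :=
      intervalIntegral.integral_nonneg (by positivity) fun θ _ => by positivity
    positivity
  have hident : ∀ μ v, PSol (fun θ => m * G1 θ) G2 (m * μ) v →
      μ * ell s v = ∫ θ in (0:ℝ)..(2 * Real.pi),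
        ((G2' θ / m) * X s (v θ) - G1 θ * (X s (v θ) * (1 - X s (v θ)))) / s := by
    intro μ v h
    have h1 := h.identity hG1m hG2 hG2' hper2 hs
    have h2 : ∫ θ in (0:ℝ)..(2 * Real.pi),
        (G2' θ * X s (v θ) - (m * G1 θ) * (X s (v θ) * (1 - X s (v θ)))) / s =
        m * ∫ θ in (0:ℝ)..(2 * Real.pi),
        ((G2' θ / m) * X s (v θ) - G1 θ * (X s (v θ) * (1 - X s (v θ)))) / s := by
      rw [← intervalIntegral.integral_const_mul]
      apply intervalIntegral.integral_congr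
      intro θ _
      simp only
      field_simp
    rw [h2, mul_assoc] at h1
    exact mul_left_cancel₀ hm.ne' h1
  let ι := {p : ℝ × (ℝ → ℝ) // a < p.1 ∧ p.1 ≤ b ∧ PSol (fun θ => m * G1 θ) G2 (m * p.1) p.2}
  let τ : ι → ℝ := fun p => clockb G1 (fun θ => G2' θ / m) b s p.1.2
  let f : ι → ℝ := fun p => p.1.1
  -- the basic inequality for ordered pairs
  have hpair : ∀ i j : ι, (∀ θ, i.1.2 θ < j.1.2 θ) → l0 * |f i - f j| ≤ τ j - τ i := by
    rintro ⟨⟨t1, v1⟩, h1a, h1b, h1⟩ ⟨⟨t2, v2⟩, h2a, h2b, h2⟩ hlt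
    simp only at h1a h1b h1 h2a h2b h2 hlt
    have hfl := flux_le_clockb hG1 hH hs hb h1.cont h2.cont h1.pos h2.pos (hident _ _ h1)
      (hident _ _ h2) hlt
    refine le_trans ?_ hfl
    show l0 * |t1 - t2| ≤ _
    have l1 := hlow _ _ h1a h1b h1
    have k1 : (t1 - t2) * ell s v1 =
        (t1 * ell s v1 - t2 * ell s v2) - t2 * (ell s v1 - ell s v2) := by ring
    have k2 : |t1 - t2| * ell s v1 ≤
        |t1 * ell s v1 - t2 * ell s v2| + b * |ell s v1 - ell s v2| := by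
      have hl1 : 0 ≤ ell s v1 := hl0.le.trans l1
      calc |t1 - t2| * ell s v1 = |(t1 - t2) * ell s v1| := by
            rw [abs_mul, abs_of_nonneg hl1]
        _ ≤ |t1 * ell s v1 - t2 * ell s v2| + |t2 * (ell s v1 - ell s v2)| := by
            rw [k1]; exact abs_sub _ _
        _ ≤ _ := by
            rw [abs_mul, abs_of_pos (lt_of_le_of_lt ha h2a)]
            have := mul_le_mul_of_nonneg_right h2b (abs_nonneg (ell s v1 - ell s v2))
            linarith
    have k3 : l0 * |t1 - t2| ≤ |t1 - t2| * ell s v1 := by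
      rw [mul_comm]; exact mul_le_mul_of_nonneg_left l1 (abs_nonneg _)
    linarith
  have hlt : ∀ i j : ι, (∀ θ, i.1.2 θ < j.1.2 θ) → τ i < τ j := by
    intro i j hij
    exact clockb_lt hG1 hH hs hb i.2.2.2.cont j.2.2.2.cont i.2.2.2.pos hij
  have htri : ∀ i j : ι, i.1.2 = j.1.2 ∨ (∀ θ, i.1.2 θ < j.1.2 θ) ∨ (∀ θ, j.1.2 θ < i.1.2 θ) := by
    intro i j
    by_cases hij : i.1.2 = j.1.2
    · exact Or.inl hij
    · exact Or.inr (PSol.order hG1m hG2c i.2.2.2 j.2.2.2 hij)
  have hfeq : ∀ i j : ι, i.1.2 = j.1.2 → i = j := by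
    intro i j hij
    have h1 := i.2.2.2
    have h2 := j.2.2.2
    rw [← hij] at h2
    have h3 := mul_left_cancel₀ hm.ne' (h1.toGSol.mu_unique h2.toGSol)
    exact Subtype.ext (Prod.ext h3 hij)
  have hinj : Function.Injective τ := by
    intro i j hij
    rcases htri i j with h | h | h
    · exact hfeq i j h
    · exact absurd hij (hlt i j h).ne
    · exact absurd hij (hlt j i h).ne'
  have hLip : ∀ i j, |f i - f j| ≤ 1 / l0 * |τ i - τ j| := by
    intro i j
    rcases htri i j with h | h | h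
    · rw [hfeq i j h]; simp
    · have h1 := hpair i j h
      have h2 := hlt i j h
      rw [abs_sub_comm (τ i), abs_of_pos (by linarith : 0 < τ j - τ i), div_mul_eq_mul_div,
        one_mul, le_div_iff₀ hl0]
      linarith
    · have h1 := hpair j i h
      have h2 := hlt j i h
      rw [abs_sub_comm] at h1
      rw [abs_of_pos (by linarith : 0 < τ i - τ j), div_mul_eq_mul_div,
        one_mul, le_div_iff₀ hl0]
      linarith
  obtain ⟨g, hg1, hg2, hg3⟩ := indic_lip τ f hinj hTm0 (by positivity : (0:ℝ) ≤ 1 / l0)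
    (fun i => clockb_nonneg hs hb i.2.2.2.pos)
    (fun i => clockb_le hG1 hH hs hb i.2.2.2.cont i.2.2.2.pos
      (hx _ _ i.2.1 i.2.2.1 i.2.2.2)) hLip
  refine ⟨g, hg1, fun μ hμa hμb => ?_, ?_⟩
  · refine le_trans ?_ (hg2 μ)
    have hinjOn : InjOn (fun i : ι => i.1.2) {i | f i = μ} := by
      intro i _ j _ hij
      exact hfeq i j hij
    have himg : ({v : ℝ → ℝ | PSol (fun θ => m * G1 θ) G2 (m * μ) v} : Set (ℝ → ℝ)) ⊆
        (fun i : ι => i.1.2) '' {i | f i = μ} := by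
      intro v hv
      exact ⟨⟨(μ, v), hμa, hμb, hv⟩, rfl, rfl⟩
    have := (Set.encard_le_encard himg).trans_eq hinjOn.encard_image
    exact_mod_cast this
  · refine hg3.trans (le_of_eq ?_)
    congr 1
    ring

/-- closed orbits for a large trace parameter are far away -/
lemma PSol.le_of_mu {m : ℝ} (hm : 0 < m) {G1 G2 : ℝ → ℝ} {μ : ℝ} (hμ : 0 < μ) {v : ℝ → ℝ}
    (h : PSol (fun θ => m * G1 θ) G2 (m * μ) v) {K : ℝ} (hK : ∀ θ, |G1 θ| ≤ K) (θ : ℝ) :
    v θ ≤ K / μ := by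
  have hper : Function.Periodic v (2 * Real.pi) := h.per
  obtain ⟨y, -, hy⟩ := (isCompact_Icc (a := 0) (b := 2 * Real.pi)).exists_isMaxOn
    ⟨0, le_rfl, by positivity⟩ h.cont.continuousOn
  have hmax : ∀ x, v x ≤ v y := by
    intro x
    obtain ⟨z, hz, hze⟩ := hper.exists_mem_Ico₀ (by positivity) x
    rw [hze]
    exact hy ⟨hz.1, hz.2.le⟩
  have hloc : IsLocalMax v y := Filter.Eventually.of_forall hmax
  have h0 := hloc.hasDerivAt_eq_zero (h.deriv y)
  have p1 := h.pos y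
  have p2 := h.pos' y
  rw [div_eq_zero_iff] at h0
  rcases h0 with h0 | h0
  · have h1 : v y * (m * μ * v y + m * G1 y) = 0 := by linarith
    rcases mul_eq_zero.1 h1 with h2 | h2
    · linarith
    · have h3 : μ * v y = -G1 y := by
        have : m * (μ * v y + G1 y) = 0 := by linarith
        rcases mul_eq_zero.1 this with h4 | h4
        · linarith
        · linarith
      refine (hmax θ).trans ?_
      rw [le_div_iff₀ hμ]
      have h4 := hK y
      have h5 := neg_le_abs (G1 y)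
      linarith
  · linarith

theorem count_all {m : ℝ} (hm : 0 < m) {G1 G2 G2' : ℝ → ℝ} (hG1 : Continuous G1)
    (hG2 : ∀ θ, HasDerivAt G2 (G2' θ) θ) (hG2' : Continuous G2')
    (hper2 : ∀ θ, G2 (θ + 2 * Real.pi) = G2 θ) {s c K : ℝ} (hs : 0 < s) (hc : 0 < c)
    (hK : ∀ θ, |G1 θ| ≤ K)
    (hlow : ∀ μ v, 0 < μ → PSol (fun θ => m * G1 θ) G2 (m * μ) v → c / (1 + μ ^ 2) ≤ ell s v)
    {I : ℝ} (hI : ∫ θ in (0:ℝ)..(2 * Real.pi), (|G2' θ / m| + |G1 θ|) ≤ I) (hI0 : 0 ≤ I)
    {M : ℝ} (hM : 1 ≤ M) :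
    ∃ g : ℝ → ℝ≥0∞, Measurable g ∧
      (∀ μ : ℝ, 0 < μ → μ ≤ M →
        ((({v : ℝ → ℝ | PSol (fun θ => m * G1 θ) G2 (m * μ) v} :
          Set (ℝ → ℝ)).encard : ℕ∞) : ℝ≥0∞) ≤ g μ) ∧
      ∫⁻ t, g t ≤ ENNReal.ofReal
        ((2 * (I / s + 2 * Real.pi) + 10 * (I / s * (K / s) + 4 * Real.pi * (K / s) ^ 2)) *
          M / c) := by
  have hK0 : 0 ≤ K := (abs_nonneg (G1 0)).trans (hK 0)
  set J := ∫ θ in (0:ℝ)..(2 * Real.pi), (|G2' θ / m| + |G1 θ|) with hJ
  -- first window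
  obtain ⟨g0, hg01, hg02, hg03⟩ := count_window hm hG1 hG2 hG2' hper2 (a := 0) (b := 1) (xm := 1)
    (l0 := c / 2) hs le_rfl one_pos zero_le_one (by positivity)
    (fun μ v _ _ h θ => (X_lt_one hs (h.pos θ)).le)
    (fun μ v h1 h2 h => by
      refine le_trans ?_ (hlow μ v h1 h)
      apply div_le_div_of_nonneg_left hc.le (by positivity)
      nlinarith)
  -- dyadic windows
  have hwin : ∀ k : ℕ, ∃ g : ℝ → ℝ≥0∞, Measurable g ∧
      (∀ μ : ℝ, 2 ^ k < μ → μ ≤ 2 ^ (k + 1) →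
        ((({v : ℝ → ℝ | PSol (fun θ => m * G1 θ) G2 (m * μ) v} :
          Set (ℝ → ℝ)).encard : ℕ∞) : ℝ≥0∞) ≤ g μ) ∧
      ∫⁻ t, g t ≤ ENNReal.ofReal
        (5 * 2 ^ k * (I / s * (K / s) + 4 * Real.pi * (K / s) ^ 2) / c) := by
    intro k
    have h2k : (0:ℝ) < 2 ^ k := by positivity
    have h2k1 : (1:ℝ) ≤ 2 ^ k := one_le_pow₀ (by norm_num)
    obtain ⟨g, hg1, hg2, hg3⟩ := count_window hm hG1 hG2 hG2' hper2 (a := 2 ^ k)
      (b := 2 ^ (k + 1)) (xm := K / s / 2 ^ k) (l0 := c / (1 + (2 ^ (k + 1)) ^ 2)) hs h2k.le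
      (by rw [pow_succ]; linarith) (by positivity) (by positivity)
      (fun μ v h1 _ h θ => by
        have h3 := h.le_of_mu hm (h2k.trans h1) hK θ
        have h4 : K / μ ≤ K / 2 ^ k := div_le_div_of_nonneg_left hK0 h2k h1.le
        have h5 : X s (v θ) ≤ v θ / s := by
          unfold X
          exact div_le_div_of_nonneg_left (h.pos θ).le hs (by linarith [h.pos θ])
        calc X s (v θ) ≤ v θ / s := h5
          _ ≤ (K / 2 ^ k) / s := div_le_div_of_nonneg_right (h3.trans h4) hs.le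
          _ = K / s / 2 ^ k := by rw [div_right_comm])
      (fun μ v h1 h2 h => by
        refine le_trans ?_ (hlow μ v (h2k.trans h1) h)
        apply div_le_div_of_nonneg_left hc.le (by positivity)
        have := pow_le_pow_left₀ (h2k.trans h1).le h2 2
        linarith)
    refine ⟨g, hg1, hg2, hg3.trans (ENNReal.ofReal_le_ofReal ?_)⟩
    rw [← hJ]
    have hq : 0 ≤ K / s := by positivity
    set q := K / s with hqdef
    have e1 : (J / s * (q / 2 ^ k) + 2 * Real.pi * 2 ^ (k + 1) * (q / 2 ^ k) ^ 2) /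
        (c / (1 + (2 ^ (k + 1)) ^ 2)) =
        (J / s * q + 4 * Real.pi * q ^ 2) * ((1 + 4 * (2 ^ k) ^ 2) / 2 ^ k) / c := by
      rw [pow_succ]
      field_simp
      ring
    rw [e1]
    apply div_le_div_of_nonneg_right _ hc.le
    have e2 : (1 + 4 * ((2:ℝ) ^ k) ^ 2) / 2 ^ k ≤ 5 * 2 ^ k := by
      rw [div_le_iff₀ h2k]
      nlinarith
    have e3 : J / s * q + 4 * Real.pi * q ^ 2 ≤ I / s * q + 4 * Real.pi * q ^ 2 := by
      have := mul_le_mul_of_nonneg_right (div_le_div_of_nonneg_right hI hs.le) hq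
      linarith
    have hJ0 : 0 ≤ J :=
      intervalIntegral.integral_nonneg (by positivity) fun θ _ => by positivity
    have e4 : 0 ≤ J / s * q + 4 * Real.pi * q ^ 2 := by positivity
    calc (J / s * q + 4 * Real.pi * q ^ 2) * ((1 + 4 * (2 ^ k) ^ 2) / 2 ^ k)
        ≤ (J / s * q + 4 * Real.pi * q ^ 2) * (5 * 2 ^ k) := mul_le_mul_of_nonneg_left e2 e4
      _ ≤ (I / s * q + 4 * Real.pi * q ^ 2) * (5 * 2 ^ k) :=
          mul_le_mul_of_nonneg_right e3 (by positivity)
      _ = 5 * 2 ^ k * (I / s * q + 4 * Real.pi * q ^ 2) := by ring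
  choose g hg1 hg2 hg3 using hwin
  obtain ⟨n, hn1, hn2⟩ := exists_nat_pow_near hM (by norm_num : (1:ℝ) < 2)
  refine ⟨fun μ => g0 μ + ∑ k ∈ Finset.range (n + 1), g k μ, ?_, ?_, ?_⟩
  · exact hg01.add (Finset.measurable_fun_sum _ fun k _ => hg1 k)
  · intro μ hμ0 hμM
    rcases le_or_gt μ 1 with h1 | h1
    · exact (hg02 μ hμ0 h1).trans le_self_add
    · -- the window of `μ`
      obtain ⟨k, hk1, hk2⟩ : ∃ k : ℕ, (2:ℝ) ^ k < μ ∧ μ ≤ 2 ^ (k + 1) := by
        obtain ⟨j, hj1, hj2⟩ := exists_nat_pow_near h1.le (by norm_num : (1:ℝ) < 2)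
        rcases eq_or_lt_of_le hj1 with h | h
        · rcases j with _ | j
          · rw [pow_zero] at h; linarith
          · refine ⟨j, ?_, h.ge⟩
            rw [← h, pow_succ]
            have : (0:ℝ) < 2 ^ j := by positivity
            linarith
        · exact ⟨j, h, hj2.le⟩
      have hkn : k < n + 1 := by
        by_contra hc
        push Not at hc
        have := pow_le_pow_right₀ (by norm_num : (1:ℝ) ≤ 2) hc
        linarith
      calc _ ≤ g k μ := hg2 k μ hk1 hk2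
        _ ≤ ∑ k ∈ Finset.range (n + 1), g k μ :=
            Finset.single_le_sum (f := fun k => g k μ) (fun _ _ => zero_le)
              (Finset.mem_range.2 hkn)
        _ ≤ _ := le_add_self
  · rw [lintegral_add_left hg01, lintegral_finsetSum _ (fun k _ => hg1 k)]
    set Q := I / s * (K / s) + 4 * Real.pi * (K / s) ^ 2 with hQ
    have hQ0 : 0 ≤ Q := by positivity
    have h1 : ∑ k ∈ Finset.range (n + 1), ∫⁻ t, g k t ≤
        ENNReal.ofReal (∑ k ∈ Finset.range (n + 1), 5 * 2 ^ k * Q / c) := by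
      rw [ENNReal.ofReal_sum_of_nonneg (fun k _ => by positivity)]
      exact Finset.sum_le_sum fun k _ => hg3 k
    have h2 : ∑ k ∈ Finset.range (n + 1), 5 * 2 ^ k * Q / c ≤ 10 * Q * M / c := by
      have : ∀ k : ℕ, 5 * (2:ℝ) ^ k * Q / c = 5 * Q / c * 2 ^ k := fun k => by ring
      simp_rw [this]
      rw [← Finset.mul_sum, geom_sum_eq (by norm_num), pow_succ]
      have h3 : ((2:ℝ) ^ n * 2 - 1) / (2 - 1) ≤ 2 * M := by
        rw [div_le_iff₀ (by norm_num)]; linarith
      calc 5 * Q / c * (((2:ℝ) ^ n * 2 - 1) / (2 - 1)) ≤ 5 * Q / c * (2 * M) :=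
            mul_le_mul_of_nonneg_left h3 (by positivity)
        _ = 10 * Q * M / c := by ring
    have h0 : ∫⁻ t, g0 t ≤ ENNReal.ofReal (2 * (I / s + 2 * Real.pi) * M / c) := by
      refine hg03.trans (ENNReal.ofReal_le_ofReal ?_)
      rw [← hJ]
      have e1 : (J / s * 1 + 2 * Real.pi * 1 * 1 ^ 2) / (c / 2) =
          2 * (J / s + 2 * Real.pi) / c := by field_simp
      rw [e1]
      apply div_le_div_of_nonneg_right _ hc.le
      have e2 := div_le_div_of_nonneg_right hI hs.le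
      have e3 : 0 ≤ 2 * (I / s + 2 * Real.pi) := by positivity
      nlinarith
    calc _ ≤ ENNReal.ofReal (2 * (I / s + 2 * Real.pi) * M / c) +
          ENNReal.ofReal (10 * Q * M / c) :=
          add_le_add h0 (h1.trans (ENNReal.ofReal_le_ofReal h2))
      _ = ENNReal.ofReal (2 * (I / s + 2 * Real.pi) * M / c + 10 * Q * M / c) :=
          (ENNReal.ofReal_add (by positivity) (by positivity)).symm
      _ = _ := by congr 1; ring

/-- gluing the two halves of the window -/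
lemma glueM {N : ℝ → ℝ≥0∞} {gp gm : ℝ → ℝ≥0∞} (hgp : Measurable gp) (hgm : Measurable gm) {M : ℝ}
    (h1 : ∀ μ, 0 < μ → μ ≤ M → N μ ≤ gp μ) (h2 : ∀ μ, 0 < μ → μ ≤ M → N (-μ) ≤ gm μ)
    {K : ℝ} (hp : ∫⁻ t, gp t ≤ ENNReal.ofReal K) (hm : ∫⁻ t, gm t ≤ ENNReal.ofReal K)
    (hK : 0 ≤ K) :
    ∃ g : ℝ → ℝ≥0∞, Measurable g ∧ (∀ μ ∈ Icc (-M) M, N μ ≤ g μ) ∧
      ∫⁻ μ in Icc (-M) M, g μ ≤ ENNReal.ofReal (2 * K) := by
  refine ⟨fun t => gp t + gm (-t) + ({0} : Set ℝ).indicator (fun _ => ⊤) t, ?_, ?_, ?_⟩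
  · exact (hgp.add (hgm.comp measurable_neg)).add
      (measurable_const.indicator (measurableSet_singleton 0))
  · intro t ht
    rcases lt_trichotomy t 0 with h | h | h
    · have := h2 (-t) (by linarith) (by linarith [ht.1])
      rw [neg_neg] at this
      calc N t ≤ gm (-t) := this
        _ ≤ gp t + gm (-t) := le_add_self
        _ ≤ _ := le_self_add
    · subst h
      simp
    · calc N t ≤ gp t := h1 t h ht.2
        _ ≤ gp t + gm (-t) := le_self_add
        _ ≤ _ := le_self_add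
  · refine (setLIntegral_le_lintegral _ _).trans ?_
    rw [lintegral_add_right _ (measurable_const.indicator (measurableSet_singleton 0)),
      lintegral_add_left hgp]
    have e1 : ∫⁻ t, gm (-t) = ∫⁻ t, gm t := by
      have := (Measure.measurePreserving_neg (volume : Measure ℝ)).lintegral_comp hgm
      exact this
    have e2 : ∫⁻ t, ({0} : Set ℝ).indicator (fun _ => (⊤:ℝ≥0∞)) t = 0 := by
      rw [lintegral_indicator (measurableSet_singleton 0)]
      simp
    rw [e1, e2, add_zero, two_mul, ENNReal.ofReal_add hK hK]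
    exact add_le_add hp hm

end

end Pool.Agent.H811R2.Quad
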